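import Mathlib

/-!
# A lower bound for the upper tails of sums of bounded independent random variables
-/

set_option autoImplicit false

open MeasureTheory ProbabilityTheory Real
open scoped ENNReal

namespace Pool.Agent.P8H92.KB

variable {Ω : Type*} [MeasurableSpace Ω] {P : Measure Ω} [IsProbabilityMeasure P]

theorem int_exp {Y : Ω → ℝ} {r : ℝ} (hm : AEMeasurable Y P) (hb : ∀ᵐ ω ∂P, |Y ω| ≤ r) (t : ℝ) :
    Integrable (fun ω => rexp (t * Y ω)) P := by
  apply integrable_exp_mul_of_mem_Icc (a := -r) (b := r) hm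
  filter_upwards [hb] with ω h using abs_le.1 h

theorem expSet_univ {Y : Ω → ℝ} {r : ℝ} (hm : AEMeasurable Y P) (hb : ∀ᵐ ω ∂P, |Y ω| ≤ r) :
    interior (integrableExpSet Y P) = Set.univ := by
  have : integrableExpSet Y P = Set.univ := by
    ext t
    simp only [Set.mem_univ, iff_true]
    exact int_exp hm hb t
  rw [this, interior_univ]

/-- Hoeffding's lemma for the tilted measure. -/
theorem cgf_tilt {Y : Ω → ℝ} {r : ℝ} (hm : AEMeasurable Y P) (hb : ∀ᵐ ω ∂P, |Y ω| ≤ r)
    (l h : ℝ) :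
    cgf Y P (l + h) ≤ cgf Y P l + h * deriv (cgf Y P) l + h ^ 2 * r ^ 2 / 2 := by
  have hint := int_exp hm hb
  set Q := P.tilted (l * Y ·) with hQ
  have : IsProbabilityMeasure Q := isProbabilityMeasure_tilted (hint l)
  have hac : Q ≪ P := tilted_absolutelyContinuous _ _
  have hbQ : ∀ᵐ ω ∂Q, Y ω ∈ Set.Icc (-r) r := by
    filter_upwards [hac.ae_le hb] with ω h using abs_le.1 h
  have hmQ : AEMeasurable Y Q := hm.mono_ac hac
  have hsub := (hasSubgaussianMGF_of_mem_Icc hmQ hbQ).mgf_le h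
  have hmean : Q[Y] = deriv (cgf Y P) l :=
    integral_tilted_mul_self (by rw [expSet_univ hm hb]; trivial)
  have hmgf : mgf Y Q h = mgf Y P (l + h) / mgf Y P l := by
    unfold mgf
    rw [hQ, integral_tilted_mul_eq_mgf, ← integral_div]
    refine integral_congr_ae (ae_of_all _ fun ω => ?_)
    simp only [smul_eq_mul]
    rw [add_mul, Real.exp_add]
    unfold mgf
    ring
  have hpos1 : 0 < mgf Y P l := mgf_pos (hint l)
  have hpos2 : 0 < mgf Y P (l + h) := mgf_pos (hint (l + h))
  have e1 : mgf (fun ω => Y ω - Q[Y]) Q h = mgf Y Q h * rexp (h * (-Q[Y])) := by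
    simp_rw [sub_eq_add_neg]
    exact mgf_add_const _
  rw [e1, hmgf] at hsub
  have e2 : (((‖r - -r‖₊ / 2) ^ 2 : NNReal) : ℝ) = r ^ 2 := by
    push_cast
    rw [Real.norm_eq_abs, div_pow, sq_abs]
    ring
  rw [e2] at hsub
  have h3 := Real.log_le_log (by positivity) hsub
  rw [Real.log_exp, Real.log_mul (by positivity) (Real.exp_pos _).ne',
    Real.log_div hpos2.ne' hpos1.ne', Real.log_exp, hmean] at h3
  unfold cgf at *
  linarith

theorem deriv_cont {Y : Ω → ℝ} {r : ℝ} (hm : AEMeasurable Y P) (hb : ∀ᵐ ω ∂P, |Y ω| ≤ r) :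
    Continuous (deriv (cgf Y P)) := by
  have h := analyticOnNhd_cgf (X := Y) (μ := P)
  rw [expSet_univ hm hb] at h
  rw [← continuousOn_univ]
  exact h.deriv.continuousOn

theorem cgf_diff {Y : Ω → ℝ} {r : ℝ} (hm : AEMeasurable Y P) (hb : ∀ᵐ ω ∂P, |Y ω| ≤ r) (l : ℝ) :
    HasDerivAt (cgf Y P) (deriv (cgf Y P) l) l := by
  have h := analyticOnNhd_cgf (X := Y) (μ := P)
  rw [expSet_univ hm hb] at h
  exact (h l trivial).differentiableAt.hasDerivAt

/-- Lower bound for the upper tails of a sum of bounded independent random variables from a lower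
bound of the cumulant generating functions on the positive half line. -/
theorem tail {ι : Type*} [Fintype ι] {Y : ι → Ω → ℝ} (hind : iIndepFun Y P)
    (hm : ∀ i, Measurable (Y i)) (r : ι → ℝ) (hb : ∀ i, ∀ᵐ ω ∂P, |Y i ω| ≤ r i) {s ε W ρ : ℝ}
    (hε : 0 < ε) (hρ : ρ = ∑ i, r i ^ 2) (hρ0 : 0 < ρ) (hW : 0 ≤ W)
    (hl : ∀ l : ℝ, 0 ≤ l → l * (s + 2 * ε) - W ≤ ∑ i, cgf (Y i) P l) :
    (1 - 2 * rexp (-(ε ^ 2 / (2 * ρ)))) * rexp (-W) ≤ P.real {ω | s < ∑ i, Y i ω} := by
  set ψ : ℝ → ℝ := fun l => ∑ i, cgf (Y i) P l with hψ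
  set m : ℝ → ℝ := fun l => ∑ i, deriv (cgf (Y i) P) l with hmdef
  have hT : ∀ l h : ℝ, ψ (l + h) ≤ ψ l + h * m l + h ^ 2 * ρ / 2 := by
    intro l h
    have : ψ (l + h) ≤ ∑ i, (cgf (Y i) P l + h * deriv (cgf (Y i) P) l + h ^ 2 * r i ^ 2 / 2) :=
      Finset.sum_le_sum fun i _ => cgf_tilt (hm i).aemeasurable (hb i) l h
    refine this.trans (le_of_eq ?_)
    have e1 : ∑ i, h ^ 2 * r i ^ 2 / 2 = h ^ 2 * ρ / 2 := by
      rw [hρ, Finset.mul_sum, Finset.sum_div]
    rw [Finset.sum_add_distrib, Finset.sum_add_distrib, ← Finset.mul_sum, e1]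
  have hmc : Continuous m := continuous_finsetSum _ fun i _ => deriv_cont (hm i).aemeasurable (hb i)
  have hd : ∀ l, HasDerivAt ψ (m l) l := fun l =>
    HasDerivAt.fun_sum fun i _ => cgf_diff (hm i).aemeasurable (hb i) l
  have hψ0 : ψ 0 = 0 := by simp [hψ]
  set S : Ω → ℝ := fun ω => ∑ i, Y i ω with hS
  have hSm : Measurable S := Finset.measurable_sum _ fun i _ => hm i
  have hSb : ∀ᵐ ω ∂P, |S ω| ≤ ∑ i, r i := by
    have h1 : ∀ᵐ ω ∂P, ∀ i, |Y i ω| ≤ r i := ae_all_iff.2 hb
    filter_upwards [h1] with ω h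
    exact (Finset.abs_sum_le_sum_abs _ _).trans (Finset.sum_le_sum fun i _ => h i)
  have hSint := int_exp hSm.aemeasurable hSb
  have hmgf : ∀ l, ∫ ω, rexp (l * S ω) ∂P = rexp (ψ l) := by
    intro l
    have h1 := hind.mgf_sum (fun i => hm i) Finset.univ (t := l)
    have h2 : mgf (∑ i, Y i) P l = ∫ ω, rexp (l * S ω) ∂P := by
      unfold mgf
      simp [hS, Finset.sum_apply]
    rw [← h2, h1, hψ]
    simp only
    rw [Real.exp_sum]
    refine Finset.prod_congr rfl fun i _ => ?_
    rw [exp_cgf (int_exp (hm i).aemeasurable (hb i) l)]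
  set E : Set Ω := {ω | s < S ω} with hE
  have hEm : MeasurableSet E := measurableSet_lt measurable_const hSm
  -- the main step
  have key : ∀ l0 h : ℝ, 0 ≤ l0 → 0 ≤ h → rexp (ψ l0) ≤
      rexp (h * s) * rexp (ψ (l0 - h)) + rexp (-(h * (s + 2 * ε))) * rexp (ψ (l0 + h)) +
        rexp (l0 * (s + 2 * ε)) * P.real E := by
    intro l0 h hl0 hh
    have hpt : ∀ ω, rexp (l0 * S ω) ≤ rexp (h * s) * rexp ((l0 - h) * S ω) +
        rexp (-(h * (s + 2 * ε))) * rexp ((l0 + h) * S ω) +
        rexp (l0 * (s + 2 * ε)) * E.indicator (fun _ => (1 : ℝ)) ω := by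
      intro ω
      have n1 : 0 ≤ rexp (h * s) * rexp ((l0 - h) * S ω) := by positivity
      have n2 : 0 ≤ rexp (-(h * (s + 2 * ε))) * rexp ((l0 + h) * S ω) := by positivity
      have n3 : 0 ≤ rexp (l0 * (s + 2 * ε)) * E.indicator (fun _ => (1 : ℝ)) ω :=
        mul_nonneg (Real.exp_pos _).le (Set.indicator_nonneg (fun _ _ => zero_le_one) _)
      rcases le_or_gt (S ω) s with h1 | h1
      · have : rexp (l0 * S ω) ≤ rexp (h * s) * rexp ((l0 - h) * S ω) := by
          rw [← Real.exp_add]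
          apply Real.exp_le_exp.2
          nlinarith
        linarith
      · rcases le_or_gt (S ω) (s + 2 * ε) with h2 | h2
        · have : rexp (l0 * S ω) ≤ rexp (l0 * (s + 2 * ε)) *
              E.indicator (fun _ => (1 : ℝ)) ω := by
            rw [Set.indicator_of_mem (by exact h1), mul_one]
            apply Real.exp_le_exp.2
            exact mul_le_mul_of_nonneg_left h2 hl0
          linarith
        · have : rexp (l0 * S ω) ≤ rexp (-(h * (s + 2 * ε))) * rexp ((l0 + h) * S ω) := by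
            rw [← Real.exp_add]
            apply Real.exp_le_exp.2
            nlinarith
          linarith
    have i1 := (hSint (l0 - h)).const_mul (rexp (h * s))
    have i2 := (hSint (l0 + h)).const_mul (rexp (-(h * (s + 2 * ε))))
    have i3 : Integrable (fun ω => rexp (l0 * (s + 2 * ε)) *
        E.indicator (fun _ => (1 : ℝ)) ω) P :=
      ((integrable_const (1 : ℝ)).indicator hEm).const_mul _
    have i12 : Integrable (fun ω => rexp (h * s) * rexp ((l0 - h) * S ω) +
        rexp (-(h * (s + 2 * ε))) * rexp ((l0 + h) * S ω)) P := i1.add i2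
    have h1 := integral_mono (hSint l0) (i12.add i3) hpt
    simp only [Pi.add_apply] at h1
    rw [integral_add i12 i3, integral_add i1 i2, integral_const_mul, integral_const_mul,
      integral_const_mul, hmgf, hmgf, hmgf, integral_indicator_const _ hEm] at h1
    simpa using h1
  set h0 := ε / ρ with hh0
  have hh0pos : 0 < h0 := by positivity
  have hexpo : -(h0 * ε) + h0 ^ 2 * ρ / 2 = -(ε ^ 2 / (2 * ρ)) := by
    rw [hh0]
    field_simp
    ring
  rcases le_or_gt (s + ε) (m 0) with hA | hA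
  · -- the mean is large
    have h1 : 1 - P.real E ≤ rexp (-(ε ^ 2 / (2 * ρ))) := by
      have hpt : ∀ ω, 1 ≤ rexp (h0 * s) * rexp ((0 - h0) * S ω) +
          E.indicator (fun _ => (1 : ℝ)) ω := by
        intro ω
        rcases le_or_gt (S ω) s with h1 | h1
        · have : 1 ≤ rexp (h0 * s) * rexp ((0 - h0) * S ω) := by
            rw [← Real.exp_add]
            apply Real.one_le_exp
            nlinarith
          have n3 : 0 ≤ E.indicator (fun _ => (1 : ℝ)) ω :=
            Set.indicator_nonneg (fun _ _ => zero_le_one) _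
          linarith
        · rw [Set.indicator_of_mem (by exact h1)]
          have : 0 ≤ rexp (h0 * s) * rexp ((0 - h0) * S ω) := by positivity
          linarith
      have i1 := (hSint (0 - h0)).const_mul (rexp (h0 * s))
      have i3 : Integrable (fun ω => E.indicator (fun _ => (1 : ℝ)) ω) P :=
        (integrable_const (1 : ℝ)).indicator hEm
      have h2 := integral_mono (integrable_const (1 : ℝ)) (i1.add i3) hpt
      simp only [Pi.add_apply] at h2
      rw [integral_add i1 i3, integral_const_mul, hmgf, integral_indicator_const _ hEm] at h2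
      have h3 := hT 0 (-h0)
      rw [hψ0] at h3
      have h4 : rexp (h0 * s) * rexp (ψ (0 - h0)) ≤ rexp (-(ε ^ 2 / (2 * ρ))) := by
        rw [← Real.exp_add]
        apply Real.exp_le_exp.2
        rw [← hexpo, sub_eq_add_neg]
        nlinarith
      simp at h2
      simp at h4
      linarith
    have h2 : rexp (-W) ≤ 1 := by
      apply Real.exp_le_one_iff.2
      linarith
    have h3 : 0 ≤ P.real E := measureReal_nonneg
    rcases le_or_gt (1 - 2 * rexp (-(ε ^ 2 / (2 * ρ)))) 0 with h4 | h4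
    · exact (mul_nonpos_of_nonpos_of_nonneg h4 (Real.exp_pos _).le).trans h3
    · calc (1 - 2 * rexp (-(ε ^ 2 / (2 * ρ)))) * rexp (-W)
          ≤ (1 - 2 * rexp (-(ε ^ 2 / (2 * ρ)))) * 1 := by gcongr
        _ ≤ P.real E := by
          have := (Real.exp_pos (-(ε ^ 2 / (2 * ρ))))
          linarith
  · -- the mean is small
    have hex : ∃ l1 : ℝ, 0 ≤ l1 ∧ s + ε ≤ m l1 := by
      by_contra hcon
      push Not at hcon
      set L := (W + 1) / ε with hL
      have hLpos : 0 < L := by positivity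
      have h1 : ψ L - ψ 0 ≤ (s + ε) * (L - 0) := by
        apply (convex_Icc (0 : ℝ) L).image_sub_le_mul_sub_of_deriv_le
          (fun x _ => (hd x).continuousAt.continuousWithinAt)
          (fun x _ => (hd x).differentiableAt.differentiableWithinAt) _ 0
          ⟨le_rfl, hLpos.le⟩ L ⟨hLpos.le, le_rfl⟩ hLpos.le
        intro x hx
        rw [interior_Icc] at hx
        rw [(hd x).deriv]
        exact (hcon x hx.1.le).le
      have h2 := hl L hLpos.le
      have h3 : L * ε = W + 1 := by rw [hL]; field_simp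
      have h4 : ψ L = ∑ i, cgf (Y i) P L := rfl
      nlinarith
    obtain ⟨l1, hl1, hl1'⟩ := hex
    obtain ⟨l0, hl0, hl0'⟩ := intermediate_value_Icc hl1 hmc.continuousOn ⟨hA.le, hl1'⟩
    have h1 := key l0 h0 hl0.1 hh0pos.le
    have h2 : rexp (h0 * s) * rexp (ψ (l0 - h0)) ≤ rexp (ψ l0) * rexp (-(ε ^ 2 / (2 * ρ))) := by
      rw [← Real.exp_add, ← Real.exp_add]
      apply Real.exp_le_exp.2
      have := hT l0 (-h0)
      rw [hl0', ← sub_eq_add_neg] at this
      rw [← hexpo]
      nlinarith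
    have h3 : rexp (-(h0 * (s + 2 * ε))) * rexp (ψ (l0 + h0)) ≤
        rexp (ψ l0) * rexp (-(ε ^ 2 / (2 * ρ))) := by
      rw [← Real.exp_add, ← Real.exp_add]
      apply Real.exp_le_exp.2
      have := hT l0 h0
      rw [hl0'] at this
      rw [← hexpo]
      nlinarith
    have h4 : rexp (ψ l0) * (1 - 2 * rexp (-(ε ^ 2 / (2 * ρ)))) ≤
        rexp (l0 * (s + 2 * ε)) * P.real E := by nlinarith
    have h5 := hl l0 hl0.1
    have h6 : rexp (-W) * rexp (l0 * (s + 2 * ε)) ≤ rexp (ψ l0) := by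
      rw [← Real.exp_add]
      apply Real.exp_le_exp.2
      have : ψ l0 = ∑ i, cgf (Y i) P l0 := rfl
      linarith
    rcases le_or_gt (1 - 2 * rexp (-(ε ^ 2 / (2 * ρ)))) 0 with h7 | h7
    · exact (mul_nonpos_of_nonpos_of_nonneg h7 (Real.exp_pos _).le).trans measureReal_nonneg
    · have h8 : (1 - 2 * rexp (-(ε ^ 2 / (2 * ρ)))) * rexp (-W) * rexp (l0 * (s + 2 * ε)) ≤
          P.real E * rexp (l0 * (s + 2 * ε)) := by
        calc (1 - 2 * rexp (-(ε ^ 2 / (2 * ρ)))) * rexp (-W) * rexp (l0 * (s + 2 * ε))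
            = (1 - 2 * rexp (-(ε ^ 2 / (2 * ρ)))) * (rexp (-W) * rexp (l0 * (s + 2 * ε))) := by
              ring
          _ ≤ (1 - 2 * rexp (-(ε ^ 2 / (2 * ρ)))) * rexp (ψ l0) := by gcongr
          _ ≤ P.real E * rexp (l0 * (s + 2 * ε)) := by linarith
      exact le_of_mul_le_mul_right h8 (Real.exp_pos _)

end Pool.Agent.P8H92.KB
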