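import Pool.Agent.P8H92.KB.Ker3
import Pool.Agent.P8H92.KB.Tilt

/-!
# Independent blocks
-/

set_option autoImplicit false
set_option linter.unusedSectionVars false

open MeasureTheory ProbabilityTheory Real
open scoped ENNReal

namespace Pool.Agent.P8H92.KB

variable {ι : Type} [Fintype ι]

/-- The law of a pair of independent copies of a random vector with independent blocks of the
laws `μ i`. -/
noncomputable def pairLaw (k : ι → ℕ) (μ : ∀ i, Measure (EuclideanSpace ℝ (Fin (k i)))) :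
    Measure (∀ i, EuclideanSpace ℝ (Fin (k i)) × EuclideanSpace ℝ (Fin (k i))) :=
  Measure.pi fun i => (μ i).prod (μ i)

/-- The angle of the two vectors is less than `θ`. -/
def SmallAngle {k : ι → ℕ} (θ : ℝ)
    (p : ∀ i, EuclideanSpace ℝ (Fin (k i)) × EuclideanSpace ℝ (Fin (k i))) : Prop :=
  Real.cos θ * (√(∑ i, ‖(p i).1‖ ^ 2) * √(∑ i, ‖(p i).2‖ ^ 2)) < ∑ i, inner ℝ (p i).1 (p i).2

theorem small_of {k : ι → ℕ} {θ : ℝ} (hθ : 0 ≤ Real.cos θ)
    (p : ∀ i, EuclideanSpace ℝ (Fin (k i)) × EuclideanSpace ℝ (Fin (k i)))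
    (h : 0 < ∑ i, zst (Real.cos θ) (p i)) : SmallAngle θ p := by
  unfold SmallAngle
  have e1 : ∑ i, zst (Real.cos θ) (p i) = ∑ i, inner ℝ (p i).1 (p i).2 -
      Real.cos θ * ((∑ i, ‖(p i).1‖ ^ 2 + ∑ i, ‖(p i).2‖ ^ 2) / 2) := by
    unfold zst
    rw [Finset.sum_sub_distrib, ← Finset.sum_add_distrib, Finset.sum_div, Finset.mul_sum]
    congr 1
    refine Finset.sum_congr rfl fun i _ => ?_
    ring
  rw [e1] at h
  have n1 : 0 ≤ ∑ i, ‖(p i).1‖ ^ 2 := Finset.sum_nonneg fun i _ => sq_nonneg _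
  have n2 : 0 ≤ ∑ i, ‖(p i).2‖ ^ 2 := Finset.sum_nonneg fun i _ => sq_nonneg _
  have h2 : √(∑ i, ‖(p i).1‖ ^ 2) * √(∑ i, ‖(p i).2‖ ^ 2) ≤
      (∑ i, ‖(p i).1‖ ^ 2 + ∑ i, ‖(p i).2‖ ^ 2) / 2 := by
    have a1 := Real.sq_sqrt n1
    have a2 := Real.sq_sqrt n2
    nlinarith [sq_nonneg (√(∑ i, ‖(p i).1‖ ^ 2) - √(∑ i, ‖(p i).2‖ ^ 2))]
  have h3 := mul_le_mul_of_nonneg_left h2 hθ
  linarith

theorem zst_abs {V : Type*} [NormedAddCommGroup V] [InnerProductSpace ℝ V] {s R : ℝ} (hs0 : 0 ≤ s)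
    (hs1 : s ≤ 1) {p : V × V} (h1 : ‖p.1‖ ^ 2 ≤ R) (h2 : ‖p.2‖ ^ 2 ≤ R) : |zst s p| ≤ 2 * R := by
  have h3 := abs_real_inner_le_norm p.1 p.2
  have h4 : ‖p.1‖ * ‖p.2‖ ≤ R := by nlinarith [sq_nonneg (‖p.1‖ - ‖p.2‖)]
  have h5 : 0 ≤ ‖p.1‖ ^ 2 + ‖p.2‖ ^ 2 := by positivity
  unfold zst
  rw [abs_le] at h3 ⊢
  constructor <;> nlinarith

theorem blocks (k : ι → ℕ) (μ : ∀ i, Measure (EuclideanSpace ℝ (Fin (k i))))
    [∀ i, IsProbabilityMeasure (μ i)] (R : ι → ℝ) (hR : ∀ i, ∀ᵐ x ∂(μ i), ‖x‖ ^ 2 ≤ R i)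
    (v : ℝ) (hv : v = ∑ i, ∫ x, ‖x‖ ^ 2 ∂(μ i)) (hv0 : 0 < v) (θ ε : ℝ) (hθ0 : 0 ≤ θ)
    (hθ1 : θ ≤ π / 2) (hε : 0 < ε) (hε1 : Real.cos θ + 2 * ε < 1) :
    (1 - 2 * rexp (-(ε ^ 2 * v ^ 2 / (8 * ∑ i, R i ^ 2)))) *
      (1 - (Real.cos θ + 2 * ε) ^ 2) ^ (((∑ i, k i : ℕ) : ℝ) / 2) ≤
      (pairLaw k μ).real {p | SmallAngle θ p} := by
  set s := Real.cos θ with hs
  have hs0 : 0 ≤ s := Real.cos_nonneg_of_mem_Icc ⟨by linarith, hθ1⟩
  set a := s + 2 * ε with ha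
  have ha0 : 0 ≤ a := by positivity
  have ha2 : 0 < 1 - a ^ 2 := by nlinarith
  set n : ℝ := ((∑ i, k i : ℕ) : ℝ) with hn
  have hn0 : 0 ≤ n := Nat.cast_nonneg _
  -- the second moments
  have hint : ∀ i, Integrable (fun x : EuclideanSpace ℝ (Fin (k i)) => ‖x‖ ^ 2) (μ i) := by
    intro i
    refine Integrable.of_bound (Continuous.aestronglyMeasurable (by fun_prop)) (R i) ?_
    filter_upwards [hR i] with x hx
    rw [Real.norm_eq_abs, abs_of_nonneg (by positivity)]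
    exact hx
  have hvR : ∀ i, ∫ x, ‖x‖ ^ 2 ∂(μ i) ≤ R i := by
    intro i
    have := integral_mono_ae (hint i) (integrable_const (R i)) (hR i)
    simpa using this
  have hv0i : ∀ i, 0 ≤ ∫ x, ‖x‖ ^ 2 ∂(μ i) := fun i => integral_nonneg fun _ => sq_nonneg _
  have hR2 : 0 < ∑ i, R i ^ 2 := by
    by_contra hcon
    have hz : ∀ i ∈ Finset.univ, R i ^ 2 = 0 :=
      (Finset.sum_eq_zero_iff_of_nonneg fun i _ => sq_nonneg _).1
        (le_antisymm (not_lt.1 hcon) (Finset.sum_nonneg fun i _ => sq_nonneg _))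
    have : v ≤ 0 := by
      rw [hv]
      refine Finset.sum_nonpos fun i hi => ?_
      have h1 := hz i hi
      have h2 : R i = 0 := by simpa using h1
      rw [← h2]
      exact hvR i
    linarith
  -- the statistics
  set P := pairLaw k μ with hP
  have : IsProbabilityMeasure P := by rw [hP]; unfold pairLaw; infer_instance
  set Y : ι → (∀ i, EuclideanSpace ℝ (Fin (k i)) × EuclideanSpace ℝ (Fin (k i))) → ℝ :=
    fun i p => zst s (p i) with hY
  have hzm : ∀ i, Measurable (zst (V := EuclideanSpace ℝ (Fin (k i))) s) := fun i =>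
    (zst_cont s).measurable
  have hind : iIndepFun Y P := by
    rw [hP]
    exact iIndepFun_pi (X := fun i => zst (V := EuclideanSpace ℝ (Fin (k i))) s)
      fun i => (hzm i).aemeasurable
  have hYm : ∀ i, Measurable (Y i) := fun i => (hzm i).comp (measurable_pi_apply i)
  have hb2 : ∀ i, ∀ᵐ q ∂((μ i).prod (μ i)), |zst s q| ≤ 2 * R i := by
    intro i
    have h1 : ∀ᵐ p ∂((μ i).prod (μ i)), ‖p.1‖ ^ 2 ≤ R i :=
      Measure.quasiMeasurePreserving_fst.ae (hR i)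
    have h2 : ∀ᵐ p ∂((μ i).prod (μ i)), ‖p.2‖ ^ 2 ≤ R i :=
      Measure.quasiMeasurePreserving_snd.ae (hR i)
    filter_upwards [h1, h2] with p hp1 hp2
    exact zst_abs hs0 (Real.cos_le_one θ) hp1 hp2
  have hmp : ∀ i, MeasurePreserving (Function.eval i) P ((μ i).prod (μ i)) := fun i =>
    measurePreserving_eval _ i
  have hb : ∀ i, ∀ᵐ p ∂P, |Y i p| ≤ 2 * R i := fun i =>
    (hmp i).quasiMeasurePreserving.ae (hb2 i)
  have hcgf : ∀ i l, cgf (Y i) P l = cgf (zst s) ((μ i).prod (μ i)) l := by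
    intro i l
    unfold cgf
    congr 1
    rw [← (hmp i).map_eq, mgf_map (hmp i).measurable.aemeasurable]
    · rfl
    · refine Measurable.aestronglyMeasurable ?_
      exact Real.measurable_exp.comp ((hzm i).const_mul _)
  set W := -(n / 2 * Real.log (1 - a ^ 2)) with hW
  have hW0 : 0 ≤ W := by
    have : Real.log (1 - a ^ 2) ≤ 0 := Real.log_nonpos ha2.le (by nlinarith)
    rw [hW]
    nlinarith
  have hρ : (∑ i, (2 * R i) ^ 2) = 4 * ∑ i, R i ^ 2 := by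
    rw [Finset.mul_sum]
    refine Finset.sum_congr rfl fun i _ => ?_
    ring
  have htail := tail hind hYm (fun i => 2 * R i) hb (s := 0) (ε := ε * v) (W := W)
    (ρ := ∑ i, (2 * R i) ^ 2) (by positivity) rfl (by rw [hρ]; positivity) hW0 (by
      intro l hl
      have h1 : ∀ i, l * (a - s) * ∫ x, ‖x‖ ^ 2 ∂(μ i) + (k i : ℝ) / 2 * Real.log (1 - a ^ 2) ≤
          cgf (Y i) P l := by
        intro i
        rw [hcgf]
        have := cgf_zst (μ i) (hR i) hl ha0 hε1 (show s ≤ a by linarith)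
        rwa [finrank_euclideanSpace, Fintype.card_fin] at this
      have h2 := Finset.sum_le_sum fun i (_ : i ∈ Finset.univ) => h1 i
      refine le_trans (le_of_eq ?_) h2
      rw [Finset.sum_add_distrib, ← Finset.mul_sum, ← hv, ← Finset.sum_mul, ← Finset.sum_div, hW,
        hn, ha]
      push_cast
      ring)
  have e1 : (1 - a ^ 2) ^ (n / 2) = rexp (-W) := by
    rw [Real.rpow_def_of_pos ha2, hW]
    congr 1
    ring
  have e2 : (ε * v) ^ 2 / (2 * ∑ i, (2 * R i) ^ 2) = ε ^ 2 * v ^ 2 / (8 * ∑ i, R i ^ 2) := by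
    rw [hρ]
    congr 1
    · ring
    · ring
  rw [e2] at htail
  rw [e1]
  refine htail.trans ?_
  refine measureReal_mono ?_
  intro p hp
  exact small_of hs0 p hp

/-- The asymptotic form. -/
theorem blocks_asymp (θ δ : ℝ) (hθ0 : 0 < θ) (hθ1 : θ < π / 2) (hδ : 0 < δ) :
    ∃ ρ : ℝ, 0 < ρ ∧ ∀ (ι : Type) [Fintype ι] (k : ι → ℕ)
      (μ : ∀ i, Measure (EuclideanSpace ℝ (Fin (k i)))) [∀ i, IsProbabilityMeasure (μ i)]
      (R : ι → ℝ), (∀ i, ∀ᵐ x ∂(μ i), ‖x‖ ^ 2 ≤ R i) → 0 < ∑ i, ∫ x, ‖x‖ ^ 2 ∂(μ i) →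
      ∑ i, R i ^ 2 ≤ ρ * (∑ i, ∫ x, ‖x‖ ^ 2 ∂(μ i)) ^ 2 →
      Real.sin θ ^ ((1 + δ) * ((∑ i, k i : ℕ) : ℝ)) ≤
        (pairLaw k μ).real {p | SmallAngle θ p} := by
  set s := Real.cos θ with hs
  have hs0 : 0 < s := Real.cos_pos_of_mem_Ioo ⟨by linarith, hθ1⟩
  have hsin0 : 0 < Real.sin θ := Real.sin_pos_of_pos_of_lt_pi hθ0 (by linarith [Real.pi_pos])
  have hsin1 : Real.sin θ < 1 := by
    nlinarith [Real.sin_sq_add_cos_sq θ, Real.sin_le_one θ]
  have hlog : Real.log (Real.sin θ) < 0 := Real.log_neg hsin0 hsin1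
  set t := √(1 - Real.sin θ ^ (2 * (1 + δ / 2))) with ht
  have hpow1 : Real.sin θ ^ (2 * (1 + δ / 2)) < Real.sin θ ^ (2 : ℝ) :=
    Real.rpow_lt_rpow_of_exponent_gt hsin0 hsin1 (by linarith)
  have hpow0 : 0 < Real.sin θ ^ (2 * (1 + δ / 2)) := Real.rpow_pos_of_pos hsin0 _
  have hsin2 : Real.sin θ ^ (2 : ℝ) = 1 - s ^ 2 := by
    rw [Real.rpow_two]
    have := Real.sin_sq_add_cos_sq θ
    rw [hs]
    linarith
  have ht2 : t ^ 2 = 1 - Real.sin θ ^ (2 * (1 + δ / 2)) := by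
    rw [ht, Real.sq_sqrt]
    nlinarith
  have ht0 : 0 ≤ t := Real.sqrt_nonneg _
  have hst : s < t := by
    rw [ht]
    apply Real.lt_sqrt_of_sq_lt
    linarith
  have ht1 : t < 1 := by nlinarith
  set ε := (t - s) / 2 with hε
  have hε0 : 0 < ε := by rw [hε]; linarith
  -- conditions on ρ
  set ρ := min (ε ^ 2 / (8 * Real.log 4)) (δ / 2 * (-Real.log (Real.sin θ)) / Real.log 2) with hρ
  have hl4 : 0 < Real.log 4 := Real.log_pos (by norm_num)
  have hl2 : 0 < Real.log 2 := Real.log_pos (by norm_num)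
  have hρ0 : 0 < ρ := by
    refine lt_min (by positivity) ?_
    have : 0 < -Real.log (Real.sin θ) := by linarith
    positivity
  refine ⟨ρ, hρ0, ?_⟩
  intro ι _ k μ _ R hR hv0 hle
  set v := ∑ i, ∫ x, ‖x‖ ^ 2 ∂(μ i) with hv
  set n : ℝ := ((∑ i, k i : ℕ) : ℝ) with hn
  have hb := blocks k μ R hR v hv hv0 θ ε hθ0.le hθ1.le hε0 (by rw [← hs, hε]; linarith)
  rw [← hs] at hb
  have hte : s + 2 * ε = t := by rw [hε]; ring
  rw [hte] at hb
  refine le_trans ?_ hb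
  -- the second moments
  have hint : ∀ i, Integrable (fun x : EuclideanSpace ℝ (Fin (k i)) => ‖x‖ ^ 2) (μ i) := by
    intro i
    refine Integrable.of_bound (Continuous.aestronglyMeasurable (by fun_prop)) (R i) ?_
    filter_upwards [hR i] with x hx
    rw [Real.norm_eq_abs, abs_of_nonneg (by positivity)]
    exact hx
  have hvR : ∀ i, ∫ x, ‖x‖ ^ 2 ∂(μ i) ≤ R i := by
    intro i
    have := integral_mono_ae (hint i) (integrable_const (R i)) (hR i)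
    simpa using this
  have hv0i : ∀ i, 0 ≤ ∫ x, ‖x‖ ^ 2 ∂(μ i) := fun i => integral_nonneg fun _ => sq_nonneg _
  -- v² ≤ n ∑ R²
  have hvi : ∀ i, ∫ x, ‖x‖ ^ 2 ∂(μ i) ≤ √(k i : ℝ) * R i := by
    intro i
    rcases Nat.eq_zero_or_pos (k i) with h0 | h0
    · have : ∀ x : EuclideanSpace ℝ (Fin (k i)), ‖x‖ ^ 2 = 0 := by
        intro x
        have : IsEmpty (Fin (k i)) := by rw [h0]; infer_instance
        have hx : x = 0 := Subsingleton.elim _ _
        rw [hx]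
        simp
      simp_rw [this]
      have hk0 : ((k i : ℕ) : ℝ) = 0 := by exact_mod_cast h0
      rw [hk0]
      simp
    · have h1 : (1 : ℝ) ≤ √(k i : ℝ) := by
        rw [Real.one_le_sqrt]
        exact_mod_cast h0
      have h2 := hvR i
      have h3 := hv0i i
      nlinarith
  have hCS : v ^ 2 ≤ n * ∑ i, R i ^ 2 := by
    have h1 : v ≤ ∑ i, √(k i : ℝ) * R i := Finset.sum_le_sum fun i _ => hvi i
    have h2 := Finset.sum_mul_sq_le_sq_mul_sq Finset.univ (fun i => √(k i : ℝ)) R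
    have h3 : ∑ i, √(k i : ℝ) ^ 2 = n := by
      rw [hn]
      push_cast
      refine Finset.sum_congr rfl fun i _ => ?_
      rw [Real.sq_sqrt (Nat.cast_nonneg _)]
    rw [h3] at h2
    calc v ^ 2 ≤ (∑ i, √(k i : ℝ) * R i) ^ 2 := by gcongr
      _ ≤ _ := h2
  have hR2 : 0 < ∑ i, R i ^ 2 := by
    have hn0 : 0 ≤ n := Nat.cast_nonneg _
    by_contra hcon
    have : ∑ i, R i ^ 2 ≤ 0 := not_lt.1 hcon
    have h4 : 0 < v ^ 2 := by positivity
    nlinarith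
  have hnρ : 1 ≤ n * ρ := by
    have hn0 : 0 ≤ n := Nat.cast_nonneg _
    have h4 : 0 < v ^ 2 := by positivity
    have h5 : v ^ 2 ≤ n * (ρ * v ^ 2) := hCS.trans (by gcongr)
    nlinarith
  -- first factor
  have hf1 : 1 / 2 ≤ 1 - 2 * rexp (-(ε ^ 2 * v ^ 2 / (8 * ∑ i, R i ^ 2))) := by
    have h1 : Real.log 4 ≤ ε ^ 2 * v ^ 2 / (8 * ∑ i, R i ^ 2) := by
      rw [le_div_iff₀ (by positivity)]
      have h2 : ∑ i, R i ^ 2 ≤ ε ^ 2 / (8 * Real.log 4) * v ^ 2 :=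
        hle.trans (by gcongr; exact min_le_left _ _)
      calc Real.log 4 * (8 * ∑ i, R i ^ 2) ≤
          Real.log 4 * (8 * (ε ^ 2 / (8 * Real.log 4) * v ^ 2)) := by gcongr
        _ = ε ^ 2 * v ^ 2 := by field_simp
    have h3 : rexp (-(ε ^ 2 * v ^ 2 / (8 * ∑ i, R i ^ 2))) ≤ 1 / 4 := by
      rw [← Real.exp_log (show (0 : ℝ) < 1 / 4 by norm_num)]
      apply Real.exp_le_exp.2
      rw [one_div, Real.log_inv]
      linarith
    linarith
  have hf2 : (1 - t ^ 2) ^ (n / 2) = Real.sin θ ^ ((1 + δ / 2) * n) := by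
    rw [ht2, sub_sub_cancel, ← Real.rpow_mul hsin0.le]
    congr 1
    ring
  have hf3 : Real.sin θ ^ (δ / 2 * n) ≤ 1 / 2 := by
    rw [Real.rpow_def_of_pos hsin0, ← Real.exp_log (show (0 : ℝ) < 1 / 2 by norm_num)]
    apply Real.exp_le_exp.2
    rw [one_div, Real.log_inv]
    have h2 : ρ * Real.log 2 ≤ δ / 2 * (-Real.log (Real.sin θ)) := by
      have := min_le_right (ε ^ 2 / (8 * Real.log 4)) (δ / 2 * (-Real.log (Real.sin θ)) / Real.log 2)
      rw [← hρ, le_div_iff₀ hl2] at this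
      exact this
    have hn0 : 0 ≤ n := Nat.cast_nonneg _
    have h3 := mul_le_mul_of_nonneg_left h2 hn0
    have h4 := le_mul_of_one_le_left hl2.le hnρ
    have e3 : Real.log (Real.sin θ) * (δ / 2 * n) = -(n * (δ / 2 * (-Real.log (Real.sin θ)))) := by
      ring
    have e4 : n * ρ * Real.log 2 = n * (ρ * Real.log 2) := by ring
    rw [e3]
    rw [e4] at h4
    exact neg_le_neg (h4.trans h3)
  rw [hf2]
  calc Real.sin θ ^ ((1 + δ) * n) = Real.sin θ ^ (δ / 2 * n) * Real.sin θ ^ ((1 + δ / 2) * n) := by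
        rw [← Real.rpow_add hsin0]
        congr 1
        ring
    _ ≤ 1 / 2 * Real.sin θ ^ ((1 + δ / 2) * n) := by
        gcongr
    _ ≤ _ := by gcongr

end Pool.Agent.P8H92.KB
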