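import Pool.Agent.P8H92.KB.Stm

/-!
# Project KB, second part (hard row MP_b5f63d_co): one theorem for independent blocks of arbitrary
laws AND arbitrary sets of words that are not exponentially small
-/

set_option autoImplicit false

open Real MeasureTheory

namespace Pool.Agent.P8H92.KB

/-- The second moment of the random vector with independent blocks `x i`, of finite laws `ν i`. -/
noncomputable def vB {ι : Type} [Fintype ι] {k : ι → ℕ} {A : ι → Type} [∀ i, Fintype (A i)]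
    (x : ∀ i, A i → EuclideanSpace ℝ (Fin (k i))) (ν : ∀ i, A i → ℝ) : ℝ :=
  ∑ i, ∑ a, ν i a * ‖x i a‖ ^ 2

/-- **MINB** (150 lines; the version of `S_MIN` for many blocks with a common `l`; adapt
`Pool/Agent/P8H55/KB/Min.lean`; deliver `theorem minB (h : S_KER) : S_MINB`).

Proof. `Z i f l = ∑_{a,b} cpl (x i) (ν i) l f a b`,
`Φ(f,l) = ∑_i (Z i (f i) l - 2 ∑_a ν i a f i a) - l s v` for ALL `f : ∀ i, A i → ℝ` and `l ≥ 0` (no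
logarithm, no normalisation).
(a) As in `star` of Min.lean (its `h6`), `Z i ≥ exp (2 ∑ ν f + l t v_i + (k_i/2) log (1-t²))
≥ 1 + (2 ∑ ν f + l t v_i + (k_i/2) log (1-t²))` (`Real.add_one_le_exp`), so
`Φ(f,l) ≥ card ι + l (t - s) v + (n/2) log (1-t²)` (*), `n = ∑ k i`, for `0 ≤ t < 1`.
(b) `Φ(0,0) = card ι`. If `Φ(f,l) ≤ card ι`, `l ≥ 0`, then `l ≤ Λ` by (*) with `t = (1+s)/2`.
(c) `Z i ≥ ∑_a (ν i a)² exp (2 f i a)` (diagonal terms), and `y² exp (2 F) - 2 y F ≥ 2 y |F| - 2` for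
`y ≥ 0`: for `F ≤ 0` clear, for `F ≥ 0`: `exp (2F) ≥ 2 F²` and `2 (y F)² - 2 y F ≥ 2 y F - 2`. So
`Φ ≤ card ι` gives `2 ν i a |f i a| ≤ card ι + 2 ∑_i card (A i) + Λ s v` for all `i, a`: a compact box
(`isCompact_Icc` on `(∀ i, A i → ℝ) × ℝ`), and `Φ` has a minimum `(f,l)` over all `f` and `l ≥ 0`.
(d) Derivative in the direction of one letter `(i,a)`: `2 ∑_b cpl a b - 2 ν i a = 0`: the marginals.
(e) Derivative in the direction of `l`: `E - s v ≥ 0` and `l (E - s v) = 0`,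
`E = ∑_i ∑ ∑ cpl * inner`.
(f) So `∑ Z i = card ι`, `∑ ∑ ∑ cpl (l inner + f + f) = l E + 2 ∑ ν f = l s v + 2 ∑ ν f =
card ι - Φ(f,l) ≤ -(n/2) log (1-s²)` by (*) with `t = s`; and `card ι = Φ(0,0) ≥ Φ(f,l)` with (*) gives
the last statement. -/
def S_MINB : Prop := ∀ (ι : Type) [Fintype ι] (k : ι → ℕ) (A : ι → Type) [∀ i, Fintype (A i)]
    (x : ∀ i, A i → EuclideanSpace ℝ (Fin (k i))) (ν : ∀ i, A i → ℝ),
    (∀ i a, 0 < ν i a) → (∀ i, ∑ a, ν i a = 1) → 0 < vB x ν →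
    ∀ s : ℝ, 0 ≤ s → s < 1 → ∃ (l : ℝ) (f : ∀ i, A i → ℝ), 0 ≤ l ∧
      (∀ i a, ∑ b, cpl (x i) (ν i) l (f i) a b = ν i a) ∧
      s * vB x ν ≤ ∑ i, ∑ a, ∑ b, cpl (x i) (ν i) l (f i) a b * inner ℝ (x i a) (x i b) ∧
      ∑ i, ∑ a, ∑ b, cpl (x i) (ν i) l (f i) a b *
          (l * inner ℝ (x i a) (x i b) + f i a + f i b) ≤
        -(((∑ i, k i : ℕ) : ℝ) / 2 * Real.log (1 - s ^ 2)) ∧
      ∀ t : ℝ, s < t → t < 1 →
        l * ((t - s) * vB x ν) ≤ -(((∑ i, k i : ℕ) : ℝ) / 2 * Real.log (1 - t ^ 2))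

/-- **BND** (50 lines; deliver `theorem bnd : S_BND`). The density of the coupling is bounded.
Proof. `G = ∑ ν b exp (f b)`. `|l inner| ≤ l R`, so the marginal condition divided by `ν a` gives
`exp (-l R) ≤ exp (f a) G ≤ exp (l R)`; the mean over `a` gives `exp (-l R) ≤ G² ≤ exp (l R)`; so
`|f a + log G| ≤ l R` and `|log G| ≤ l R / 2`, `|f a| ≤ 3 l R / 2`, and the sum is at most
`l R + 3 l R`. -/
def S_BND : Prop := ∀ (k : ℕ) (A : Type) [Fintype A] (x : A → EuclideanSpace ℝ (Fin k)) (ν : A → ℝ)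
    (l R : ℝ) (f : A → ℝ), (∀ a, 0 < ν a) → ∑ a, ν a = 1 → 0 ≤ l → (∀ a, ‖x a‖ ^ 2 ≤ R) →
    (∀ a, ∑ b, cpl x ν l f a b = ν a) →
    ∀ a b, |l * inner ℝ (x a) (x b) + f a + f b| ≤ 4 * (l * R)

/-- **HOE** (70 lines; deliver `theorem hoe : S_HOE`). Hoeffding for finite product laws.
Proof. `u i j = y i j - ∑ p i y i` has mean `0` and `|u| ≤ 2 r i`. For `h ≥ 0`, by convexity (chord)
`exp (-h u) ≤ cosh (2 h r) - (u / (2 r)) sinh (2 h r)` for `r > 0` (for `r = 0`: `u = 0`), so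
`∑ p exp (-h u) ≤ cosh (2 h r) ≤ exp (2 h² r²)` (`Real.cosh_le_exp_half_sq`). So the sum is at most
`exp (-h t) ∏_i ∑_j p i j exp (-h u i j) ≤ exp (-h t + 2 h² ∑ r²)` (`Finset.prod_univ_sum`,
`Fintype.piFinset_univ`), and `h = t / (4 ∑ r²)`. -/
def S_HOE : Prop := ∀ (ι : Type) [Fintype ι] [DecidableEq ι] (J : ι → Type) [∀ i, Fintype (J i)]
    (p y : ∀ i, J i → ℝ) (r : ι → ℝ), (∀ i j, 0 ≤ p i j) → (∀ i, ∑ j, p i j = 1) →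
    (∀ i j, |y i j| ≤ r i) → 0 < ∑ i, r i ^ 2 → ∀ t : ℝ, 0 < t →
    ∑ w : (∀ i, J i), (if ∑ i, y i (w i) ≤ (∑ i, ∑ j, p i j * y i j) - t
      then ∏ i, p i (w i) else 0) ≤ rexp (-(t ^ 2 / (8 * ∑ i, r i ^ 2)))

/-- **QUA** (80 lines; deliver `theorem qua : S_QUA`). Quantisation of a bounded law.
Proof. `R ≥ 0`; the closed ball `B` of radius `√R` is compact: finitely many centres `e_0, …, e_N` in `B`
with `B ⊆ ⋃ ball (e_j) η` (`IsCompact.finite_cover_balls`); `q₀ y` = the first `j` with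
`dist y (e_j) < η` (or `0`), with measurable fibres; `A` = the subtype of the `j` whose fibre has
positive measure (nonempty), `q y = q₀ y` if this is in `A`, a default letter of `A` else; the fibres of
`q₀` of measure zero are finitely many. (Or take `A` as a subtype of a `Finset` of centres.) -/
def S_QUA : Prop := ∀ (k : ℕ) (μ : Measure (EuclideanSpace ℝ (Fin k))) [IsProbabilityMeasure μ]
    (R η : ℝ), (∀ᵐ y ∂μ, ‖y‖ ^ 2 ≤ R) → 0 < η →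
    ∃ (A : Type) (_ : Fintype A) (x : A → EuclideanSpace ℝ (Fin k))
      (q : EuclideanSpace ℝ (Fin k) → A),
      (∀ a, MeasurableSet (q ⁻¹' {a})) ∧ (∀ a, 0 < μ.real (q ⁻¹' {a})) ∧ (∀ a, ‖x a‖ ^ 2 ≤ R) ∧
      ∀ᵐ y ∂μ, ‖y - x (q y)‖ ≤ η

/-- The discrete theorem (helper92). -/
def S_DIS : Prop := ∀ θ δ : ℝ, 0 < θ → θ < π / 2 → 0 < δ → ∃ ρ ε : ℝ, 0 < ρ ∧ 0 < ε ∧
    ∀ (ι : Type) [Fintype ι] [DecidableEq ι] (k : ι → ℕ) (A : ι → Type) [∀ i, Fintype (A i)]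
    (x : ∀ i, A i → EuclideanSpace ℝ (Fin (k i))) (ν : ∀ i, A i → ℝ) (R : ι → ℝ),
    (∀ i a, 0 < ν i a) → (∀ i, ∑ a, ν i a = 1) → (∀ i a, ‖x i a‖ ^ 2 ≤ R i) → 0 < vB x ν →
    ∑ i, R i ^ 2 ≤ ρ * vB x ν ^ 2 → ∀ d : (∀ i, A i) → ℝ, (∀ u, 0 ≤ d u) → (∀ u, d u ≤ 1) →
    rexp (-(ρ * (vB x ν ^ 2 / ∑ i, R i ^ 2))) ≤ ∑ u, (∏ i, ν i (u i)) * d u →
    Real.sin θ ^ ((1 + δ) * ((∑ i, k i : ℕ) : ℝ)) ≤
      ∑ u, ∑ w, (if ε * vB x ν < ∑ i, (inner ℝ (x i (u i)) (x i (w i)) -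
          Real.cos θ * (‖x i (u i)‖ ^ 2 + ‖x i (w i)‖ ^ 2) / 2)
        then (∏ i, ν i (u i)) * (∏ i, ν i (w i)) * (d u * d w) else 0)

/-- The angle of `x = (x_i)` and `y = (y_i)` is less than `θ`. -/
def SmallAng {ι : Type} [Fintype ι] {k : ι → ℕ} (θ : ℝ)
    (x y : ∀ i, EuclideanSpace ℝ (Fin (k i))) : Prop :=
  Real.cos θ * (√(∑ i, ‖x i‖ ^ 2) * √(∑ i, ‖y i‖ ^ 2)) < ∑ i, inner ℝ (x i) (y i)

/-- **TRN** (150 lines; deliver `theorem trn (hd : S_DIS) (hq : S_QUA) : S_FIN`). From finite laws to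
all laws.
Proof. `ρ' = ρ / 4` with the `ρ`, `ε` of `S_DIS`. Given `μ`, `R`, `D`, `v = ∑ ∫ ‖y‖² ∂μ i > 0`,
`S = ∑ √(R i)` (`R i ≥ 0`; `S > 0`), let `η > 0` be small: `16 η (1 + S) ≤ min ε 1 * v` and `η ≤ 1`.
`S_QUA` for every `i` (`choose`): `A i`, `x i`, `q i`; `ν i a = (μ i).real (q i ⁻¹' {a})`, of sum 1.
`v' = vB x ν = ∑ ∫ ‖x (q y)‖² ∂μ i`, `|‖x (q y)‖² - ‖y‖²| ≤ 2 √(R i) η` a.e., so `v/2 ≤ v' ` .
`Q u = {y | ∀ i, q i (y i) = u i}`, a box of measure `∏ ν i (u i) > 0` (`Measure.pi_pi`),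
`d u = P(D ∩ Q u) / P(Q u)`, `P = Measure.pi μ`: `∑ (∏ ν) d = P(D)`, and the hypotheses of `S_DIS` are
true. Conclusion: the rectangles `(D ∩ Q u) × (D ∩ Q w)` are disjoint of measure
`(∏ ν)(∏ ν) d u d w`, and if `ε v' < ∑ (inner (x u) (x w) - cos θ (‖x u‖² + ‖x w‖²)/2)` then almost
all `(y, z)` in the rectangle have `∑ (inner y z - cos θ (‖y‖² + ‖z‖²)/2) > ε v' - 4 η S > 0`
(`|inner y z - inner (x u) (x w)| ≤ 2 √(R i) η`), so `SmallAng` since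
`√a √b ≤ (a + b)/2`. -/
def S_FIN : Prop := ∀ θ δ : ℝ, 0 < θ → θ < π / 2 → 0 < δ → ∃ ρ : ℝ, 0 < ρ ∧
    ∀ (ι : Type) [Fintype ι] (k : ι → ℕ) (μ : ∀ i, Measure (EuclideanSpace ℝ (Fin (k i))))
      [∀ i, IsProbabilityMeasure (μ i)] (R : ι → ℝ), (∀ i, ∀ᵐ y ∂(μ i), ‖y‖ ^ 2 ≤ R i) →
      0 < ∑ i, ∫ y, ‖y‖ ^ 2 ∂(μ i) →
      ∑ i, R i ^ 2 ≤ ρ * (∑ i, ∫ y, ‖y‖ ^ 2 ∂(μ i)) ^ 2 →
      ∀ D : Set (∀ i, EuclideanSpace ℝ (Fin (k i))), MeasurableSet D →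
      rexp (-(ρ * ((∑ i, ∫ y, ‖y‖ ^ 2 ∂(μ i)) ^ 2 / ∑ i, R i ^ 2))) ≤ (Measure.pi μ).real D →
      Real.sin θ ^ ((1 + δ) * ((∑ i, k i : ℕ) : ℝ)) ≤
        ((Measure.pi μ).prod (Measure.pi μ)).real
          {p | p.1 ∈ D ∧ p.2 ∈ D ∧ SmallAng θ p.1 p.2}

end Pool.Agent.P8H92.KB
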