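import Pool.Agent.P8H92.KB.Ker2
import Pool.Agent.P8H92.KB.Stm2

/-!
# Words with independent letters from different alphabets
-/

set_option autoImplicit false
set_option linter.unusedSectionVars false

open Real Finset

namespace Pool.Agent.P8H92.KB

variable {ι : Type} [Fintype ι] [DecidableEq ι] {k : ι → ℕ} {A : ι → Type} [∀ i, Fintype (A i)]

/-- the vector of a word -/
noncomputable def vecB (x : ∀ i, A i → EuclideanSpace ℝ (Fin (k i))) (u : ∀ i, A i) :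
    EuclideanSpace ℝ (Σ i, Fin (k i)) := WithLp.toLp 2 fun p => x p.1 (u p.1) p.2

theorem inner_vecB (x : ∀ i, A i → EuclideanSpace ℝ (Fin (k i))) (u w : ∀ i, A i) :
    inner ℝ (vecB x u) (vecB x w) = ∑ i, inner ℝ (x i (u i)) (x i (w i)) := by
  rw [PiLp.inner_apply, Fintype.sum_sigma]
  refine Finset.sum_congr rfl fun i _ => ?_
  rw [PiLp.inner_apply]
  rfl

/-- sums over pairs of words -/
theorem sum_pairsB {M : Type*} [AddCommMonoid M] (F : (∀ i, A i) → (∀ i, A i) → M) :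
    ∑ u, ∑ w, F u w = ∑ p : (∀ i, A i × A i), F (fun i => (p i).1) (fun i => (p i).2) := by
  rw [← Fintype.sum_prod_type']
  exact Fintype.sum_equiv
    ⟨fun p i => (p.1 i, p.2 i), fun q => (fun i => (q i).1, fun i => (q i).2),
      fun _ => rfl, fun _ => rfl⟩ _ _ (fun p => rfl)

/-- the coupling of words -/
noncomputable def CpB (x : ∀ i, A i → EuclideanSpace ℝ (Fin (k i))) (ν : ∀ i, A i → ℝ) (l : ℝ)
    (f : ∀ i, A i → ℝ) (u w : ∀ i, A i) : ℝ := ∏ i, cpl (x i) (ν i) l (f i) (u i) (w i)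

theorem CpB_eq (x : ∀ i, A i → EuclideanSpace ℝ (Fin (k i))) (ν : ∀ i, A i → ℝ) (l : ℝ)
    (f : ∀ i, A i → ℝ) (u w : ∀ i, A i) : CpB x ν l f u w =
      ((∏ i, ν i (u i)) * rexp (∑ i, f i (u i))) * ((∏ i, ν i (w i)) * rexp (∑ i, f i (w i))) *
        rexp (l * inner ℝ (vecB x u) (vecB x w)) := by
  rw [inner_vecB]
  unfold CpB cpl
  rw [Real.exp_sum, Real.exp_sum, Finset.mul_sum, Real.exp_sum, ← Finset.prod_mul_distrib,
    ← Finset.prod_mul_distrib, ← Finset.prod_mul_distrib, ← Finset.prod_mul_distrib]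
  refine Finset.prod_congr rfl fun i _ => ?_
  rw [Real.exp_add, Real.exp_add]
  ring

theorem CpB_eq' (x : ∀ i, A i → EuclideanSpace ℝ (Fin (k i))) (ν : ∀ i, A i → ℝ) (l : ℝ)
    (f : ∀ i, A i → ℝ) (u w : ∀ i, A i) : CpB x ν l f u w =
      (∏ i, ν i (u i)) * (∏ i, ν i (w i)) *
        rexp (∑ i, (l * inner ℝ (x i (u i)) (x i (w i)) + f i (u i) + f i (w i))) := by
  unfold CpB cpl
  rw [Real.exp_sum, ← Finset.prod_mul_distrib, ← Finset.prod_mul_distrib]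

theorem CpB_marg {x : ∀ i, A i → EuclideanSpace ℝ (Fin (k i))} {ν : ∀ i, A i → ℝ} {l : ℝ}
    {f : ∀ i, A i → ℝ} (h : ∀ i a, ∑ b, cpl (x i) (ν i) l (f i) a b = ν i a) (u : ∀ i, A i) :
    ∑ w, CpB x ν l f u w = ∏ i, ν i (u i) := by
  unfold CpB
  rw [← Fintype.piFinset_univ, ← Finset.prod_univ_sum]
  exact Finset.prod_congr rfl fun i _ => h i (u i)

theorem wtB_sum {ν : ∀ i, A i → ℝ} (h : ∀ i, ∑ a, ν i a = 1) :
    ∑ u : (∀ i, A i), ∏ i, ν i (u i) = 1 := by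
  rw [← Fintype.piFinset_univ, ← Finset.prod_univ_sum]
  simp [h]

/-- The coupling of a weighted set of words with itself. -/
theorem CpB_set {x : ∀ i, A i → EuclideanSpace ℝ (Fin (k i))} {ν : ∀ i, A i → ℝ}
    (hν : ∀ i a, 0 < ν i a) (h1 : ∀ i, ∑ a, ν i a = 1) {l : ℝ} (hl : 0 ≤ l) {f : ∀ i, A i → ℝ}
    (h : ∀ i a, ∑ b, cpl (x i) (ν i) l (f i) a b = ν i a) (d : (∀ i, A i) → ℝ)
    (hd : ∀ u, 0 ≤ d u) :
    (∑ u, (∏ i, ν i (u i)) * d u) ^ 2 ≤ ∑ u, ∑ w, CpB x ν l f u w * (d u * d w) := by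
  set c : (∀ i, A i) → ℝ := fun u => (∏ i, ν i (u i)) * rexp (∑ i, f i (u i)) with hc
  have hc0 : ∀ u, 0 ≤ c u := fun u =>
    mul_nonneg (Finset.prod_nonneg fun i _ => (hν _ _).le) (Real.exp_pos _).le
  have key := csV (V := EuclideanSpace ℝ (Σ i, Fin (k i))) (vecB x) (fun u => c u * d u) c
    (fun u => mul_nonneg (hc0 u) (hd u)) hc0 l hl
  have hcc : ∀ u w, c u * c w * rexp (l * inner ℝ (vecB x u) (vecB x w)) = CpB x ν l f u w :=
    fun u w => (CpB_eq x ν l f u w).symm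
  have e1 : ∑ u, ∑ w, c u * d u * c w * rexp (l * inner ℝ (vecB x u) (vecB x w)) =
      ∑ u, (∏ i, ν i (u i)) * d u := by
    refine Finset.sum_congr rfl fun u _ => ?_
    rw [← CpB_marg h u, Finset.sum_mul]
    refine Finset.sum_congr rfl fun w _ => ?_
    rw [← hcc]
    ring
  have e3 : ∑ u, ∑ w, c u * c w * rexp (l * inner ℝ (vecB x u) (vecB x w)) = 1 := by
    rw [← wtB_sum h1]
    refine Finset.sum_congr rfl fun u _ => ?_
    rw [← CpB_marg h u]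
    exact Finset.sum_congr rfl fun w _ => hcc u w
  have e4 : ∑ u, ∑ w, c u * d u * (c w * d w) * rexp (l * inner ℝ (vecB x u) (vecB x w)) =
      ∑ u, ∑ w, CpB x ν l f u w * (d u * d w) := by
    refine Finset.sum_congr rfl fun u _ => Finset.sum_congr rfl fun w _ => ?_
    rw [← hcc]
    ring
  rw [e1, e3, e4, mul_one] at key
  exact key

/-- The probability, under the coupling, that a sum is much smaller than its mean. -/
theorem CpB_hoe (hhoe : S_HOE) {x : ∀ i, A i → EuclideanSpace ℝ (Fin (k i))} {ν : ∀ i, A i → ℝ}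
    (hν : ∀ i a, 0 < ν i a) (h1 : ∀ i, ∑ a, ν i a = 1) {l : ℝ} {f : ∀ i, A i → ℝ}
    (h : ∀ i a, ∑ b, cpl (x i) (ν i) l (f i) a b = ν i a) (d : (∀ i, A i) → ℝ)
    (hd : ∀ u, 0 ≤ d u) (hd1 : ∀ u, d u ≤ 1) (y : ∀ i, A i → A i → ℝ) (r : ι → ℝ)
    (hy : ∀ i a b, |y i a b| ≤ r i) (hr : 0 < ∑ i, r i ^ 2) (t : ℝ) (ht : 0 < t) :
    ∑ u, ∑ w, (if ∑ i, y i (u i) (w i) ≤ (∑ i, ∑ a, ∑ b, cpl (x i) (ν i) l (f i) a b * y i a b) - t
      then CpB x ν l f u w * (d u * d w) else 0) ≤ rexp (-(t ^ 2 / (8 * ∑ i, r i ^ 2))) := by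
  have hcp : ∀ i a b, 0 ≤ cpl (x i) (ν i) l (f i) a b := fun i a b =>
    mul_nonneg (mul_nonneg (hν i a).le (hν i b).le) (Real.exp_pos _).le
  have hC0 : ∀ u w, 0 ≤ CpB x ν l f u w := fun u w => Finset.prod_nonneg fun i _ => hcp _ _ _
  have key := hhoe ι (fun i => A i × A i) (fun i p => cpl (x i) (ν i) l (f i) p.1 p.2)
    (fun i p => y i p.1 p.2) r (fun i p => hcp _ _ _)
    (fun i => by rw [Fintype.sum_prod_type]; simp only; simp_rw [h]; exact h1 i)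
    (fun i p => hy _ _ _) hr t ht
  have e : (∑ i, ∑ j : A i × A i, cpl (x i) (ν i) l (f i) j.1 j.2 * y i j.1 j.2) =
      ∑ i, ∑ a, ∑ b, cpl (x i) (ν i) l (f i) a b * y i a b :=
    Finset.sum_congr rfl fun i _ => Fintype.sum_prod_type _
  simp only [e] at key
  refine le_trans ?_ key
  rw [← sum_pairsB (fun u w => if ∑ i, y i (u i) (w i) ≤
    (∑ i, ∑ a, ∑ b, cpl (x i) (ν i) l (f i) a b * y i a b) - t then
      ∏ i, cpl (x i) (ν i) l (f i) (u i) (w i) else 0)]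
  refine Finset.sum_le_sum fun u _ => Finset.sum_le_sum fun w _ => ?_
  split_ifs
  · have h2 : d u * d w ≤ 1 := mul_le_one₀ (hd1 u) (hd w) (hd1 w)
    have := mul_le_mul_of_nonneg_left h2 (hC0 u w)
    rw [mul_one] at this
    exact this
  · exact le_rfl

end Pool.Agent.P8H92.KB
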