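import Pool.Agent.P8H92.KB.Stm2

/-!
# Codes that are dense in a product of finite sets
-/

set_option autoImplicit false
set_option linter.unusedSectionVars false

open Real Finset

namespace Pool.Agent.P8H92.KB

/-- A sufficient condition for a small angle. -/
theorem smallAng_of {ι : Type} [Fintype ι] {k : ι → ℕ} {θ : ℝ} (hθ : 0 ≤ Real.cos θ)
    (x y : ∀ i, EuclideanSpace ℝ (Fin (k i)))
    (h : 0 < ∑ i, (inner ℝ (x i) (y i) - Real.cos θ * (‖x i‖ ^ 2 + ‖y i‖ ^ 2) / 2)) :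
    SmallAng θ x y := by
  unfold SmallAng
  have e1 : ∑ i, (inner ℝ (x i) (y i) - Real.cos θ * (‖x i‖ ^ 2 + ‖y i‖ ^ 2) / 2) =
      ∑ i, inner ℝ (x i) (y i) -
        Real.cos θ * ((∑ i, ‖x i‖ ^ 2 + ∑ i, ‖y i‖ ^ 2) / 2) := by
    rw [Finset.sum_sub_distrib, ← Finset.sum_add_distrib, Finset.sum_div, Finset.mul_sum]
    congr 1
    exact Finset.sum_congr rfl fun i _ => by ring
  rw [e1] at h
  have n1 : 0 ≤ ∑ i, ‖x i‖ ^ 2 := Finset.sum_nonneg fun i _ => sq_nonneg _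
  have n2 : 0 ≤ ∑ i, ‖y i‖ ^ 2 := Finset.sum_nonneg fun i _ => sq_nonneg _
  have h2 : √(∑ i, ‖x i‖ ^ 2) * √(∑ i, ‖y i‖ ^ 2) ≤ (∑ i, ‖x i‖ ^ 2 + ∑ i, ‖y i‖ ^ 2) / 2 := by
    have a1 := Real.sq_sqrt n1
    have a2 := Real.sq_sqrt n2
    nlinarith [sq_nonneg (√(∑ i, ‖x i‖ ^ 2) - √(∑ i, ‖y i‖ ^ 2))]
  have h3 := mul_le_mul_of_nonneg_left h2 hθ
  linarith

/-- codes that are dense in a product of finite sets -/
def S_COD : Prop := ∀ θ δ : ℝ, 0 < θ → θ < π / 2 → 0 < δ → ∃ ρ : ℝ, 0 < ρ ∧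
    ∀ (ι : Type) [Fintype ι] [DecidableEq ι] (k : ι → ℕ)
      (S : ∀ i, Finset (EuclideanSpace ℝ (Fin (k i)))) (R : ι → ℝ), (∀ i, (S i).Nonempty) →
      (∀ i, ∀ y ∈ S i, ‖y‖ ^ 2 ≤ R i) → 0 < ∑ i, (∑ y ∈ S i, ‖y‖ ^ 2) / (S i).card →
      ∑ i, R i ^ 2 ≤ ρ * (∑ i, (∑ y ∈ S i, ‖y‖ ^ 2) / (S i).card) ^ 2 →
      ∀ C : Finset (∀ i, EuclideanSpace ℝ (Fin (k i))), C ⊆ Fintype.piFinset S →
      (∀ x ∈ C, ∀ y ∈ C, x ≠ y → ¬ SmallAng θ x y) →
      rexp (-(ρ * ((∑ i, (∑ y ∈ S i, ‖y‖ ^ 2) / (S i).card) ^ 2 / ∑ i, R i ^ 2))) *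
        (Fintype.piFinset S).card ≤ C.card →
      (C.card : ℝ) ≤ Real.sin θ ^ (-((1 + δ) * ((∑ i, k i : ℕ) : ℝ)))

theorem cod (hd : S_DIS) : S_COD := by
  classical
  intro θ δ h0 h1 hδ
  obtain ⟨ρ, ε, hρ, hε, h⟩ := hd θ δ h0 h1 hδ
  refine ⟨ρ, hρ, ?_⟩
  intro ι _ _ k S R hne hR hv hRv C hCS hC hcard
  have hcos : 0 ≤ Real.cos θ := (Real.cos_pos_of_mem_Ioo ⟨by linarith, h1⟩).le
  have hsin0 : 0 < Real.sin θ := Real.sin_pos_of_pos_of_lt_pi h0 (by linarith [Real.pi_pos])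
  have hc0 : ∀ i, 0 < ((S i).card : ℝ) := fun i => by exact_mod_cast (hne i).card_pos
  set x : ∀ i, {y // y ∈ S i} → EuclideanSpace ℝ (Fin (k i)) := fun i a => a.1 with hx
  set ν : ∀ i, {y // y ∈ S i} → ℝ := fun i _ => ((S i).card : ℝ)⁻¹ with hν
  have hvB : vB x ν = ∑ i, (∑ y ∈ S i, ‖y‖ ^ 2) / (S i).card := by
    unfold vB
    refine Finset.sum_congr rfl fun i _ => ?_
    rw [hx, hν]
    simp only
    rw [← Finset.mul_sum, Finset.sum_coe_sort (S i) (fun y => ‖y‖ ^ 2), div_eq_inv_mul]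
  have hP : ((Fintype.piFinset S).card : ℝ) = ∏ i, ((S i).card : ℝ) := by
    rw [Fintype.card_piFinset]
    push_cast
    rfl
  have hP0 : 0 < ((Fintype.piFinset S).card : ℝ) := by
    rw [hP]
    exact Finset.prod_pos fun i _ => hc0 i
  have hprod : ∀ u : (∀ i, {y // y ∈ S i}), ∏ i, ν i (u i) =
      ((Fintype.piFinset S).card : ℝ)⁻¹ := by
    intro u
    rw [hP, ← Finset.prod_inv_distrib]
  -- words of the code
  set e : (∀ i, {y // y ∈ S i}) → (∀ i, EuclideanSpace ℝ (Fin (k i))) := fun u i => (u i).1 with he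
  have heinj : Function.Injective e := by
    intro u w huw
    funext i
    exact Subtype.ext (congrFun huw i)
  set d : (∀ i, {y // y ∈ S i}) → ℝ := fun u => if e u ∈ C then 1 else 0 with hd'
  have hd1 : ∀ u, e u ∈ C → d u = 1 := fun u hu => if_pos hu
  have hd0 : ∀ u, e u ∉ C → d u = 0 := fun u hu => if_neg hu
  have hcount : ((univ.filter fun u => e u ∈ C).card : ℝ) = C.card := by
    norm_cast
    refine Finset.card_bij (fun u _ => e u) (fun u hu => (Finset.mem_filter.1 hu).2)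
      (fun u _ w _ huw => heinj huw) (fun c hc => ?_)
    have hcS := Fintype.mem_piFinset.1 (hCS hc)
    exact ⟨fun i => ⟨c i, hcS i⟩, Finset.mem_filter.2 ⟨mem_univ _, hc⟩, rfl⟩
  have hmass : ∑ u, (∏ i, ν i (u i)) * d u = (C.card : ℝ) / (Fintype.piFinset S).card := by
    simp_rw [hprod]
    rw [← Finset.mul_sum, hd', Finset.sum_boole, hcount, div_eq_inv_mul]
  have key := h ι k (fun i => {y // y ∈ S i}) x ν R (fun i _ => inv_pos.2 (hc0 i))
    (fun i => by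
      rw [hν]
      simp only [Finset.sum_const, Finset.card_univ, Fintype.card_coe, nsmul_eq_mul]
      exact mul_inv_cancel₀ (hc0 i).ne')
    (fun i a => hR i a.1 a.2) (by rw [hvB]; exact hv) (by rw [hvB]; exact hRv) d
    (fun u => by rw [hd']; simp only; split_ifs <;> norm_num)
    (fun u => by rw [hd']; simp only; split_ifs <;> norm_num)
    (by rw [hvB, hmass, le_div_iff₀ hP0]; exact hcard)
  have hle : (∑ u, ∑ w, (if ε * vB x ν < ∑ i, (inner ℝ (x i (u i)) (x i (w i)) -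
          Real.cos θ * (‖x i (u i)‖ ^ 2 + ‖x i (w i)‖ ^ 2) / 2)
        then (∏ i, ν i (u i)) * (∏ i, ν i (w i)) * (d u * d w) else 0)) ≤
      (C.card : ℝ) * ((((Fintype.piFinset S).card : ℝ)⁻¹) * ((Fintype.piFinset S).card : ℝ)⁻¹) := by
    have hpt : ∀ u w, (if ε * vB x ν < ∑ i, (inner ℝ (x i (u i)) (x i (w i)) -
          Real.cos θ * (‖x i (u i)‖ ^ 2 + ‖x i (w i)‖ ^ 2) / 2)
        then (∏ i, ν i (u i)) * (∏ i, ν i (w i)) * (d u * d w) else 0) ≤
        if w = u then (if e u ∈ C then (((Fintype.piFinset S).card : ℝ)⁻¹) *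
          ((Fintype.piFinset S).card : ℝ)⁻¹ else 0) else 0 := by
      intro u w
      have hinv : 0 ≤ (((Fintype.piFinset S).card : ℝ)⁻¹) * ((Fintype.piFinset S).card : ℝ)⁻¹ := by
        positivity
      by_cases hg : ε * vB x ν < ∑ i, (inner ℝ (x i (u i)) (x i (w i)) -
          Real.cos θ * (‖x i (u i)‖ ^ 2 + ‖x i (w i)‖ ^ 2) / 2)
      · rw [if_pos hg, hprod u]
        by_cases huC : e u ∈ C
        · by_cases hwC : e w ∈ C
          · by_cases huw : w = u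
            · rw [if_pos huw, if_pos huC, hd1 u huC, hd1 w hwC]
              simp
            · exfalso
              refine hC (e u) huC (e w) hwC (fun hh => huw (heinj hh).symm) ?_
              refine smallAng_of hcos _ _ (lt_trans ?_ hg)
              rw [hvB]
              exact mul_pos hε hv
          · rw [hd0 w hwC, mul_zero, mul_zero]
            split_ifs
            · exact hinv
            · exact le_rfl
        · rw [hd0 u huC, zero_mul, mul_zero]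
          split_ifs <;> exact le_rfl
      · rw [if_neg hg]
        split_ifs
        · exact hinv
        · exact le_rfl
        · exact le_rfl
    refine (Finset.sum_le_sum fun u _ => Finset.sum_le_sum fun w _ => hpt u w).trans ?_
    simp only [Finset.sum_ite_eq', mem_univ, if_true]
    rw [← Finset.sum_filter, Finset.sum_const, nsmul_eq_mul, hcount]
  have h3 := key.trans hle
  have hCcard : (C.card : ℝ) ≤ (Fintype.piFinset S).card := by
    exact_mod_cast Finset.card_le_card hCS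
  have hC0 : 0 < (C.card : ℝ) := lt_of_lt_of_le (mul_pos (Real.exp_pos _) hP0) hcard
  have hs0 : 0 < Real.sin θ ^ ((1 + δ) * ((∑ i, k i : ℕ) : ℝ)) := Real.rpow_pos_of_pos hsin0 _
  have h4 : (C.card : ℝ) * ((((Fintype.piFinset S).card : ℝ)⁻¹) *
      ((Fintype.piFinset S).card : ℝ)⁻¹) ≤ (C.card : ℝ)⁻¹ := by
    have h5 : (((Fintype.piFinset S).card : ℝ)⁻¹) ≤ (C.card : ℝ)⁻¹ := inv_anti₀ hC0 hCcard
    calc (C.card : ℝ) * ((((Fintype.piFinset S).card : ℝ)⁻¹) * ((Fintype.piFinset S).card : ℝ)⁻¹)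
        ≤ (C.card : ℝ) * ((C.card : ℝ)⁻¹ * (C.card : ℝ)⁻¹) := by gcongr
      _ = (C.card : ℝ)⁻¹ := by field_simp
  have h6 := h3.trans h4
  rw [Real.rpow_neg hsin0.le]
  rw [le_inv_comm₀ hC0 hs0]
  exact h6

end Pool.Agent.P8H92.KB
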