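import Pool.Agent.P8H92.KB.BlkF

/-!
# The robust random coding barrier for independent blocks with finite laws
-/

set_option autoImplicit false
set_option linter.unusedSectionVars false

open Real Finset

namespace Pool.Agent.P8H92.KB

theorem vB_le {ι : Type} [Fintype ι] {k : ι → ℕ} {A : ι → Type} [∀ i, Fintype (A i)]
    (x : ∀ i, A i → EuclideanSpace ℝ (Fin (k i))) (ν : ∀ i, A i → ℝ) (R : ι → ℝ)
    (hν : ∀ i a, 0 < ν i a) (h1 : ∀ i, ∑ a, ν i a = 1) (hR : ∀ i a, ‖x i a‖ ^ 2 ≤ R i) :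
    vB x ν ^ 2 ≤ ((∑ i, k i : ℕ) : ℝ) * ∑ i, R i ^ 2 := by
  have hR0 : ∀ i, 0 ≤ R i := by
    intro i
    have : Nonempty (A i) := by
      by_contra hne
      rw [not_nonempty_iff] at hne
      have := h1 i
      simp at this
    exact (sq_nonneg _).trans (hR i (Classical.arbitrary _))
  have hvi : ∀ i, ∑ a, ν i a * ‖x i a‖ ^ 2 ≤ √(k i) * R i := by
    intro i
    rcases Nat.eq_zero_or_pos (k i) with h | h
    · have h2 : ∀ a, ‖x i a‖ = 0 := by
        intro a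
        have : Subsingleton (EuclideanSpace ℝ (Fin (k i))) := by rw [h]; infer_instance
        rw [Subsingleton.elim (x i a) 0, norm_zero]
      have h3 : ∑ a, ν i a * ‖x i a‖ ^ 2 = 0 := by simp [h2]
      rw [h3]
      exact mul_nonneg (Real.sqrt_nonneg _) (hR0 i)
    · have h2 : (1 : ℝ) ≤ √(k i) := by
        rw [Real.one_le_sqrt]
        exact_mod_cast h
      have h3 : ∑ a, ν i a * ‖x i a‖ ^ 2 ≤ ∑ a, ν i a * R i :=
        Finset.sum_le_sum fun a _ => mul_le_mul_of_nonneg_left (hR i a) (hν i a).le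
      rw [← Finset.sum_mul, h1, one_mul] at h3
      nlinarith [hR0 i]
  have h0 : 0 ≤ vB x ν := Finset.sum_nonneg fun i _ => Finset.sum_nonneg fun a _ =>
    mul_nonneg (hν i a).le (sq_nonneg _)
  have h2 : vB x ν ≤ ∑ i, √(k i) * R i := Finset.sum_le_sum fun i _ => hvi i
  have h3 := Finset.sum_mul_sq_le_sq_mul_sq univ (fun i => √(k i : ℝ)) R
  have h4 : ∑ i, √(k i : ℝ) ^ 2 = ((∑ i, k i : ℕ) : ℝ) := by
    push_cast
    exact Finset.sum_congr rfl fun i _ => Real.sq_sqrt (Nat.cast_nonneg _)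
  rw [h4] at h3
  exact (pow_le_pow_left₀ h0 h2 2).trans h3

set_option maxHeartbeats 2000000 in
theorem dis (hmin : S_MINB) (hbnd : S_BND) (hhoe : S_HOE) : S_DIS := by
  intro θ δ hθ0 hθ1 hδ
  obtain ⟨s, hs⟩ : ∃ s, s = Real.cos θ := ⟨_, rfl⟩
  have hs0 : 0 < s := by rw [hs]; exact Real.cos_pos_of_mem_Ioo ⟨by linarith, hθ1⟩
  have hsin0 : 0 < Real.sin θ := Real.sin_pos_of_pos_of_lt_pi hθ0 (by linarith [Real.pi_pos])
  have hsc := Real.sin_sq_add_cos_sq θ
  rw [← hs] at hsc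
  have hsin1 : Real.sin θ < 1 := by nlinarith [Real.sin_le_one θ]
  obtain ⟨L, hL⟩ : ∃ L, L = -Real.log (Real.sin θ) := ⟨_, rfl⟩
  have hL0 : 0 < L := by
    rw [hL]
    have := Real.log_neg hsin0 hsin1
    linarith
  -- the level t
  obtain ⟨t, ht⟩ : ∃ t, t = √(1 - Real.sin θ ^ (2 * (1 + δ / 3))) := ⟨_, rfl⟩
  have hpow1 : Real.sin θ ^ (2 * (1 + δ / 3)) < Real.sin θ ^ (2 : ℝ) :=
    Real.rpow_lt_rpow_of_exponent_gt hsin0 hsin1 (by linarith)
  have hpow0 : 0 < Real.sin θ ^ (2 * (1 + δ / 3)) := Real.rpow_pos_of_pos hsin0 _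
  have hsin2 : Real.sin θ ^ (2 : ℝ) = 1 - s ^ 2 := by
    rw [Real.rpow_two]
    linarith
  rw [hsin2] at hpow1
  have ht2 : t ^ 2 = 1 - Real.sin θ ^ (2 * (1 + δ / 3)) := by
    rw [ht, Real.sq_sqrt]
    have := sq_nonneg s
    linarith
  have ht0 : 0 ≤ t := by rw [ht]; exact Real.sqrt_nonneg _
  have hst : s < t := by
    rw [ht]
    apply Real.lt_sqrt_of_sq_lt
    linarith
  have ht1 : t < 1 := by nlinarith
  have hHt : ∀ n : ℝ, -(n / 2 * Real.log (1 - t ^ 2)) = (1 + δ / 3) * (n * L) := by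
    intro n
    rw [ht2, sub_sub_cancel, Real.log_rpow hsin0, hL]
    ring
  -- the second level
  obtain ⟨τ, hτ⟩ : ∃ τ, τ = (1 + t) / 2 := ⟨_, rfl⟩
  have hτt : t < τ := by rw [hτ]; linarith
  have hτ1 : τ < 1 := by rw [hτ]; linarith
  have hτ0 : 0 < τ := by linarith
  have hlogτ : Real.log (1 - τ ^ 2) < 0 := Real.log_neg (by nlinarith)
    (by have := pow_pos hτ0 2; linarith)
  obtain ⟨C, hC⟩ : ∃ C, C = -(Real.log (1 - τ ^ 2)) / (2 * (τ - t)) := ⟨_, rfl⟩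
  have hC0 : 0 < C := by
    rw [hC]
    apply div_pos
    · linarith
    · linarith
  obtain ⟨ε, hε⟩ : ∃ ε, ε = (t - s) / 2 := ⟨_, rfl⟩
  have hε0 : 0 < ε := by rw [hε]; linarith
  obtain ⟨κ, hκ⟩ : ∃ κ, κ = min (ε ^ 2 / 32) ((δ * L) ^ 2 / (1152 * C ^ 2)) := ⟨_, rfl⟩
  have hκ0 : 0 < κ := by rw [hκ]; exact lt_min (by positivity) (by positivity)
  have hκ1 : κ ≤ ε ^ 2 / 32 := by rw [hκ]; exact min_le_left _ _
  have hκ2 : κ ≤ (δ * L) ^ 2 / (1152 * C ^ 2) := by rw [hκ]; exact min_le_right _ _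
  obtain ⟨ρ, hρ⟩ : ∃ ρ, ρ = min (κ / 4) (δ * L / 12) := ⟨_, rfl⟩
  have hρ0 : 0 < ρ := by rw [hρ]; exact lt_min (by positivity) (by positivity)
  have hρ1 : ρ ≤ κ / 4 := by rw [hρ]; exact min_le_left _ _
  have hρ2 : ρ ≤ δ * L / 12 := by rw [hρ]; exact min_le_right _ _
  refine ⟨ρ, ε, hρ0, hε0, ?_⟩
  intro ι _ _ k A _ x ν R hν h1 hR hv hRv d hd0 hd1 hmass
  obtain ⟨v, hvd⟩ : ∃ v, v = vB x ν := ⟨_, rfl⟩
  obtain ⟨n, hn⟩ : ∃ n : ℝ, n = ((∑ i, k i : ℕ) : ℝ) := ⟨_, rfl⟩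
  obtain ⟨S, hS⟩ : ∃ S, S = ∑ i, R i ^ 2 := ⟨_, rfl⟩
  have hvn := vB_le x ν R hν h1 hR
  rw [← hvd, ← hn, ← hS] at hvn
  obtain ⟨l, f, hl, hmarg, hE, hH, hlt⟩ := hmin ι k A x ν hν h1 hv t ht0 ht1
  rw [← hvd] at hv hRv hmass hE
  rw [← hvd, ← hn] at hlt
  rw [← hS] at hRv hmass
  rw [← hn, hHt] at hH
  rw [← hn, ← hs, ← hvd]
  have hn0 : 0 ≤ n := by rw [hn]; exact Nat.cast_nonneg _
  have hS0' : 0 ≤ S := by rw [hS]; exact Finset.sum_nonneg fun i _ => sq_nonneg _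
  have hnS : 0 < n * S := lt_of_lt_of_le (by positivity) hvn
  have hS0 : 0 < S := by
    rcases hS0'.eq_or_lt with h | h
    · rw [← h, mul_zero] at hnS; exact absurd hnS (lt_irrefl _)
    · exact h
  have hnp : 0 < n := by
    rcases hn0.eq_or_lt with h | h
    · rw [← h, zero_mul] at hnS; exact absurd hnS (lt_irrefl _)
    · exact h
  obtain ⟨T, hT⟩ : ∃ T, T = v ^ 2 / S := ⟨_, rfl⟩
  rw [← hT] at hmass
  have hTn : T ≤ n := by rw [hT, div_le_iff₀ hS0]; exact hvn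
  have hT0 : 0 < T := by rw [hT]; positivity
  have hρT : 1 ≤ ρ * T := by
    rw [hT, ← mul_div_assoc, le_div_iff₀ hS0, one_mul]
    exact hRv
  -- the bound for `l`
  have hlC : l * v ≤ C * n := by
    have h2 := hlt τ hτt hτ1
    have h3 : l * v * (τ - t) ≤ -(n / 2 * Real.log (1 - τ ^ 2)) := by
      calc l * v * (τ - t) = l * ((τ - t) * v) := by ring
        _ ≤ _ := h2
    have h4 : C * n * (τ - t) = -(n / 2 * Real.log (1 - τ ^ 2)) := by
      rw [hC]
      have : τ - t ≠ 0 := by linarith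
      field_simp
    rw [← h4] at h3
    exact le_of_mul_le_mul_right h3 (by linarith)
  have hcp : ∀ i a b, 0 ≤ cpl (x i) (ν i) l (f i) a b := fun i a b =>
    mul_nonneg (mul_nonneg (hν i a).le (hν i b).le) (Real.exp_pos _).le
  have hsymm : ∀ i b, ∑ a, cpl (x i) (ν i) l (f i) a b = ν i b := by
    intro i b
    rw [← hmarg i b]
    refine Finset.sum_congr rfl fun a _ => ?_
    unfold cpl
    rw [real_inner_comm, mul_comm (ν i a) (ν i b)]
    congr 2
    ring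
  have hR0 : ∀ i, 0 ≤ R i := by
    intro i
    have : Nonempty (A i) := by
      by_contra hne
      rw [not_nonempty_iff] at hne
      have := h1 i
      simp at this
    exact (sq_nonneg _).trans (hR i (Classical.arbitrary _))
  have hin : ∀ i a b, |inner ℝ (x i a) (x i b)| ≤ R i := by
    intro i a b
    have e1 := abs_real_inner_le_norm (x i a) (x i b)
    have e2 := hR i a
    have e3 := hR i b
    have e4 := two_mul_le_add_sq ‖x i a‖ ‖x i b‖
    linarith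
  -- the first event
  obtain ⟨y1, hy1⟩ : ∃ y1 : ∀ i, A i → A i → ℝ, y1 = fun i a b =>
    inner ℝ (x i a) (x i b) - s * (‖x i a‖ ^ 2 + ‖x i b‖ ^ 2) / 2 := ⟨_, rfl⟩
  have hs1 : s < 1 := hst.trans ht1
  have hy1b : ∀ i a b, |y1 i a b| ≤ 2 * R i := by
    intro i a b
    rw [hy1]
    simp only
    have e1 := abs_le.1 (hin i a b)
    have e2 := hR i a
    have e3 := hR i b
    have e4 := sq_nonneg ‖x i a‖
    have e5 := sq_nonneg ‖x i b‖
    have e6 : 0 ≤ s * (‖x i a‖ ^ 2 + ‖x i b‖ ^ 2) := by positivity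
    have e7 : s * (‖x i a‖ ^ 2 + ‖x i b‖ ^ 2) ≤ 1 * (‖x i a‖ ^ 2 + ‖x i b‖ ^ 2) :=
      mul_le_mul_of_nonneg_right hs1.le (by linarith)
    rw [abs_le]
    constructor <;> linarith [e1.1, e1.2]
  have hE1 : ∑ i, ∑ a, ∑ b, cpl (x i) (ν i) l (f i) a b * y1 i a b =
      ∑ i, ∑ a, ∑ b, cpl (x i) (ν i) l (f i) a b * inner ℝ (x i a) (x i b) - s * v := by
    rw [hvd]
    unfold vB
    rw [Finset.mul_sum, ← Finset.sum_sub_distrib]
    refine Finset.sum_congr rfl fun i _ => ?_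
    have e1 : ∑ a, ∑ b, cpl (x i) (ν i) l (f i) a b * y1 i a b =
        ∑ a, ∑ b, cpl (x i) (ν i) l (f i) a b * inner ℝ (x i a) (x i b) -
          (s / 2 * ∑ a, ∑ b, cpl (x i) (ν i) l (f i) a b * ‖x i a‖ ^ 2 +
            s / 2 * ∑ a, ∑ b, cpl (x i) (ν i) l (f i) a b * ‖x i b‖ ^ 2) := by
      rw [hy1, Finset.mul_sum, Finset.mul_sum, ← Finset.sum_add_distrib,
        ← Finset.sum_sub_distrib]
      refine Finset.sum_congr rfl fun a _ => ?_
      rw [Finset.mul_sum, Finset.mul_sum, ← Finset.sum_add_distrib, ← Finset.sum_sub_distrib]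
      refine Finset.sum_congr rfl fun b _ => ?_
      ring
    have e2 : ∑ a, ∑ b, cpl (x i) (ν i) l (f i) a b * ‖x i a‖ ^ 2 =
        ∑ a, ν i a * ‖x i a‖ ^ 2 := by
      refine Finset.sum_congr rfl fun a _ => ?_
      rw [← Finset.sum_mul, hmarg]
    have e3 : ∑ a, ∑ b, cpl (x i) (ν i) l (f i) a b * ‖x i b‖ ^ 2 =
        ∑ a, ν i a * ‖x i a‖ ^ 2 := by
      rw [Finset.sum_comm]
      refine Finset.sum_congr rfl fun b _ => ?_
      rw [← Finset.sum_mul, hsymm]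
    rw [e1, e2, e3]
    ring
  have hr1 : ∑ i, (2 * R i) ^ 2 = 4 * S := by
    rw [hS, Finset.mul_sum]
    exact Finset.sum_congr rfl fun i _ => by ring
  have hb1 := CpB_hoe hhoe hν h1 hmarg d hd0 hd1 y1 (fun i => 2 * R i) hy1b
    (by rw [hr1]; linarith) (ε * v) (by positivity)
  rw [hr1] at hb1
  -- the second event
  obtain ⟨y2, hy2⟩ : ∃ y2 : ∀ i, A i → A i → ℝ, y2 = fun i a b =>
    -(l * inner ℝ (x i a) (x i b) + f i a + f i b) := ⟨_, rfl⟩
  have hy2b : ∀ i a b, |y2 i a b| ≤ 4 * (C * n / v) * R i := by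
    intro i a b
    rw [hy2]
    simp only
    rw [abs_neg]
    refine (hbnd (k i) (A i) (x i) (ν i) l (R i) (f i) (hν i) (h1 i) hl (hR i) (hmarg i) a b).trans ?_
    have e1 : l ≤ C * n / v := by rw [le_div_iff₀ hv]; exact hlC
    have e2 := mul_le_mul_of_nonneg_right e1 (hR0 i)
    linarith
  have hr2 : ∑ i, (4 * (C * n / v) * R i) ^ 2 = 16 * (C * n / v) ^ 2 * S := by
    rw [hS, Finset.mul_sum]
    exact Finset.sum_congr rfl fun i _ => by ring
  have hr20 : 0 < 16 * (C * n / v) ^ 2 * S := by positivity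
  have hb2 := CpB_hoe hhoe hν h1 hmarg d hd0 hd1 y2 (fun i => 4 * (C * n / v) * R i) hy2b
    (by rw [hr2]; exact hr20) (δ / 3 * (n * L)) (by positivity)
  rw [hr2] at hb2
  have hE2 : ∑ i, ∑ a, ∑ b, cpl (x i) (ν i) l (f i) a b * y2 i a b =
      -∑ i, ∑ a, ∑ b, cpl (x i) (ν i) l (f i) a b *
        (l * inner ℝ (x i a) (x i b) + f i a + f i b) := by
    rw [hy2]
    simp only [mul_neg, Finset.sum_neg_distrib]
  obtain ⟨E1, hE1d⟩ : ∃ E1, E1 = ∑ i, ∑ a, ∑ b, cpl (x i) (ν i) l (f i) a b * y1 i a b := ⟨_, rfl⟩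
  obtain ⟨E2, hE2d⟩ : ∃ E2, E2 = ∑ i, ∑ a, ∑ b, cpl (x i) (ν i) l (f i) a b * y2 i a b := ⟨_, rfl⟩
  rw [← hE1d] at hE1 hb1
  rw [← hE2d] at hE2 hb2
  have hE1' : 2 * (ε * v) ≤ E1 := by
    rw [hE1, hε]
    have : 2 * ((t - s) / 2 * v) = t * v - s * v := by ring
    linarith
  have hE2' : -((1 + δ / 3) * (n * L)) ≤ E2 := by
    rw [hE2]
    linarith
  -- the exponents
  have hx1 : κ * T ≤ (ε * v) ^ 2 / (8 * (4 * S)) := by
    have : (ε * v) ^ 2 / (8 * (4 * S)) = ε ^ 2 / 32 * T := by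
      rw [hT]
      field_simp
      ring
    rw [this]
    exact mul_le_mul_of_nonneg_right hκ1 hT0.le
  have hx2 : κ * T ≤ (δ / 3 * (n * L)) ^ 2 / (8 * (16 * (C * n / v) ^ 2 * S)) := by
    have : (δ / 3 * (n * L)) ^ 2 / (8 * (16 * (C * n / v) ^ 2 * S)) =
        (δ * L) ^ 2 / (1152 * C ^ 2) * T := by
      rw [hT]
      field_simp
      ring
    rw [this]
    exact mul_le_mul_of_nonneg_right hκ2 hT0.le
  have hB1 := hb1.trans (Real.exp_le_exp.2 (neg_le_neg hx1))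
  have hB2 := hb2.trans (Real.exp_le_exp.2 (neg_le_neg hx2))
  have hset := CpB_set hν h1 hl hmarg d hd0
  -- the pointwise bound
  have hwt : ∀ u : (∀ i, A i), 0 ≤ ∏ i, ν i (u i) := fun u =>
    Finset.prod_nonneg fun i _ => (hν _ _).le
  obtain ⟨G, hG⟩ : ∃ G, G = (1 + δ / 3) * (n * L) + δ / 3 * (n * L) := ⟨_, rfl⟩
  have hpt : ∀ u w : (∀ i, A i), rexp (-G) * (CpB x ν l f u w * (d u * d w) -
      (if ∑ i, y1 i (u i) (w i) ≤ E1 - ε * v then CpB x ν l f u w * (d u * d w) else 0) -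
      (if ∑ i, y2 i (u i) (w i) ≤ E2 - δ / 3 * (n * L) then CpB x ν l f u w * (d u * d w) else 0)) ≤
      (if ε * v < ∑ i, (inner ℝ (x i (u i)) (x i (w i)) -
          s * (‖x i (u i)‖ ^ 2 + ‖x i (w i)‖ ^ 2) / 2)
        then (∏ i, ν i (u i)) * (∏ i, ν i (w i)) * (d u * d w) else 0) := by
    intro u w
    have hdd : 0 ≤ d u * d w := mul_nonneg (hd0 u) (hd0 w)
    have hC0 : 0 ≤ CpB x ν l f u w * (d u * d w) :=
      mul_nonneg (Finset.prod_nonneg fun i _ => hcp _ _ _) hdd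
    have hE0 := Real.exp_pos (-G)
    have hR' : 0 ≤ (if ε * v < ∑ i, (inner ℝ (x i (u i)) (x i (w i)) -
          s * (‖x i (u i)‖ ^ 2 + ‖x i (w i)‖ ^ 2) / 2)
        then (∏ i, ν i (u i)) * (∏ i, ν i (w i)) * (d u * d w) else 0) := by
      split_ifs
      · exact mul_nonneg (mul_nonneg (hwt u) (hwt w)) hdd
      · exact le_rfl
    by_cases b1 : ∑ i, y1 i (u i) (w i) ≤ E1 - ε * v
    · rw [if_pos b1]
      have : 0 ≤ (if ∑ i, y2 i (u i) (w i) ≤ E2 - δ / 3 * (n * L)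
          then CpB x ν l f u w * (d u * d w) else 0) := by
        split_ifs
        · exact hC0
        · exact le_rfl
      exact (mul_nonpos_of_nonneg_of_nonpos hE0.le (by linarith)).trans hR'
    · by_cases b2 : ∑ i, y2 i (u i) (w i) ≤ E2 - δ / 3 * (n * L)
      · rw [if_neg b1, if_pos b2]
        exact (mul_nonpos_of_nonneg_of_nonpos hE0.le (by linarith)).trans hR'
      · rw [if_neg b1, if_neg b2, sub_zero, sub_zero]
        push Not at b1 b2
        have hy1' : ∑ i, y1 i (u i) (w i) = ∑ i, (inner ℝ (x i (u i)) (x i (w i)) -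
          s * (‖x i (u i)‖ ^ 2 + ‖x i (w i)‖ ^ 2) / 2) := by rw [hy1]
        rw [if_pos (by rw [← hy1']; linarith), CpB_eq']
        have hy2' : ∑ i, y2 i (u i) (w i) =
            -∑ i, (l * inner ℝ (x i (u i)) (x i (w i)) + f i (u i) + f i (w i)) := by
          rw [hy2]
          simp only [Finset.sum_neg_distrib]
        have hLle : ∑ i, (l * inner ℝ (x i (u i)) (x i (w i)) + f i (u i) + f i (w i)) ≤ G := by
          rw [hy2'] at b2
          rw [hG]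
          linarith
        have h3 : rexp (-G) * rexp (∑ i, (l * inner ℝ (x i (u i)) (x i (w i)) + f i (u i) +
            f i (w i))) ≤ 1 := by
          rw [← Real.exp_add]
          apply Real.exp_le_one_iff.2
          linarith
        have h4 : 0 ≤ (∏ i, ν i (u i)) * (∏ i, ν i (w i)) * (d u * d w) :=
          mul_nonneg (mul_nonneg (hwt u) (hwt w)) hdd
        calc rexp (-G) * ((∏ i, ν i (u i)) * (∏ i, ν i (w i)) *
              rexp (∑ i, (l * inner ℝ (x i (u i)) (x i (w i)) + f i (u i) + f i (w i))) *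
              (d u * d w))
            = (∏ i, ν i (u i)) * (∏ i, ν i (w i)) * (d u * d w) * (rexp (-G) *
              rexp (∑ i, (l * inner ℝ (x i (u i)) (x i (w i)) + f i (u i) + f i (w i)))) := by ring
          _ ≤ (∏ i, ν i (u i)) * (∏ i, ν i (w i)) * (d u * d w) * 1 :=
              mul_le_mul_of_nonneg_left h3 h4
          _ = _ := mul_one _
  have hsum : rexp (-G) * (∑ u, ∑ w, CpB x ν l f u w * (d u * d w) -
      ∑ u, ∑ w, (if ∑ i, y1 i (u i) (w i) ≤ E1 - ε * v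
        then CpB x ν l f u w * (d u * d w) else 0) -
      ∑ u, ∑ w, (if ∑ i, y2 i (u i) (w i) ≤ E2 - δ / 3 * (n * L)
        then CpB x ν l f u w * (d u * d w) else 0)) ≤
      ∑ u, ∑ w, (if ε * v < ∑ i, (inner ℝ (x i (u i)) (x i (w i)) -
          s * (‖x i (u i)‖ ^ 2 + ‖x i (w i)‖ ^ 2) / 2)
        then (∏ i, ν i (u i)) * (∏ i, ν i (w i)) * (d u * d w) else 0) := by
    rw [← Finset.sum_sub_distrib, ← Finset.sum_sub_distrib, Finset.mul_sum]
    refine Finset.sum_le_sum fun u _ => ?_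
    rw [← Finset.sum_sub_distrib, ← Finset.sum_sub_distrib, Finset.mul_sum]
    exact Finset.sum_le_sum fun w _ => hpt u w
  refine le_trans ?_ hsum
  -- the numbers
  have hmass2 : rexp (-(2 * (ρ * T))) ≤ (∑ u, (∏ i, ν i (u i)) * d u) ^ 2 := by
    have : rexp (-(2 * (ρ * T))) = rexp (-(ρ * T)) ^ 2 := by
      rw [← Real.exp_nat_mul]
      congr 1
      push_cast
      ring
    rw [this]
    exact pow_le_pow_left₀ (Real.exp_pos _).le hmass 2
  have he2 : rexp (-2) ≤ 1 / 4 := by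
    have h2 : (2 : ℝ) ≤ rexp 1 := by
      have := Real.add_one_le_exp (1 : ℝ)
      linarith
    have h4 : (4 : ℝ) ≤ rexp 2 := by
      have : rexp 2 = rexp 1 * rexp 1 := by rw [← Real.exp_add]; norm_num
      rw [this]
      nlinarith
    rw [Real.exp_neg, one_div]
    exact inv_anti₀ (by norm_num) h4
  have hκT : rexp (-(κ * T)) ≤ rexp (-(2 * (ρ * T))) * (1 / 4) := by
    have h2 : -(κ * T) ≤ -(2 * (ρ * T)) + -2 := by
      have e1 : 4 * ρ ≤ κ := by linarith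
      have e2 := mul_le_mul_of_nonneg_right e1 hT0.le
      linarith
    calc rexp (-(κ * T)) ≤ rexp (-(2 * (ρ * T)) + -2) := Real.exp_le_exp.2 h2
      _ = rexp (-(2 * (ρ * T))) * rexp (-2) := Real.exp_add _ _
      _ ≤ _ := by gcongr
  have hzp := Real.exp_pos (-(2 * (ρ * T)))
  have hfin : rexp (-(2 * (ρ * T))) * (1 / 2) ≤ ∑ u, ∑ w, CpB x ν l f u w * (d u * d w) -
      ∑ u, ∑ w, (if ∑ i, y1 i (u i) (w i) ≤ E1 - ε * v
        then CpB x ν l f u w * (d u * d w) else 0) -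
      ∑ u, ∑ w, (if ∑ i, y2 i (u i) (w i) ≤ E2 - δ / 3 * (n * L)
        then CpB x ν l f u w * (d u * d w) else 0) := by
    linarith
  have hhalf : rexp (-1) ≤ 1 / 2 := by
    have h2 : (2 : ℝ) ≤ rexp 1 := by
      have := Real.add_one_le_exp (1 : ℝ)
      linarith
    rw [Real.exp_neg, one_div]
    exact inv_anti₀ (by norm_num) h2
  have hexp : rexp (-(δ / 3 * (n * L))) ≤ rexp (-(2 * (ρ * T))) * (1 / 2) := by
    have h2 : -(δ / 3 * (n * L)) ≤ -(2 * (ρ * T)) + -1 := by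
      have e1 : ρ * T ≤ δ * L / 12 * n := by
        calc ρ * T ≤ δ * L / 12 * T := mul_le_mul_of_nonneg_right hρ2 hT0.le
          _ ≤ δ * L / 12 * n := mul_le_mul_of_nonneg_left hTn (by positivity)
      have e2 : δ / 3 * (n * L) = 4 * (δ * L / 12 * n) := by ring
      linarith
    calc rexp (-(δ / 3 * (n * L))) ≤ rexp (-(2 * (ρ * T)) + -1) := Real.exp_le_exp.2 h2
      _ = rexp (-(2 * (ρ * T))) * rexp (-1) := Real.exp_add _ _
      _ ≤ _ := by gcongr
  calc Real.sin θ ^ ((1 + δ) * n)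
      = rexp (-G) * rexp (-(δ / 3 * (n * L))) := by
        rw [Real.rpow_def_of_pos hsin0, ← Real.exp_add, hG, hL]
        congr 1
        ring
    _ ≤ rexp (-G) * (rexp (-(2 * (ρ * T))) * (1 / 2)) := by gcongr
    _ ≤ _ := by gcongr

end Pool.Agent.P8H92.KB
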