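import Pool.Agent.P8H92.KB.Rob
import Pool.Agent.P8H55.KB.Min
import Pool.Agent.P8H55.KB.Che

/-!
# MP_b5f63d_co: expurgated random words cannot improve Wyner's exponent

All lower bounds for the kissing numbers and for the spherical codes of angle `θ` in `ℝ^n` with the
exponential growth rate `(1 / sin θ)^n` (Shannon, Wyner; for `θ = π/3` the exponent `0.2075` of the
problem) come from random points of the sphere. One may try to improve them by random words over a
good finite alphabet `A` of points of `ℝ^k` (for instance the minimal vectors of a lattice), by the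
restriction to a subset of the words (for instance the words of a given composition, or of a given
length), by the removal of bad words, or by Turán's theorem. We show that this is impossible.

(1) Let `ν` be any probability on `A`. For all `θ`, `δ` there is `c > 0` such that for all large `m`
and EVERY set `D` of words of length `m` with `ν^m(D) ≥ exp (-c m)` two independent words of law `ν^m`
are both in `D` and have an angle less than `θ` with probability at least `(sin θ)^((1+δ) k m)`.

(2) Every set `D ⊆ A^m` with at least `exp (-c m) |A|^m` words has at least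
`(sin θ)^((1+δ) k m) |D|²` ordered pairs of words with an angle less than `θ`. So Turán's theorem and
the expurgation of random subsets of `D` give codes of angle `θ` of at most the exponent of Wyner.

Proof. (a) For every probability `ν` on a finite set of points of `ℝ^k` with second moment `v`, every
`l ≥ 0`, `0 ≤ a < 1` and every function `f`:
`E exp (l ⟨X, X'⟩ + f(X) + f(X')) ≥ exp (l a v + 2 E f(X)) (1-a²)^(k/2)` (Gaussian integral,
Cauchy-Schwarz with a Gaussian function, Jensen). (b) The minimum over `f` and `l ≥ 0` of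
`log E exp (l ⟨X, X'⟩ + f(X) + f(X')) - 2 E f(X) - l s v` gives a coupling of `ν` with itself, of density
`exp (l ⟨x, y⟩ + f(x) + f(y))`, with mean inner product at least `s v` and relative entropy at most
`-(k/2) log (1 - s²)`: the Gaussian vectors are the worst case. (c) The product of `m` copies of the
coupling has positive definite density, so it gives `D × D` at least the mass `ν^m(D)²` by the
Cauchy-Schwarz inequality, while by Chernoff's bound the angle is less than `θ` and the density is
less than `(sin θ)^(-(1+δ) k m)` outside of an exponentially small set.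
-/

set_option autoImplicit false

open Real Finset

namespace Pool.Agent.P8H92.KB.ExpurgatedWords

open Pool.Agent.P8H92.KB

open Classical in
/-- The probability that two independent words of law `ν^m` are both in `D` and have an angle less
than `θ`. -/
noncomputable def closeMass {k m : ℕ} {A : Type} [Fintype A] (x : A → EuclideanSpace ℝ (Fin k))
    (ν : A → ℝ) (θ : ℝ) (D : Finset (Fin m → A)) : ℝ :=
  ∑ u ∈ D, ∑ w ∈ D, if Close x θ u w then wt ν u * wt ν w else 0

open Classical in
/-- The number of ordered pairs of words of `D` with an angle less than `θ`. -/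
noncomputable def closePairs {k m : ℕ} {A : Type} [Fintype A] (x : A → EuclideanSpace ℝ (Fin k))
    (θ : ℝ) (D : Finset (Fin m → A)) : ℕ :=
  ((D ×ˢ D).filter fun p => Close x θ p.1 p.2).card

/-- **Expurgated random words cannot improve Wyner's exponent.** -/
theorem result (k : ℕ) (A : Type) [Fintype A] (x : A → EuclideanSpace ℝ (Fin k))
    (hx : ∃ a, x a ≠ 0) (θ δ : ℝ) (h0 : 0 < θ) (h1 : θ < π / 2) (hδ : 0 < δ) :
    (∀ ν : A → ℝ, (∀ a, 0 < ν a) → ∑ a, ν a = 1 →
      ∃ c : ℝ, 0 < c ∧ ∃ m0 : ℕ, ∀ m ≥ m0, ∀ D : Finset (Fin m → A),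
        rexp (-(c * m)) ≤ ∑ u ∈ D, wt ν u →
        Real.sin θ ^ ((1 + δ) * (k * m)) ≤ closeMass x ν θ D) ∧
    (∃ c : ℝ, 0 < c ∧ ∃ m0 : ℕ, ∀ m ≥ m0, ∀ D : Finset (Fin m → A),
      rexp (-(c * m)) * (Fintype.card A : ℝ) ^ m ≤ D.card →
      Real.sin θ ^ ((1 + δ) * (k * m)) * (D.card : ℝ) ^ 2 ≤ closePairs x θ D) := by
  have hmin : S_MIN := Pool.Agent.P8H55.KB.min ker
  have hrob : ∀ ν : A → ℝ, (∀ a, 0 < ν a) → ∑ a, ν a = 1 →
      ∃ c : ℝ, 0 < c ∧ ∃ m0 : ℕ, ∀ m ≥ m0, ∀ D : Finset (Fin m → A),
        rexp (-(c * m)) ≤ ∑ u ∈ D, wt ν u →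
        Real.sin θ ^ ((1 + δ) * (k * m)) ≤ closeMass x ν θ D := by
    intro ν hν hs
    exact robust hmin Pool.Agent.P8H55.KB.che k A x ν hν hs hx θ δ h0 h1 hδ
  refine ⟨hrob, ?_⟩
  have hne : Nonempty A := ⟨hx.choose⟩
  have hcard : 0 < (Fintype.card A : ℝ) := by exact_mod_cast Fintype.card_pos
  obtain ⟨c, hc, m0, h⟩ := hrob (fun _ => (Fintype.card A : ℝ)⁻¹)
    (fun _ => inv_pos.2 hcard) (by
      rw [Finset.sum_const, Finset.card_univ, nsmul_eq_mul]
      exact mul_inv_cancel₀ hcard.ne')
  refine ⟨c, hc, m0, fun m hm D hD => ?_⟩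
  have hwt : ∀ u : Fin m → A, wt (fun _ => (Fintype.card A : ℝ)⁻¹) u =
      ((Fintype.card A : ℝ) ^ m)⁻¹ := by
    intro u
    unfold wt
    simp
  have hpos : 0 < (Fintype.card A : ℝ) ^ m := by positivity
  have h2 := h m hm D (by
    simp_rw [hwt]
    rw [Finset.sum_const, nsmul_eq_mul, ← div_eq_mul_inv, le_div_iff₀ hpos]
    exact hD)
  have h3 : closeMass x (fun _ => (Fintype.card A : ℝ)⁻¹) θ D =
      closePairs x θ D * (((Fintype.card A : ℝ) ^ m)⁻¹ * ((Fintype.card A : ℝ) ^ m)⁻¹) := by
    unfold closeMass closePairs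
    simp_rw [hwt]
    rw [← Finset.sum_product', ← Finset.sum_filter, Finset.sum_const, nsmul_eq_mul]
  rw [h3] at h2
  have h4 : (D.card : ℝ) ≤ (Fintype.card A : ℝ) ^ m := by
    have := Finset.card_le_univ D
    rw [Fintype.card_fun, Fintype.card_fin] at this
    exact_mod_cast this
  have hs0 : 0 ≤ Real.sin θ ^ ((1 + δ) * (k * m)) :=
    Real.rpow_nonneg (Real.sin_nonneg_of_nonneg_of_le_pi h0.le (by linarith [Real.pi_pos])) _
  calc Real.sin θ ^ ((1 + δ) * (k * m)) * (D.card : ℝ) ^ 2
      ≤ Real.sin θ ^ ((1 + δ) * (k * m)) * ((Fintype.card A : ℝ) ^ m) ^ 2 := by gcongr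
    _ ≤ (closePairs x θ D * (((Fintype.card A : ℝ) ^ m)⁻¹ * ((Fintype.card A : ℝ) ^ m)⁻¹)) *
        ((Fintype.card A : ℝ) ^ m) ^ 2 := by gcongr
    _ = closePairs x θ D := by field_simp

end Pool.Agent.P8H92.KB.ExpurgatedWords
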