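import Pool.Agent.P8H92.KB.Ker2

/-!
# Words over a finite alphabet: every set of words that is not exponentially small contains many
pairs of words at a small angle
-/

set_option autoImplicit false
set_option linter.unusedSectionVars false

open Real Finset

namespace Pool.Agent.P8H92.KB

variable {k : ℕ} {A : Type} [Fintype A]

/-- The inner product of two words, as vectors of `(ℝ^k)^m`. -/
noncomputable def ip (x : A → EuclideanSpace ℝ (Fin k)) {m : ℕ} (u w : Fin m → A) : ℝ :=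
  ∑ i, inner ℝ (x (u i)) (x (w i))

/-- The angle of the words `u`, `w` is less than `θ`. -/
def Close (x : A → EuclideanSpace ℝ (Fin k)) (θ : ℝ) {m : ℕ} (u w : Fin m → A) : Prop :=
  Real.cos θ * (√(ip x u u) * √(ip x w w)) < ip x u w

/-- The probability of the word `u`. -/
def wt (ν : A → ℝ) {m : ℕ} (u : Fin m → A) : ℝ := ∏ i, ν (u i)

/-- the vector of a word -/
noncomputable def vec (x : A → EuclideanSpace ℝ (Fin k)) {m : ℕ} (u : Fin m → A) :
    EuclideanSpace ℝ (Fin m × Fin k) := WithLp.toLp 2 fun p => x (u p.1) p.2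

theorem inner_vec (x : A → EuclideanSpace ℝ (Fin k)) {m : ℕ} (u w : Fin m → A) :
    inner ℝ (vec x u) (vec x w) = ip x u w := by
  unfold ip
  rw [PiLp.inner_apply, Fintype.sum_prod_type]
  refine Finset.sum_congr rfl fun i _ => ?_
  rw [PiLp.inner_apply]
  rfl

/-- sums over pairs of words -/
theorem sum_pairs {M : Type*} [AddCommMonoid M] {m : ℕ} (F : (Fin m → A) → (Fin m → A) → M) :
    ∑ u, ∑ w, F u w = ∑ p : Fin m → A × A, F (fun i => (p i).1) (fun i => (p i).2) := by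
  rw [← Fintype.sum_prod_type']
  exact Fintype.sum_equiv (Equiv.arrowProdEquivProdArrow _ _ _).symm _ _ (fun p => rfl)

/-- the coupling of words -/
noncomputable def Cp (x : A → EuclideanSpace ℝ (Fin k)) (ν : A → ℝ) (l : ℝ) (f : A → ℝ) {m : ℕ}
    (u w : Fin m → A) : ℝ := ∏ i, cpl x ν l f (u i) (w i)

theorem Cp_eq (x : A → EuclideanSpace ℝ (Fin k)) (ν : A → ℝ) (l : ℝ) (f : A → ℝ) {m : ℕ}
    (u w : Fin m → A) : Cp x ν l f u w =
      (wt ν u * rexp (∑ i, f (u i))) * (wt ν w * rexp (∑ i, f (w i))) *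
        rexp (l * inner ℝ (vec x u) (vec x w)) := by
  rw [inner_vec]
  unfold Cp cpl wt ip
  rw [Real.exp_sum, Real.exp_sum, Finset.mul_sum, Real.exp_sum, ← Finset.prod_mul_distrib,
    ← Finset.prod_mul_distrib, ← Finset.prod_mul_distrib, ← Finset.prod_mul_distrib]
  refine Finset.prod_congr rfl fun i _ => ?_
  rw [Real.exp_add, Real.exp_add]
  ring

theorem Cp_eq' (x : A → EuclideanSpace ℝ (Fin k)) (ν : A → ℝ) (l : ℝ) (f : A → ℝ) {m : ℕ}
    (u w : Fin m → A) : Cp x ν l f u w =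
      wt ν u * wt ν w * rexp (∑ i, (l * inner ℝ (x (u i)) (x (w i)) + f (u i) + f (w i))) := by
  unfold Cp cpl wt
  rw [Real.exp_sum, ← Finset.prod_mul_distrib, ← Finset.prod_mul_distrib]

theorem Cp_marg {x : A → EuclideanSpace ℝ (Fin k)} {ν : A → ℝ} {l : ℝ} {f : A → ℝ}
    (h : ∀ a, ∑ b, cpl x ν l f a b = ν a) {m : ℕ} (u : Fin m → A) :
    ∑ w, Cp x ν l f u w = wt ν u := by
  unfold Cp wt
  rw [← Fintype.piFinset_univ, ← Finset.prod_univ_sum]
  exact Finset.prod_congr rfl fun i _ => h (u i)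

theorem wt_sum {ν : A → ℝ} (h : ∑ a, ν a = 1) (m : ℕ) : ∑ u : Fin m → A, wt ν u = 1 := by
  unfold wt
  rw [← Fintype.piFinset_univ, ← Finset.prod_univ_sum]
  simp [h]

/-- The coupling of a set of words with itself. -/
theorem Cp_set {x : A → EuclideanSpace ℝ (Fin k)} {ν : A → ℝ} (hν : ∀ a, 0 < ν a)
    (h1 : ∑ a, ν a = 1) {l : ℝ} (hl : 0 ≤ l) {f : A → ℝ}
    (h : ∀ a, ∑ b, cpl x ν l f a b = ν a) {m : ℕ} (D : Finset (Fin m → A)) :
    (∑ u ∈ D, wt ν u) ^ 2 ≤ ∑ u ∈ D, ∑ w ∈ D, Cp x ν l f u w := by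
  classical
  set c : (Fin m → A) → ℝ := fun u => wt ν u * rexp (∑ i, f (u i)) with hc
  have hc0 : ∀ u, 0 ≤ c u := fun u =>
    mul_nonneg (Finset.prod_nonneg fun i _ => (hν _).le) (Real.exp_pos _).le
  set cD : (Fin m → A) → ℝ := fun u => if u ∈ D then c u else 0 with hcD
  have hcD0 : ∀ u, 0 ≤ cD u := by
    intro u
    rw [hcD]
    simp only
    split_ifs
    · exact hc0 u
    · exact le_rfl
  have key := csV (V := EuclideanSpace ℝ (Fin m × Fin k)) (vec x) cD c hcD0 hc0 l hl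
  have e1 : ∑ u, ∑ w, cD u * c w * rexp (l * inner ℝ (vec x u) (vec x w)) = ∑ u ∈ D, wt ν u := by
    rw [← Finset.sum_filter_add_sum_filter_not univ (fun u => u ∈ D)]
    have z : ∑ u ∈ univ.filter (fun u => ¬ u ∈ D), ∑ w,
        cD u * c w * rexp (l * inner ℝ (vec x u) (vec x w)) = 0 := by
      refine Finset.sum_eq_zero fun u hu => Finset.sum_eq_zero fun w _ => ?_
      rw [hcD]
      simp only
      rw [if_neg (Finset.mem_filter.1 hu).2]
      ring
    rw [z, add_zero]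
    have e2 : univ.filter (fun u => u ∈ D) = D := by ext u; simp
    rw [e2]
    refine Finset.sum_congr rfl fun u hu => ?_
    rw [← Cp_marg h u]
    refine Finset.sum_congr rfl fun w _ => ?_
    rw [Cp_eq, hcD]
    simp only
    rw [if_pos hu]
  have e3 : ∑ u, ∑ w, c u * c w * rexp (l * inner ℝ (vec x u) (vec x w)) = 1 := by
    rw [← wt_sum h1 m]
    refine Finset.sum_congr rfl fun u _ => ?_
    rw [← Cp_marg h u]
    refine Finset.sum_congr rfl fun w _ => ?_
    rw [Cp_eq]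
  have e4 : ∑ u, ∑ w, cD u * cD w * rexp (l * inner ℝ (vec x u) (vec x w)) =
      ∑ u ∈ D, ∑ w ∈ D, Cp x ν l f u w := by
    rw [← Finset.sum_subset (Finset.subset_univ D)]
    · refine Finset.sum_congr rfl fun u hu => ?_
      rw [← Finset.sum_subset (Finset.subset_univ D)]
      · refine Finset.sum_congr rfl fun w hw => ?_
        rw [Cp_eq, hcD]
        simp only
        rw [if_pos hu, if_pos hw]
      · intro w _ hw
        rw [hcD]
        simp only
        rw [if_neg hw]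
        ring
    · intro u _ hu
      refine Finset.sum_eq_zero fun w _ => ?_
      rw [hcD]
      simp only
      rw [if_neg hu]
      ring
  rw [e1, e3, e4, mul_one] at key
  exact key

/-- The probability, under the coupling, that a sum is not positive. -/
theorem Cp_che (hche : S_CHE) {x : A → EuclideanSpace ℝ (Fin k)} {ν : A → ℝ} (hν : ∀ a, 0 < ν a)
    (h1 : ∑ a, ν a = 1) {l : ℝ} {f : A → ℝ} (h : ∀ a, ∑ b, cpl x ν l f a b = ν a)
    (y : A → A → ℝ) (hy : 0 < ∑ a, ∑ b, cpl x ν l f a b * y a b) :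
    ∃ q : ℝ, 0 < q ∧ q < 1 ∧ ∀ (m : ℕ) (D : Finset (Fin m → A)),
      ∑ u ∈ D, ∑ w ∈ D, (if ∑ i, y (u i) (w i) ≤ 0 then Cp x ν l f u w else 0) ≤ q ^ m := by
  classical
  have hcp : ∀ a b, 0 ≤ cpl x ν l f a b := fun a b =>
    mul_nonneg (mul_nonneg (hν a).le (hν b).le) (Real.exp_pos _).le
  obtain ⟨q, hq0, hq1, hq⟩ := hche (A × A) (fun p => cpl x ν l f p.1 p.2) (fun p => y p.1 p.2)
    (fun p => hcp _ _) (by rw [Fintype.sum_prod_type]; simp only; simp_rw [h]; exact h1)
    (by rw [Fintype.sum_prod_type]; exact hy)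
  refine ⟨q, hq0, hq1, fun m D => ?_⟩
  have hnn : ∀ u w : Fin m → A, 0 ≤ (if ∑ i, y (u i) (w i) ≤ 0 then Cp x ν l f u w else 0) := by
    intro u w
    split_ifs
    · exact Finset.prod_nonneg fun i _ => hcp _ _
    · exact le_rfl
  calc ∑ u ∈ D, ∑ w ∈ D, (if ∑ i, y (u i) (w i) ≤ 0 then Cp x ν l f u w else 0)
      ≤ ∑ u, ∑ w, (if ∑ i, y (u i) (w i) ≤ 0 then Cp x ν l f u w else 0) := by
        refine (Finset.sum_le_sum fun u _ => Finset.sum_le_sum_of_subset_of_nonneg
          (Finset.subset_univ D) fun w _ _ => hnn u w).trans ?_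
        exact Finset.sum_le_sum_of_subset_of_nonneg (Finset.subset_univ D)
          fun u _ _ => Finset.sum_nonneg fun w _ => hnn u w
    _ = ∑ p : Fin m → A × A, (if ∑ i, y (p i).1 (p i).2 ≤ 0 then
          ∏ i, cpl x ν l f (p i).1 (p i).2 else 0) :=
        sum_pairs (fun u w => if ∑ i, y (u i) (w i) ≤ 0 then Cp x ν l f u w else 0)
    _ ≤ q ^ m := hq m

end Pool.Agent.P8H92.KB
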