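import Pool.Agent.P8H92.KB.Blk

/-!
# MP_b5f63d_co: random codes with independent blocks cannot improve Wyner's exponent

All lower bounds for the kissing numbers and for the spherical codes of angle `θ` in `ℝ^n` with the
exponential growth rate `(1 / sin θ)^n` (Shannon, Wyner; for `θ = π/3` the exponent `0.2075` of the
problem) come from random points of the sphere: two independent uniform points have an angle less
than `θ` with probability `(sin θ)^(n (1 + o(1)))`, and random points with few close pairs are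
expurgated. We show that no ensemble with many independent blocks is better.

Let `X = (X_1, …, X_m)` be a random vector of `ℝ^n` with independent blocks, of arbitrary dimensions
(of sum `n`) and arbitrary laws with `‖X_i‖² ≤ R_i`, and let `v = E ‖X‖² > 0`.

(1) The probability that two independent copies of `X` have an angle less than `θ` is at least
`(1 - 2 exp (-ε² v² / (8 ∑ R_i²))) (1 - (cos θ + 2 ε)²)^(n/2)` for all `ε > 0`, `cos θ + 2 ε < 1`.

(2) So it is at least `(sin θ)^((1+δ) n)` if `∑ R_i² ≤ ρ v²`, where `ρ > 0` depends on `θ` and `δ`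
only. For instance, if `X_i` has length `m^(-1/2)` for all `i`, this is true for all `m ≥ 1/ρ`, whatever
the dimensions and the laws of the blocks are (for instance random elements of optimal kissing
configurations of arbitrary dimensions).

Proof. For independent copies `X`, `X'` of a bounded random vector of `ℝ^k` and `l ≥ 0`, `0 ≤ a < 1`,
`s ≤ a`: `E exp (l (⟨X, X'⟩ - s (‖X‖² + ‖X'‖²) / 2)) ≥ exp (l (a - s) E ‖X‖²) (1 - a²)^(k/2)`: write
`exp (l ⟨x, y⟩)` as an integral of a product over Gaussian vectors, apply the Cauchy-Schwarz inequality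
with a Gaussian function, and Jensen's inequality. The exponential change of measure at the point
where the tilted mean is `ε v`, with Hoeffding's lemma for the tilted blocks, turns this into a lower
bound of the probability that the sum over the blocks of the statistic is positive, and then the angle
is less than `θ`.
-/

set_option autoImplicit false

open MeasureTheory Real Finset

namespace Pool.Agent.P8H92.KB.IndependentBlocks

open Pool.Agent.P8H92.KB

/-- The second moment `E ‖X‖²` of the vector with independent blocks of laws `μ i`. -/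
noncomputable def moment {ι : Type} [Fintype ι] {k : ι → ℕ}
    (μ : ∀ i, Measure (EuclideanSpace ℝ (Fin (k i)))) : ℝ := ∑ i, ∫ x, ‖x‖ ^ 2 ∂(μ i)

/-- **Random codes with independent blocks cannot improve Wyner's exponent.** -/
theorem result :
    (∀ (ι : Type) [Fintype ι] (k : ι → ℕ) (μ : ∀ i, Measure (EuclideanSpace ℝ (Fin (k i))))
      [∀ i, IsProbabilityMeasure (μ i)] (R : ι → ℝ), (∀ i, ∀ᵐ x ∂(μ i), ‖x‖ ^ 2 ≤ R i) →
      0 < moment μ → ∀ θ ε : ℝ, 0 ≤ θ → θ ≤ π / 2 → 0 < ε → Real.cos θ + 2 * ε < 1 →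
      (1 - 2 * rexp (-(ε ^ 2 * moment μ ^ 2 / (8 * ∑ i, R i ^ 2)))) *
        (1 - (Real.cos θ + 2 * ε) ^ 2) ^ (((∑ i, k i : ℕ) : ℝ) / 2) ≤
        (pairLaw k μ).real {p | SmallAngle θ p}) ∧
    (∀ θ δ : ℝ, 0 < θ → θ < π / 2 → 0 < δ → ∃ ρ : ℝ, 0 < ρ ∧
      ∀ (ι : Type) [Fintype ι] (k : ι → ℕ) (μ : ∀ i, Measure (EuclideanSpace ℝ (Fin (k i))))
        [∀ i, IsProbabilityMeasure (μ i)] (R : ι → ℝ), (∀ i, ∀ᵐ x ∂(μ i), ‖x‖ ^ 2 ≤ R i) →
        0 < moment μ → ∑ i, R i ^ 2 ≤ ρ * moment μ ^ 2 →
        Real.sin θ ^ ((1 + δ) * ((∑ i, k i : ℕ) : ℝ)) ≤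
          (pairLaw k μ).real {p | SmallAngle θ p}) := by
  refine ⟨?_, ?_⟩
  · intro ι _ k μ _ R hR hv θ ε h0 h1 hε hε1
    exact blocks k μ R hR _ rfl hv θ ε h0 h1 hε hε1
  · intro θ δ h0 h1 hδ
    obtain ⟨ρ, hρ, h⟩ := blocks_asymp θ δ h0 h1 hδ
    exact ⟨ρ, hρ, fun ι _ k μ _ R hR hv hle => h ι k μ R hR hv hle⟩

end Pool.Agent.P8H92.KB.IndependentBlocks
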