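import Mathlib

/-!
# The exponential kernel inequality

For a probability measure `μ` on a Euclidean space of dimension `k`, concentrated on the sphere
`‖x‖² = r`, the mean of `exp (l ⟨x, y⟩)` over independent `x`, `y` is at least
`exp (l a r) (1 - a²) ^ (k / 2)` for all `l ≥ 0` and `0 ≤ a < 1`.
-/

set_option autoImplicit false

open MeasureTheory Real
open scoped ENNReal

namespace Pool.Agent.P8H92.KB

section gauss

variable {V : Type*} [NormedAddCommGroup V] [InnerProductSpace ℝ V] [FiniteDimensional ℝ V]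
  [MeasurableSpace V] [BorelSpace V]

/-- `exp` with values in the extended nonnegative reals -/
noncomputable def ex (t : ℝ) : ℝ≥0∞ := ENNReal.ofReal (rexp t)

theorem ex_add (s t : ℝ) : ex (s + t) = ex s * ex t := by
  unfold ex
  rw [Real.exp_add, ENNReal.ofReal_mul (Real.exp_pos _).le]

theorem measurable_ex : Measurable ex := by
  unfold ex
  exact ENNReal.measurable_ofReal.comp Real.measurable_exp

theorem ex_ne_top (t : ℝ) : ex t ≠ ⊤ := ENNReal.ofReal_ne_top

theorem ex_ne_zero (t : ℝ) : ex t ≠ 0 := by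
  unfold ex
  simp [Real.exp_pos]

theorem lint_gauss {b : ℝ} (hb : 0 < b) :
    ∫⁻ v : V, ex (-b * ‖v‖ ^ 2) = ENNReal.ofReal ((π / b) ^ ((Module.finrank ℝ V : ℝ) / 2)) := by
  have h := GaussianFourier.integral_rexp_neg_mul_sq_norm (V := V) hb
  have hpos : 0 < (π / b) ^ ((Module.finrank ℝ V : ℝ) / 2) := by positivity
  have hint : Integrable (fun v : V => rexp (-b * ‖v‖ ^ 2)) := by
    by_contra hc
    rw [integral_undef hc] at h
    rw [← h] at hpos
    exact lt_irrefl _ hpos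
  rw [← h, ofReal_integral_eq_lintegral_ofReal hint (ae_of_all _ fun _ => (Real.exp_pos _).le)]
  rfl

theorem lint_gauss_lin {b : ℝ} (hb : 0 < b) (w : V) :
    ∫⁻ v : V, ex (-b * ‖v‖ ^ 2 + inner ℝ w v) =
      ENNReal.ofReal ((π / b) ^ ((Module.finrank ℝ V : ℝ) / 2)) * ex (‖w‖ ^ 2 / (4 * b)) := by
  have h1 : ∀ v : V, ex (-b * ‖v‖ ^ 2 + inner ℝ w v) =
      ex (-b * ‖v - (1 / (2 * b)) • w‖ ^ 2) * ex (‖w‖ ^ 2 / (4 * b)) := by
    intro v
    rw [← ex_add]
    congr 1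
    rw [@norm_sub_sq ℝ, norm_smul, inner_smul_right, real_inner_comm]
    simp only [RCLike.re_to_real, Real.norm_eq_abs]
    rw [mul_pow, sq_abs]
    field_simp
    ring
  simp_rw [h1]
  rw [lintegral_mul_const' _ _ (ex_ne_top _)]
  congr 1
  rw [lintegral_sub_right_eq_self (fun v : V => ex (-b * ‖v‖ ^ 2)) ((1 / (2 * b)) • w)]
  exact lint_gauss hb

end gauss

section kernel

variable {V : Type*} [NormedAddCommGroup V] [InnerProductSpace ℝ V] [FiniteDimensional ℝ V]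
  [MeasurableSpace V] [BorelSpace V]

theorem kernel_aux (μ : Measure V) [IsProbabilityMeasure μ] {r : ℝ}
    (hr : ∀ᵐ x ∂μ, ‖x‖ ^ 2 = r) {l β : ℝ} (hl : 0 ≤ l) (_hβ0 : 0 ≤ β) (hβ : β < 1 / 2) :
    (ENNReal.ofReal ((π / ((1 - β) / 2)) ^ ((Module.finrank ℝ V : ℝ) / 2)) *
      ex (l * r / (2 * (1 - β)))) ^ 2 ≤
    (ENNReal.ofReal ((π / (1 / 2)) ^ ((Module.finrank ℝ V : ℝ) / 2)) * ex (l * r) *
      ∫⁻ x, ∫⁻ y, ex (l * inner ℝ x y) ∂μ ∂μ) *
    ENNReal.ofReal ((π / ((1 - 2 * β) / 2)) ^ ((Module.finrank ℝ V : ℝ) / 2)) := by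
  set q := √l with hq
  have hq2 : q ^ 2 = l := Real.sq_sqrt hl
  -- the function F
  set F : V → ℝ≥0∞ := fun z => ∫⁻ x, ex (q * inner ℝ x z) ∂μ with hF
  have hmeas2 : Measurable (fun p : V × V => ex (q * inner ℝ p.1 p.2)) := by
    refine measurable_ex.comp ?_
    exact (continuous_const.mul (continuous_fst.inner continuous_snd)).measurable
  have hFm : Measurable F := by
    have : Measurable (fun p : V × V => ex (q * inner ℝ p.2 p.1)) :=
      hmeas2.comp measurable_swap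
    exact this.lintegral_prod_right'
  have hgm : ∀ c : ℝ, Measurable (fun z : V => ex (c * ‖z‖ ^ 2)) := by
    intro c
    exact measurable_ex.comp (continuous_const.mul (continuous_norm.pow 2)).measurable
  -- Cauchy-Schwarz
  have hCS := ENNReal.lintegral_mul_le_Lp_mul_Lq (volume : Measure V) Real.HolderConjugate.two_two
    (f := fun z => F z * ex (-(1 / 4) * ‖z‖ ^ 2)) (g := fun z => ex ((β / 2 - 1 / 4) * ‖z‖ ^ 2))
    (hFm.mul (hgm _)).aemeasurable (hgm _).aemeasurable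
  simp only [Pi.mul_apply] at hCS
  have hx1 : ∀ z : V, Measurable (fun x : V => ex (q * inner ℝ x z)) := fun z =>
    measurable_ex.comp (Continuous.measurable (by fun_prop))
  -- left side
  have hL : ∫⁻ z : V, F z * ex (-(1 / 4) * ‖z‖ ^ 2) * ex ((β / 2 - 1 / 4) * ‖z‖ ^ 2) =
      ENNReal.ofReal ((π / ((1 - β) / 2)) ^ ((Module.finrank ℝ V : ℝ) / 2)) *
      ex (l * r / (2 * (1 - β))) := by
    have e1 : ∀ z : V, F z * ex (-(1 / 4) * ‖z‖ ^ 2) * ex ((β / 2 - 1 / 4) * ‖z‖ ^ 2) =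
      ∫⁻ x, ex (-((1 - β) / 2) * ‖z‖ ^ 2 + inner ℝ (q • x) z) ∂μ := by
      intro z
      rw [mul_assoc, ← ex_add, hF]
      simp only
      rw [← lintegral_mul_const' _ _ (ex_ne_top _)]
      refine lintegral_congr fun x => ?_
      rw [← ex_add, inner_smul_left]
      congr 1
      simp only [conj_trivial]
      ring
    simp_rw [e1]
    rw [lintegral_lintegral_swap]
    · have e2 : ∀ᵐ x ∂μ, ∫⁻ z : V, ex (-((1 - β) / 2) * ‖z‖ ^ 2 + inner ℝ (q • x) z) =
          ENNReal.ofReal ((π / ((1 - β) / 2)) ^ ((Module.finrank ℝ V : ℝ) / 2)) *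
          ex (l * r / (2 * (1 - β))) := by
        filter_upwards [hr] with x hx
        rw [lint_gauss_lin (by linarith : 0 < (1 - β) / 2)]
        congr 2
        rw [norm_smul, mul_pow, hx, Real.norm_eq_abs, sq_abs, hq2]
        congr 1
        ring
      rw [lintegral_congr_ae e2]
      simp
    · refine Measurable.aemeasurable ?_
      refine measurable_ex.comp ?_
      refine Continuous.measurable ?_
      fun_prop
  -- first factor
  have hA : ∫⁻ z : V, (F z * ex (-(1 / 4) * ‖z‖ ^ 2)) ^ (2 : ℝ) =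
      ENNReal.ofReal ((π / (1 / 2)) ^ ((Module.finrank ℝ V : ℝ) / 2)) * ex (l * r) *
      ∫⁻ x, ∫⁻ y, ex (l * inner ℝ x y) ∂μ ∂μ := by
    have e1 : ∀ z : V, (F z * ex (-(1 / 4) * ‖z‖ ^ 2)) ^ (2 : ℝ) =
        ∫⁻ x, ∫⁻ y, ex (-(1 / 2) * ‖z‖ ^ 2 + inner ℝ (q • (x + y)) z) ∂μ ∂μ := by
      intro z
      have e2 : (F z * ex (-(1 / 4) * ‖z‖ ^ 2)) ^ (2 : ℝ) =
          (F z * F z) * ex (-(1 / 2) * ‖z‖ ^ 2) := by
        rw [ENNReal.rpow_two, mul_pow, sq (F z), sq (ex _), ← ex_add]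
        congr 2
        ring
      have e3 : F z * F z = ∫⁻ x, ex (q * inner ℝ x z) * F z ∂μ := by
        rw [lintegral_mul_const _ (hx1 z)]
      rw [e2, e3, ← lintegral_mul_const' _ _ (ex_ne_top _)]
      refine lintegral_congr fun x => ?_
      rw [hF]
      simp only
      rw [← lintegral_const_mul' _ _ (ex_ne_top _), ← lintegral_mul_const' _ _ (ex_ne_top _)]
      refine lintegral_congr fun y => ?_
      rw [← ex_add, ← ex_add, inner_smul_left, inner_add_left]
      congr 1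
      simp only [conj_trivial]
      ring
    simp_rw [e1]
    have hm3 : Measurable (fun p : V × (V × V) =>
        ex (-(1 / 2) * ‖p.1‖ ^ 2 + inner ℝ (q • (p.2.1 + p.2.2)) p.1)) :=
      measurable_ex.comp (Continuous.measurable (by fun_prop))
    have e4 : ∀ z : V, ∫⁻ x, ∫⁻ y, ex (-(1 / 2) * ‖z‖ ^ 2 + inner ℝ (q • (x + y)) z) ∂μ ∂μ =
        ∫⁻ p : V × V, ex (-(1 / 2) * ‖z‖ ^ 2 + inner ℝ (q • (p.1 + p.2)) z) ∂(μ.prod μ) := by
      intro z
      have hm4 : Measurable (fun p : V × V =>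
          ex (-(1 / 2) * ‖z‖ ^ 2 + inner ℝ (q • (p.1 + p.2)) z)) :=
        measurable_ex.comp (Continuous.measurable (by fun_prop))
      rw [lintegral_prod _ hm4.aemeasurable]
    simp_rw [e4]
    rw [lintegral_lintegral_swap hm3.aemeasurable]
    have hr2 : ∀ᵐ p : V × V ∂(μ.prod μ), ‖p.1‖ ^ 2 = r ∧ ‖p.2‖ ^ 2 = r := by
      have h1 : ∀ᵐ p : V × V ∂(μ.prod μ), ‖p.1‖ ^ 2 = r :=
        Measure.quasiMeasurePreserving_fst.ae hr
      have h2 : ∀ᵐ p : V × V ∂(μ.prod μ), ‖p.2‖ ^ 2 = r :=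
        Measure.quasiMeasurePreserving_snd.ae hr
      filter_upwards [h1, h2] with p hp1 hp2 using ⟨hp1, hp2⟩
    have e5 : ∀ᵐ p : V × V ∂(μ.prod μ),
        ∫⁻ z : V, ex (-(1 / 2) * ‖z‖ ^ 2 + inner ℝ (q • (p.1 + p.2)) z) =
        ENNReal.ofReal ((π / (1 / 2)) ^ ((Module.finrank ℝ V : ℝ) / 2)) * ex (l * r) *
          ex (l * inner ℝ p.1 p.2) := by
      filter_upwards [hr2] with p hp
      rw [lint_gauss_lin (by norm_num : (0 : ℝ) < 1 / 2), mul_assoc, ← ex_add]
      congr 2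
      rw [norm_smul, mul_pow, Real.norm_eq_abs, sq_abs, hq2, @norm_add_sq ℝ, hp.1, hp.2]
      simp only [RCLike.re_to_real]
      ring
    rw [lintegral_congr_ae e5, lintegral_const_mul' _ _
      (ENNReal.mul_ne_top ENNReal.ofReal_ne_top (ex_ne_top _))]
    congr 1
    have hm5 : Measurable (fun p : V × V => ex (l * inner ℝ p.1 p.2)) :=
      measurable_ex.comp (Continuous.measurable (by fun_prop))
    rw [lintegral_prod _ hm5.aemeasurable]
  -- second factor
  have hB : ∫⁻ z : V, (ex ((β / 2 - 1 / 4) * ‖z‖ ^ 2)) ^ (2 : ℝ) =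
      ENNReal.ofReal ((π / ((1 - 2 * β) / 2)) ^ ((Module.finrank ℝ V : ℝ) / 2)) := by
    rw [← lint_gauss (V := V) (by linarith : 0 < (1 - 2 * β) / 2)]
    refine lintegral_congr fun z => ?_
    rw [ENNReal.rpow_two, sq (ex _), ← ex_add]
    congr 1
    ring
  rw [hL, hA, hB] at hCS
  have h2 := pow_le_pow_left' hCS 2
  refine h2.trans (le_of_eq ?_)
  rw [mul_pow]
  congr 1 <;>
  · rw [← ENNReal.rpow_two, ← ENNReal.rpow_mul]
    norm_num

/-- **The exponential kernel inequality.** -/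
theorem kernel (μ : Measure V) [IsProbabilityMeasure μ] {r : ℝ}
    (hr : ∀ᵐ x ∂μ, ‖x‖ ^ 2 = r) {l a : ℝ} (hl : 0 ≤ l) (ha0 : 0 ≤ a) (ha : a < 1) :
    ex (l * a * r) * ENNReal.ofReal ((1 - a ^ 2) ^ ((Module.finrank ℝ V : ℝ) / 2)) ≤
      ∫⁻ x, ∫⁻ y, ex (l * inner ℝ x y) ∂μ ∂μ := by
  set β := a / (1 + a) with hβ
  have h1a : 0 < 1 + a := by linarith
  have hβ0 : 0 ≤ β := by positivity
  have hβ1 : β < 1 / 2 := by
    rw [hβ, div_lt_div_iff₀ h1a (by norm_num)]
    linarith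
  have h := kernel_aux μ hr hl hβ0 hβ1
  set J := ∫⁻ x, ∫⁻ y, ex (l * inner ℝ x y) ∂μ ∂μ with hJ
  set k := (Module.finrank ℝ V : ℝ) / 2 with hk
  have hk0 : 0 ≤ k := by positivity
  have e1 : 1 - β = 1 / (1 + a) := by rw [hβ]; field_simp; ring
  have e2 : 1 - 2 * β = (1 - a) / (1 + a) := by rw [hβ]; field_simp; ring
  have h1a' : 0 < 1 - a := by linarith
  have hβ' : 0 < 1 - β := by rw [e1]; positivity
  have hβ'' : 0 < 1 - 2 * β := by rw [e2]; positivity
  -- rewrite as c * (ex(..) * P) ≤ c * J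
  set c : ℝ≥0∞ := ENNReal.ofReal ((π / (1 / 2)) ^ k) * ex (l * r) *
    ENNReal.ofReal ((π / ((1 - 2 * β) / 2)) ^ k) with hc
  have hc0 : c ≠ 0 := by
    rw [hc]
    refine mul_ne_zero (mul_ne_zero ?_ (ex_ne_zero _)) ?_ <;>
    · rw [Ne, ENNReal.ofReal_eq_zero, not_le]
      positivity
  have hct : c ≠ ⊤ := by
    rw [hc]
    exact ENNReal.mul_ne_top (ENNReal.mul_ne_top ENNReal.ofReal_ne_top (ex_ne_top _))
      ENNReal.ofReal_ne_top
  have hleft : (ENNReal.ofReal ((π / ((1 - β) / 2)) ^ k) * ex (l * r / (2 * (1 - β)))) ^ 2 =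
      c * (ex (l * a * r) * ENNReal.ofReal ((1 - a ^ 2) ^ k)) := by
    rw [hc]
    unfold ex
    rw [← ENNReal.ofReal_mul (by positivity), ← ENNReal.ofReal_mul (by positivity),
      ← ENNReal.ofReal_mul (by positivity), ← ENNReal.ofReal_mul (by positivity),
      ← ENNReal.ofReal_mul (by positivity), ← ENNReal.ofReal_pow (by positivity)]
    congr 1
    have hs2 : 0 < 1 - a ^ 2 := by nlinarith
    have p1 : (π / ((1 - β) / 2)) ^ k * (π / ((1 - β) / 2)) ^ k =
        (π / (1 / 2)) ^ k * (π / ((1 - 2 * β) / 2)) ^ k * (1 - a ^ 2) ^ k := by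
      rw [← Real.mul_rpow (by positivity) (by positivity),
        ← Real.mul_rpow (by positivity) (by positivity),
        ← Real.mul_rpow (by positivity) (by positivity)]
      congr 1
      rw [e1, e2]
      field_simp
      ring
    have p2 : rexp (l * r / (2 * (1 - β))) * rexp (l * r / (2 * (1 - β))) =
        rexp (l * r) * rexp (l * a * r) := by
      rw [← Real.exp_add, ← Real.exp_add]
      congr 1
      rw [e1]
      field_simp
      ring
    calc ((π / ((1 - β) / 2)) ^ k * rexp (l * r / (2 * (1 - β)))) ^ 2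
        = ((π / ((1 - β) / 2)) ^ k * (π / ((1 - β) / 2)) ^ k) *
          (rexp (l * r / (2 * (1 - β))) * rexp (l * r / (2 * (1 - β)))) := by ring
      _ = _ := by rw [p1, p2]; ring
  rw [hleft] at h
  have h' : c * (ex (l * a * r) * ENNReal.ofReal ((1 - a ^ 2) ^ k)) ≤ c * J := by
    refine h.trans (le_of_eq ?_)
    rw [hc]
    ring
  exact (ENNReal.mul_le_mul_iff_right hc0 hct).1 h'

end kernel

end Pool.Agent.P8H92.KB
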