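import Mathlib

/-!
# Project KB (hard row MP_b5f63d_co, kissing numbers): random coding cannot beat Wyner's exponent

Statements. `x : A → ℝ^k` is a finite alphabet, `ν` a probability on it, `s = cos θ`.
-/

set_option autoImplicit false

open Real

namespace Pool.Agent.P8H92.KB

/-- **KC1** (kernel inequality; Gaussian integral and Cauchy-Schwarz; helper92). -/
def S_KER : Prop := ∀ (k : ℕ) (A : Type) [Fintype A] (x : A → EuclideanSpace ℝ (Fin k))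
    (c : A → ℝ), (∀ a, 0 ≤ c a) → ∀ l t : ℝ, 0 ≤ l → 0 ≤ t → t < 1 →
    (∑ a, c a * rexp (l * t * ‖x a‖ ^ 2 / 2)) ^ 2 * (1 - t ^ 2) ^ ((k : ℝ) / 2) ≤
      ∑ a, ∑ b, c a * c b * rexp (l * inner ℝ (x a) (x b))

/-- **KC2** (Cauchy-Schwarz for the exponential kernel; helper92). -/
def S_CS : Prop := ∀ (k : ℕ) (A : Type) [Fintype A] (x : A → EuclideanSpace ℝ (Fin k))
    (c d : A → ℝ), (∀ a, 0 ≤ c a) → (∀ a, 0 ≤ d a) → ∀ l : ℝ, 0 ≤ l →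
    (∑ a, ∑ b, c a * d b * rexp (l * inner ℝ (x a) (x b))) ^ 2 ≤
      (∑ a, ∑ b, c a * c b * rexp (l * inner ℝ (x a) (x b))) *
      (∑ a, ∑ b, d a * d b * rexp (l * inner ℝ (x a) (x b)))

/-- The coupling `π(a,b) = ν(a) ν(b) exp (l ⟨x a, x b⟩ + f a + f b)`. -/
noncomputable def cpl {k : ℕ} {A : Type} (x : A → EuclideanSpace ℝ (Fin k)) (ν : A → ℝ) (l : ℝ)
    (f : A → ℝ) (a b : A) : ℝ :=
  ν a * ν b * rexp (l * inner ℝ (x a) (x b) + f a + f b)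

/-- **MIN** (150 lines; elementary calculus; deliver `theorem min (h : S_KER) : S_MIN`).
A coupling of `ν` with itself with mean inner product at least `s v`, `v` the mean of `‖x‖²`, and
relative entropy at most `-(k/2) log (1 - s²)`.

Proof. Put `Z(f,l) = ∑_{a,b} ν a ν b exp (l ⟨x a, x b⟩ + f a + f b)` and
`Ψ(f,l) = log Z(f,l) - 2 ∑ ν f - l s v` for `f : A → ℝ` with `∑ ν f = 0`, and `l ≥ 0`.
(a) By `S_KER` with `c a = ν a exp (f a)` and by Jensen (`Real.inner_le_nnorm_mul_nnorm` is not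
needed; `∑ ν a exp (y a) ≥ exp (∑ ν a y a)`, convexity of `exp`), for `0 ≤ t < 1`:
`Z ≥ (exp (∑ ν (f + l t ‖x‖²/2)))² (1-t²)^(k/2) = exp (2 ∑ ν f + l t v) (1-t²)^(k/2)`, so
`Ψ(f,l) ≥ l (t - s) v + (k/2) log (1 - t²)`  (*). This is true without `∑ ν f = 0`.
(b) `Z ≥ ν a² exp (l ‖x a‖² + 2 f a) ≥ ν a² exp (2 f a)`, so `Ψ ≥ 2 f a + 2 log (ν a) - l s v`
for every `a`, if `∑ ν f = 0`.
(c) Take `t = (1+s)/2 > s` in (*): if `Ψ ≤ 0` then `l ≤ Λ`, by (b) then `f a ≤ F` for all `a`, and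
then `f a ≥ -F/ν a` by `∑ ν f = 0`. So the set of the `(f,l)` with `∑ ν f = 0`, `l ≥ 0`, `Ψ ≤ 0` is
compact, and contains `(0,0)`. Let `(f,l)` be a minimum of `Ψ` on it (`IsCompact.exists_isMinOn`); it
is a minimum for all `f` with `∑ ν f = 0`, `l ≥ 0`, and, since `Ψ(f + const, l) = Ψ(f,l)`, for all `f`
and all `l ≥ 0`.
(d) The derivative of `t ↦ Ψ(f + t e_a, l)` at `0` is `(2/Z) ∑_b ν a ν b exp (...) - 2 ν a = 0`.
(e) The derivative of `t ↦ Ψ(f, l+t)` at `0` is `E/Z - s v`, `E = ∑ ν ν exp(...) ⟨x a, x b⟩`; it is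
`≥ 0`, and `= 0` if `l > 0`.
(f) Replace `f` by `f - (log Z)/2`: then `Z = 1`, `∑_b π a b = ν a`, `∑ π ⟨,⟩ = E ≥ s v`,
`l (E - s v) = 0`, and `∑ π (l ⟨,⟩ + f + f) = l E + 2 ∑ ν f = l s v + 2 ∑ ν f = -Ψ(f,l) ≤
-(k/2) log (1-s²)` by (*) with `t = s`. -/
def S_MIN : Prop := ∀ (k : ℕ) (A : Type) [Fintype A] (x : A → EuclideanSpace ℝ (Fin k))
    (ν : A → ℝ), (∀ a, 0 < ν a) → ∑ a, ν a = 1 → 0 < ∑ a, ν a * ‖x a‖ ^ 2 →
    ∀ s : ℝ, 0 ≤ s → s < 1 → ∃ (l : ℝ) (f : A → ℝ), 0 ≤ l ∧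
      (∀ a, ∑ b, cpl x ν l f a b = ν a) ∧
      s * ∑ a, ν a * ‖x a‖ ^ 2 ≤ ∑ a, ∑ b, cpl x ν l f a b * inner ℝ (x a) (x b) ∧
      ∑ a, ∑ b, cpl x ν l f a b * (l * inner ℝ (x a) (x b) + f a + f b) ≤
        -((k : ℝ) / 2 * Real.log (1 - s ^ 2))

/-- **CHE** (60 lines; deliver `theorem che : S_CHE`). Chernoff: if the mean of `y` is positive, the
probability that a sum of `m` independent copies is `≤ 0` is exponentially small.
Proof. `h ↦ ∑ p j exp (-h y j)` has value `1` and derivative `-∑ p j y j < 0` at `0`, so it is `< 1` at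
some `h > 0`; let `q` be its value there, `q = max q 1/2` if `q` is not positive. Then
`∑_w (∏ p (w i)) [∑ y (w i) ≤ 0] ≤ ∑_w ∏ (p (w i) exp (-h y (w i))) = q^m`
(`Finset.prod_univ_sum`, `Fintype.piFinset_univ`). -/
def S_CHE : Prop := ∀ (J : Type) [Fintype J] (p y : J → ℝ), (∀ j, 0 ≤ p j) → ∑ j, p j = 1 →
    0 < ∑ j, p j * y j → ∃ q : ℝ, 0 < q ∧ q < 1 ∧ ∀ m : ℕ,
      ∑ w : Fin m → J, (if ∑ i, y (w i) ≤ 0 then ∏ i, p (w i) else 0) ≤ q ^ m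

end Pool.Agent.P8H92.KB
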