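import Pool.Agent.P8H92.KB.Ker
import Pool.Agent.P8H92.KB.Stm

/-!
# The exponential kernel inequality for finite sums
-/

set_option autoImplicit false
set_option linter.unusedSectionVars false

open MeasureTheory Real
open scoped ENNReal

namespace Pool.Agent.P8H92.KB

/-- Cauchy-Schwarz, squared -/
theorem cs2 {α : Type*} [MeasurableSpace α] (μ : Measure α) {f g : α → ℝ≥0∞} (hf : Measurable f)
    (hg : Measurable g) :
    (∫⁻ z, f z * g z ∂μ) ^ 2 ≤ (∫⁻ z, f z * f z ∂μ) * ∫⁻ z, g z * g z ∂μ := by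
  have h := ENNReal.lintegral_mul_le_Lp_mul_Lq μ Real.HolderConjugate.two_two
    hf.aemeasurable hg.aemeasurable
  simp only [Pi.mul_apply] at h
  have h2 := pow_le_pow_left' h 2
  refine h2.trans (le_of_eq ?_)
  rw [mul_pow]
  congr 1 <;>
  · rw [← ENNReal.rpow_two, ← ENNReal.rpow_mul]
    norm_num
    refine lintegral_congr fun z => ?_
    rw [sq]

variable {V : Type*} [NormedAddCommGroup V] [InnerProductSpace ℝ V] [FiniteDimensional ℝ V]
  [MeasurableSpace V] [BorelSpace V]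

/-- the vector of the Gaussian space representing the point `x` -/
noncomputable def ev (l : ℝ) (x z : V) : ℝ≥0∞ :=
  ex (-(1 / 4) * ‖z‖ ^ 2 + √l * inner ℝ x z - l * ‖x‖ ^ 2 / 2)

theorem ev_meas (l : ℝ) (x : V) : Measurable (ev l x) := by
  unfold ev
  exact measurable_ex.comp (Continuous.measurable (by fun_prop))

theorem ev_mul {l : ℝ} (hl : 0 ≤ l) (x y : V) :
    ∫⁻ z, ev l x z * ev l y z =
      ENNReal.ofReal ((π / (1 / 2)) ^ ((Module.finrank ℝ V : ℝ) / 2)) * ex (l * inner ℝ x y) := by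
  have hq2 : √l ^ 2 = l := Real.sq_sqrt hl
  have e1 : ∀ z : V, ev l x z * ev l y z =
      ex (-(1 / 2) * ‖z‖ ^ 2 + inner ℝ (√l • (x + y)) z) * ex (-(l * (‖x‖ ^ 2 + ‖y‖ ^ 2) / 2)) := by
    intro z
    unfold ev
    rw [← ex_add, ← ex_add, inner_smul_left, inner_add_left]
    congr 1
    simp only [conj_trivial]
    ring
  simp_rw [e1]
  rw [lintegral_mul_const' _ _ (ex_ne_top _), lint_gauss_lin (by norm_num : (0 : ℝ) < 1 / 2),
    mul_assoc, ← ex_add]
  congr 2
  rw [norm_smul, mul_pow, Real.norm_eq_abs, sq_abs, hq2, @norm_add_sq ℝ]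
  simp only [RCLike.re_to_real]
  ring

variable {A : Type} [Fintype A]

/-- the function of a finite measure -/
noncomputable def fn (l : ℝ) (x : A → V) (c : A → ℝ) (z : V) : ℝ≥0∞ := ∑ a, ENNReal.ofReal (c a) * ev l (x a) z

theorem fn_meas (l : ℝ) (x : A → V) (c : A → ℝ) : Measurable (fn l x c) := by
  unfold fn
  exact Finset.measurable_sum _ fun a _ => (ev_meas l (x a)).const_mul _

theorem fn_mul {l : ℝ} (hl : 0 ≤ l) (x : A → V) {c d : A → ℝ}
    (hc : ∀ a, 0 ≤ c a) (hd : ∀ a, 0 ≤ d a) :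
    ∫⁻ z, fn l x c z * fn l x d z = ENNReal.ofReal ((π / (1 / 2)) ^ ((Module.finrank ℝ V : ℝ) / 2)) *
      ENNReal.ofReal (∑ a, ∑ b, c a * d b * rexp (l * inner ℝ (x a) (x b))) := by
  have e1 : ∀ z, fn l x c z * fn l x d z = ∑ a, ∑ b,
      (ENNReal.ofReal (c a) * ENNReal.ofReal (d b)) * (ev l (x a) z * ev l (x b) z) := by
    intro z
    unfold fn
    rw [Finset.sum_mul_sum]
    refine Finset.sum_congr rfl fun a _ => Finset.sum_congr rfl fun b _ => ?_
    ring
  simp_rw [e1]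
  have hm : ∀ a b, Measurable (fun z => (ENNReal.ofReal (c a) * ENNReal.ofReal (d b)) *
      (ev l (x a) z * ev l (x b) z)) := fun a b =>
    ((ev_meas l (x a)).mul (ev_meas l (x b))).const_mul _
  rw [lintegral_finsetSum _ (fun a _ => Finset.measurable_sum _ fun b _ => hm a b)]
  rw [ENNReal.ofReal_sum_of_nonneg (fun a _ => Finset.sum_nonneg fun b _ =>
    mul_nonneg (mul_nonneg (hc a) (hd b)) (Real.exp_pos _).le), Finset.mul_sum]
  refine Finset.sum_congr rfl fun a _ => ?_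
  rw [lintegral_finsetSum _ (fun b _ => hm a b)]
  rw [ENNReal.ofReal_sum_of_nonneg (fun b _ =>
    mul_nonneg (mul_nonneg (hc a) (hd b)) (Real.exp_pos _).le), Finset.mul_sum]
  refine Finset.sum_congr rfl fun b _ => ?_
  rw [lintegral_const_mul' _ _ (ENNReal.mul_ne_top ENNReal.ofReal_ne_top ENNReal.ofReal_ne_top),
    ev_mul hl, ENNReal.ofReal_mul (mul_nonneg (hc a) (hd b)), ENNReal.ofReal_mul (hc a)]
  unfold ex
  ring

/-- Cauchy-Schwarz for the exponential kernel -/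
theorem csV (x : A → V) (c d : A → ℝ) (hc : ∀ a, 0 ≤ c a) (hd : ∀ a, 0 ≤ d a) (l : ℝ)
    (hl : 0 ≤ l) :
    (∑ a, ∑ b, c a * d b * rexp (l * inner ℝ (x a) (x b))) ^ 2 ≤
      (∑ a, ∑ b, c a * c b * rexp (l * inner ℝ (x a) (x b))) *
      (∑ a, ∑ b, d a * d b * rexp (l * inner ℝ (x a) (x b))) := by
  have h := cs2 volume (fn_meas l x c) (fn_meas l x d)
  rw [fn_mul hl x hc hd, fn_mul hl x hc hc, fn_mul hl x hd hd] at h
  set C := (π / (1 / 2)) ^ ((Module.finrank ℝ V : ℝ) / 2) with hC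
  have hC0 : 0 < C := by positivity
  have n1 : 0 ≤ ∑ a, ∑ b, c a * d b * rexp (l * inner ℝ (x a) (x b)) :=
    Finset.sum_nonneg fun a _ => Finset.sum_nonneg fun b _ =>
      mul_nonneg (mul_nonneg (hc a) (hd b)) (Real.exp_pos _).le
  have n2 : 0 ≤ ∑ a, ∑ b, c a * c b * rexp (l * inner ℝ (x a) (x b)) :=
    Finset.sum_nonneg fun a _ => Finset.sum_nonneg fun b _ =>
      mul_nonneg (mul_nonneg (hc a) (hc b)) (Real.exp_pos _).le
  have n3 : 0 ≤ ∑ a, ∑ b, d a * d b * rexp (l * inner ℝ (x a) (x b)) :=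
    Finset.sum_nonneg fun a _ => Finset.sum_nonneg fun b _ =>
      mul_nonneg (mul_nonneg (hd a) (hd b)) (Real.exp_pos _).le
  rw [← ENNReal.ofReal_mul hC0.le, ← ENNReal.ofReal_mul hC0.le, ← ENNReal.ofReal_mul hC0.le,
    ← ENNReal.ofReal_pow (by positivity), ← ENNReal.ofReal_mul (by positivity),
    ENNReal.ofReal_le_ofReal_iff (by positivity)] at h
  have h2 : C ^ 2 * (∑ a, ∑ b, c a * d b * rexp (l * inner ℝ (x a) (x b))) ^ 2 ≤
      C ^ 2 * ((∑ a, ∑ b, c a * c b * rexp (l * inner ℝ (x a) (x b))) *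
      (∑ a, ∑ b, d a * d b * rexp (l * inner ℝ (x a) (x b)))) := by
    calc _ = (C * ∑ a, ∑ b, c a * d b * rexp (l * inner ℝ (x a) (x b))) ^ 2 := by ring
      _ ≤ _ := h
      _ = _ := by ring
  exact le_of_mul_le_mul_left h2 (by positivity)

theorem cs : S_CS := fun _ _ _ x c d hc hd l hl => csV x c d hc hd l hl

theorem ker : S_KER := by
  intro k A _ x c hc l t hl ht0 ht
  set β := t / (1 + t) with hβ
  have h1a : 0 < 1 + t := by linarith
  have hβ0 : 0 ≤ β := by positivity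
  have hβ1 : β < 1 / 2 := by
    rw [hβ, div_lt_div_iff₀ h1a (by norm_num)]
    linarith
  have e1 : 1 - β = 1 / (1 + t) := by rw [hβ]; field_simp; ring
  have e2 : 1 - 2 * β = (1 - t) / (1 + t) := by rw [hβ]; field_simp; ring
  have h1a' : 0 < 1 - t := by linarith
  have hβ' : 0 < 1 - β := by rw [e1]; positivity
  have hβ'' : 0 < 1 - 2 * β := by rw [e2]; positivity
  have hq2 : √l ^ 2 = l := Real.sq_sqrt hl
  set g : EuclideanSpace ℝ (Fin k) → ℝ≥0∞ := fun z => ex ((β / 2 - 1 / 4) * ‖z‖ ^ 2) with hg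
  have hgm : Measurable g := measurable_ex.comp (Continuous.measurable (by fun_prop))
  have h := cs2 volume (fn_meas l x c) hgm
  have hgg : ∫⁻ z, g z * g z = ENNReal.ofReal ((π / ((1 - 2 * β) / 2)) ^ ((k : ℝ) / 2)) := by
    have := lint_gauss (V := EuclideanSpace ℝ (Fin k)) (by linarith : 0 < (1 - 2 * β) / 2)
    rw [finrank_euclideanSpace, Fintype.card_fin] at this
    rw [← this]
    refine lintegral_congr fun z => ?_
    rw [hg]
    simp only
    rw [← ex_add]
    congr 1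
    ring
  have heg : ∀ y : EuclideanSpace ℝ (Fin k), ∫⁻ z, ev l y z * g z =
      ENNReal.ofReal ((π / ((1 - β) / 2)) ^ ((k : ℝ) / 2)) * ex (l * t * ‖y‖ ^ 2 / 2) := by
    intro y
    have e3 : ∀ z : EuclideanSpace ℝ (Fin k), ev l y z * g z =
        ex (-((1 - β) / 2) * ‖z‖ ^ 2 + inner ℝ (√l • y) z) * ex (-(l * ‖y‖ ^ 2 / 2)) := by
      intro z
      unfold ev
      rw [hg]
      simp only
      rw [← ex_add, ← ex_add, inner_smul_left]
      congr 1
      simp only [conj_trivial]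
      ring
    simp_rw [e3]
    rw [lintegral_mul_const' _ _ (ex_ne_top _), lint_gauss_lin (by linarith : 0 < (1 - β) / 2),
      mul_assoc, ← ex_add, finrank_euclideanSpace, Fintype.card_fin]
    congr 2
    rw [norm_smul, mul_pow, Real.norm_eq_abs, sq_abs, hq2]
    rw [e1]
    field_simp
    ring
  have hfg : ∫⁻ z, fn l x c z * g z = ENNReal.ofReal ((π / ((1 - β) / 2)) ^ ((k : ℝ) / 2)) *
      ENNReal.ofReal (∑ a, c a * rexp (l * t * ‖x a‖ ^ 2 / 2)) := by
    have e4 : ∀ z, fn l x c z * g z = ∑ a, ENNReal.ofReal (c a) * (ev l (x a) z * g z) := by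
      intro z
      unfold fn
      rw [Finset.sum_mul]
      refine Finset.sum_congr rfl fun a _ => ?_
      ring
    simp_rw [e4]
    have hm : ∀ a, Measurable (fun z => ENNReal.ofReal (c a) * (ev l (x a) z * g z)) := fun a =>
      ((ev_meas l (x a)).mul hgm).const_mul _
    rw [lintegral_finsetSum _ (fun a _ => hm a),
      ENNReal.ofReal_sum_of_nonneg (fun a _ => mul_nonneg (hc a) (Real.exp_pos _).le),
      Finset.mul_sum]
    refine Finset.sum_congr rfl fun a _ => ?_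
    rw [lintegral_const_mul' _ _ ENNReal.ofReal_ne_top, heg, ENNReal.ofReal_mul (hc a)]
    unfold ex
    ring
  rw [hfg, hgg, fn_mul hl x hc hc, finrank_euclideanSpace, Fintype.card_fin] at h
  set K := (k : ℝ) / 2 with hK
  have hK0 : 0 ≤ K := by positivity
  set B := ∑ a, c a * rexp (l * t * ‖x a‖ ^ 2 / 2) with hB
  set J := ∑ a, ∑ b, c a * c b * rexp (l * inner ℝ (x a) (x b)) with hJ
  have nB : 0 ≤ B := Finset.sum_nonneg fun a _ => mul_nonneg (hc a) (Real.exp_pos _).le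
  have nJ : 0 ≤ J := Finset.sum_nonneg fun a _ => Finset.sum_nonneg fun b _ =>
      mul_nonneg (mul_nonneg (hc a) (hc b)) (Real.exp_pos _).le
  rw [← ENNReal.ofReal_mul (by positivity), ← ENNReal.ofReal_mul (by positivity),
    ← ENNReal.ofReal_pow (by positivity), ← ENNReal.ofReal_mul (by positivity),
    ENNReal.ofReal_le_ofReal_iff (by positivity)] at h
  have hs2 : 0 < 1 - t ^ 2 := by nlinarith
  have p1 : (π / ((1 - β) / 2)) ^ K * (π / ((1 - β) / 2)) ^ K =
      (π / (1 / 2)) ^ K * (π / ((1 - 2 * β) / 2)) ^ K * (1 - t ^ 2) ^ K := by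
    rw [← Real.mul_rpow (by positivity) (by positivity),
      ← Real.mul_rpow (by positivity) (by positivity),
      ← Real.mul_rpow (by positivity) (by positivity)]
    congr 1
    rw [e1, e2]
    field_simp
    ring
  set c0 := (π / (1 / 2)) ^ K * (π / ((1 - 2 * β) / 2)) ^ K with hc0
  have hc0p : 0 < c0 := by positivity
  have h2 : c0 * (B ^ 2 * (1 - t ^ 2) ^ K) ≤ c0 * J := by
    calc c0 * (B ^ 2 * (1 - t ^ 2) ^ K) = (c0 * (1 - t ^ 2) ^ K) * B ^ 2 := by ring
      _ = ((π / ((1 - β) / 2)) ^ K * (π / ((1 - β) / 2)) ^ K) * B ^ 2 := by rw [p1]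
      _ = ((π / ((1 - β) / 2)) ^ K * B) ^ 2 := by ring
      _ ≤ _ := h
      _ = c0 * J := by rw [hc0]; ring
  exact le_of_mul_le_mul_left h2 hc0p

end Pool.Agent.P8H92.KB
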