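import Pool.Agent.P8H92.KB.Ker2

/-!
# The exponential kernel inequality for arbitrary laws
-/

set_option autoImplicit false
set_option linter.unusedSectionVars false

open MeasureTheory ProbabilityTheory Real
open scoped ENNReal

namespace Pool.Agent.P8H92.KB

variable {V : Type*} [NormedAddCommGroup V] [InnerProductSpace ℝ V] [FiniteDimensional ℝ V]
  [MeasurableSpace V] [BorelSpace V]

/-- The statistic of a pair of vectors: positive if the angle is small. -/
noncomputable def zst (s : ℝ) (p : V × V) : ℝ :=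
  inner ℝ p.1 p.2 - s * (‖p.1‖ ^ 2 + ‖p.2‖ ^ 2) / 2

theorem zst_cont (s : ℝ) : Continuous (zst (V := V) s) := by
  unfold zst
  fun_prop

theorem kernelW (μ : Measure V) [IsProbabilityMeasure μ] {l a s : ℝ} (hl : 0 ≤ l) (ha0 : 0 ≤ a)
    (ha : a < 1) :
    (∫⁻ x, ex (l * (a - s) * ‖x‖ ^ 2 / 2) ∂μ) ^ 2 *
      ENNReal.ofReal ((1 - a ^ 2) ^ ((Module.finrank ℝ V : ℝ) / 2)) ≤
      ∫⁻ p, ex (l * zst s p) ∂(μ.prod μ) := by
  set β := a / (1 + a) with hβ
  have h1a : 0 < 1 + a := by linarith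
  have hβ0 : 0 ≤ β := by positivity
  have hβ1 : β < 1 / 2 := by
    rw [hβ, div_lt_div_iff₀ h1a (by norm_num)]
    linarith
  have e1 : 1 - β = 1 / (1 + a) := by rw [hβ]; field_simp; ring
  have e2 : 1 - 2 * β = (1 - a) / (1 + a) := by rw [hβ]; field_simp; ring
  have h1a' : 0 < 1 - a := by linarith
  have hβ' : 0 < 1 - β := by rw [e1]; positivity
  have hβ'' : 0 < 1 - 2 * β := by rw [e2]; positivity
  set q := √l with hq
  have hq2 : q ^ 2 = l := Real.sq_sqrt hl
  have hinv : 1 / (1 - β) = 1 + a := by rw [e1]; field_simp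
  -- the function F
  set F : V → ℝ≥0∞ := fun z =>
    ∫⁻ x, ex (-(1 / 4) * ‖z‖ ^ 2 + q * inner ℝ x z - l * (1 + s) * ‖x‖ ^ 2 / 2) ∂μ with hF
  have hm2 : Measurable (fun p : V × V =>
      ex (-(1 / 4) * ‖p.1‖ ^ 2 + q * inner ℝ p.2 p.1 - l * (1 + s) * ‖p.2‖ ^ 2 / 2)) :=
    measurable_ex.comp (Continuous.measurable (by fun_prop))
  have hFm : Measurable F := hm2.lintegral_prod_right'
  set g : V → ℝ≥0∞ := fun z => ex ((β / 2 - 1 / 4) * ‖z‖ ^ 2) with hg
  have hgm : Measurable g := measurable_ex.comp (Continuous.measurable (by fun_prop))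
  have hx1 : ∀ z : V, Measurable (fun x : V =>
      ex (-(1 / 4) * ‖z‖ ^ 2 + q * inner ℝ x z - l * (1 + s) * ‖x‖ ^ 2 / 2)) := fun z =>
    measurable_ex.comp (Continuous.measurable (by fun_prop))
  have hCS := cs2 volume hFm hgm
  have hgg : ∫⁻ z, g z * g z =
      ENNReal.ofReal ((π / ((1 - 2 * β) / 2)) ^ ((Module.finrank ℝ V : ℝ) / 2)) := by
    have := lint_gauss (V := V) (by linarith : 0 < (1 - 2 * β) / 2)
    rw [← this]
    refine lintegral_congr fun z => ?_
    rw [hg]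
    simp only
    rw [← ex_add]
    congr 1
    ring
  have hL : ∫⁻ z : V, F z * g z =
      ENNReal.ofReal ((π / ((1 - β) / 2)) ^ ((Module.finrank ℝ V : ℝ) / 2)) *
      ∫⁻ x, ex (l * (a - s) * ‖x‖ ^ 2 / 2) ∂μ := by
    have e3 : ∀ z : V, F z * g z =
      ∫⁻ x, ex (-((1 - β) / 2) * ‖z‖ ^ 2 + inner ℝ (q • x) z) *
        ex (-(l * (1 + s) * ‖x‖ ^ 2 / 2)) ∂μ := by
      intro z
      rw [hF, hg]
      simp only
      rw [← lintegral_mul_const' _ _ (ex_ne_top _)]
      refine lintegral_congr fun x => ?_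
      rw [← ex_add, ← ex_add, inner_smul_left]
      congr 1
      simp only [conj_trivial]
      ring
    simp_rw [e3]
    rw [lintegral_lintegral_swap]
    · rw [← lintegral_const_mul' _ _ ENNReal.ofReal_ne_top]
      refine lintegral_congr fun x => ?_
      rw [lintegral_mul_const' _ _ (ex_ne_top _),
        lint_gauss_lin (by linarith : 0 < (1 - β) / 2), mul_assoc, ← ex_add]
      congr 2
      rw [norm_smul, mul_pow, Real.norm_eq_abs, sq_abs, hq2]
      have : l * ‖x‖ ^ 2 / (4 * ((1 - β) / 2)) = l * ‖x‖ ^ 2 / 2 * (1 / (1 - β)) := by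
        field_simp
        ring
      rw [this, hinv]
      ring
    · have m1 : Measurable (fun p : V × V => ex (-((1 - β) / 2) * ‖p.1‖ ^ 2 +
          inner ℝ (q • p.2) p.1)) := measurable_ex.comp (Continuous.measurable (by fun_prop))
      have m2 : Measurable (fun p : V × V => ex (-(l * (1 + s) * ‖p.2‖ ^ 2 / 2))) :=
        measurable_ex.comp (Continuous.measurable (by fun_prop))
      exact (m1.mul m2).aemeasurable
  have hA : ∫⁻ z : V, F z * F z =
      ENNReal.ofReal ((π / (1 / 2)) ^ ((Module.finrank ℝ V : ℝ) / 2)) *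
      ∫⁻ p, ex (l * zst s p) ∂(μ.prod μ) := by
    have e3 : ∀ z : V, F z * F z = ∫⁻ p : V × V,
        ex (-(1 / 2) * ‖z‖ ^ 2 + inner ℝ (q • (p.1 + p.2)) z) *
          ex (-(l * (1 + s) * (‖p.1‖ ^ 2 + ‖p.2‖ ^ 2) / 2)) ∂(μ.prod μ) := by
      intro z
      have hm4 : Measurable (fun p : V × V =>
          ex (-(1 / 2) * ‖z‖ ^ 2 + inner ℝ (q • (p.1 + p.2)) z) *
          ex (-(l * (1 + s) * (‖p.1‖ ^ 2 + ‖p.2‖ ^ 2) / 2))) := by
        have m1 : Measurable (fun p : V × V =>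
          ex (-(1 / 2) * ‖z‖ ^ 2 + inner ℝ (q • (p.1 + p.2)) z)) :=
          measurable_ex.comp (Continuous.measurable (by fun_prop))
        have m2 : Measurable (fun p : V × V =>
          ex (-(l * (1 + s) * (‖p.1‖ ^ 2 + ‖p.2‖ ^ 2) / 2))) :=
          measurable_ex.comp (Continuous.measurable (by fun_prop))
        exact m1.mul m2
      rw [lintegral_prod _ hm4.aemeasurable]
      have e4 : F z * F z = ∫⁻ x, ex (-(1 / 4) * ‖z‖ ^ 2 + q * inner ℝ x z -
          l * (1 + s) * ‖x‖ ^ 2 / 2) * F z ∂μ := by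
        rw [lintegral_mul_const _ (hx1 z)]
      rw [e4]
      refine lintegral_congr fun x => ?_
      rw [hF]
      simp only
      rw [← lintegral_const_mul' _ _ (ex_ne_top _)]
      refine lintegral_congr fun y => ?_
      rw [← ex_add, ← ex_add, inner_smul_left, inner_add_left]
      congr 1
      simp only [conj_trivial]
      ring
    simp_rw [e3]
    rw [lintegral_lintegral_swap]
    · rw [← lintegral_const_mul' _ _ ENNReal.ofReal_ne_top]
      refine lintegral_congr fun p => ?_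
      rw [lintegral_mul_const' _ _ (ex_ne_top _),
        lint_gauss_lin (by norm_num : (0 : ℝ) < 1 / 2), mul_assoc, ← ex_add]
      congr 2
      unfold zst
      rw [norm_smul, mul_pow, Real.norm_eq_abs, sq_abs, hq2, @norm_add_sq ℝ]
      simp only [RCLike.re_to_real]
      ring
    · have m1 : Measurable (fun p : V × (V × V) =>
          ex (-(1 / 2) * ‖p.1‖ ^ 2 + inner ℝ (q • (p.2.1 + p.2.2)) p.1)) :=
          measurable_ex.comp (Continuous.measurable (by fun_prop))
      have m2 : Measurable (fun p : V × (V × V) =>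
          ex (-(l * (1 + s) * (‖p.2.1‖ ^ 2 + ‖p.2.2‖ ^ 2) / 2))) :=
          measurable_ex.comp (Continuous.measurable (by fun_prop))
      exact (m1.mul m2).aemeasurable
  rw [hL, hA, hgg] at hCS
  set k := (Module.finrank ℝ V : ℝ) / 2 with hk
  have hk0 : 0 ≤ k := by positivity
  set B := ∫⁻ x, ex (l * (a - s) * ‖x‖ ^ 2 / 2) ∂μ with hB
  set J := ∫⁻ p, ex (l * zst s p) ∂(μ.prod μ) with hJ
  set c : ℝ≥0∞ := ENNReal.ofReal ((π / (1 / 2)) ^ k) *
    ENNReal.ofReal ((π / ((1 - 2 * β) / 2)) ^ k) with hc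
  have hc0 : c ≠ 0 := by
    rw [hc]
    refine mul_ne_zero ?_ ?_ <;>
    · rw [Ne, ENNReal.ofReal_eq_zero, not_le]
      positivity
  have hct : c ≠ ⊤ := by
    rw [hc]
    exact ENNReal.mul_ne_top ENNReal.ofReal_ne_top ENNReal.ofReal_ne_top
  have hs2 : 0 < 1 - a ^ 2 := by nlinarith
  have hleft : (ENNReal.ofReal ((π / ((1 - β) / 2)) ^ k) * B) ^ 2 =
      c * (B ^ 2 * ENNReal.ofReal ((1 - a ^ 2) ^ k)) := by
    have p1 : (π / ((1 - β) / 2)) ^ k * (π / ((1 - β) / 2)) ^ k =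
        (π / (1 / 2)) ^ k * (π / ((1 - 2 * β) / 2)) ^ k * (1 - a ^ 2) ^ k := by
      rw [← Real.mul_rpow (by positivity) (by positivity),
        ← Real.mul_rpow (by positivity) (by positivity),
        ← Real.mul_rpow (by positivity) (by positivity)]
      congr 1
      rw [e1, e2]
      field_simp
      ring
    have p2 : ENNReal.ofReal ((π / ((1 - β) / 2)) ^ k) *
        ENNReal.ofReal ((π / ((1 - β) / 2)) ^ k) = c * ENNReal.ofReal ((1 - a ^ 2) ^ k) := by
      rw [hc, ← ENNReal.ofReal_mul (by positivity), p1, ENNReal.ofReal_mul (by positivity),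
        ENNReal.ofReal_mul (by positivity)]
    calc (ENNReal.ofReal ((π / ((1 - β) / 2)) ^ k) * B) ^ 2
        = (ENNReal.ofReal ((π / ((1 - β) / 2)) ^ k) *
          ENNReal.ofReal ((π / ((1 - β) / 2)) ^ k)) * B ^ 2 := by ring
      _ = _ := by rw [p2]; ring
  rw [hleft] at hCS
  have h' : c * (B ^ 2 * ENNReal.ofReal ((1 - a ^ 2) ^ k)) ≤ c * J := by
    refine hCS.trans (le_of_eq ?_)
    rw [hc]
    ring
  exact (ENNReal.mul_le_mul_iff_right hc0 hct).1 h'

/-- The cumulant generating function of the statistic, from below. -/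
theorem cgf_zst (μ : Measure V) [IsProbabilityMeasure μ] {R : ℝ} (hR : ∀ᵐ x ∂μ, ‖x‖ ^ 2 ≤ R)
    {l a s : ℝ} (hl : 0 ≤ l) (ha0 : 0 ≤ a) (ha : a < 1) (hsa : s ≤ a) :
    l * (a - s) * ∫ x, ‖x‖ ^ 2 ∂μ + (Module.finrank ℝ V : ℝ) / 2 * Real.log (1 - a ^ 2) ≤
      cgf (zst s) (μ.prod μ) l := by
  have hs2 : 0 < 1 - a ^ 2 := by nlinarith
  have hc : 0 ≤ l * (a - s) / 2 := by
    have : 0 ≤ a - s := by linarith
    positivity
  -- integrability
  have hm : AEStronglyMeasurable (fun x : V => ‖x‖ ^ 2) μ :=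
    (Continuous.aestronglyMeasurable (by fun_prop))
  have hint : Integrable (fun x : V => ‖x‖ ^ 2) μ := by
    refine Integrable.of_bound hm R ?_
    filter_upwards [hR] with x hx
    rw [Real.norm_eq_abs, abs_of_nonneg (by positivity)]
    exact hx
  have hint2 : Integrable (fun x : V => rexp (l * (a - s) * ‖x‖ ^ 2 / 2)) μ := by
    refine Integrable.of_bound (Continuous.aestronglyMeasurable (by fun_prop))
      (rexp (l * (a - s) / 2 * R)) ?_
    filter_upwards [hR] with x hx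
    rw [Real.norm_eq_abs, abs_of_nonneg (Real.exp_pos _).le]
    apply Real.exp_le_exp.2
    have := mul_le_mul_of_nonneg_left hx hc
    linarith
  -- Jensen
  have hJ : rexp (l * (a - s) * (∫ x, ‖x‖ ^ 2 ∂μ) / 2) ≤
      ∫ x, rexp (l * (a - s) * ‖x‖ ^ 2 / 2) ∂μ := by
    have h := ConvexOn.map_integral_le (μ := μ) (f := fun x : V => l * (a - s) * ‖x‖ ^ 2 / 2)
      convexOn_exp Real.continuous_exp.continuousOn isClosed_univ (ae_of_all _ fun _ => trivial)
      ((hint.const_mul (l * (a - s))).div_const 2) hint2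
    rw [integral_div, integral_const_mul] at h
    exact h
  have hB : ∫⁻ x, ex (l * (a - s) * ‖x‖ ^ 2 / 2) ∂μ =
      ENNReal.ofReal (∫ x, rexp (l * (a - s) * ‖x‖ ^ 2 / 2) ∂μ) := by
    rw [ofReal_integral_eq_lintegral_ofReal hint2 (ae_of_all _ fun _ => (Real.exp_pos _).le)]
    rfl
  -- the exponential of the statistic is integrable
  have hzint : Integrable (fun p : V × V => rexp (l * zst s p)) (μ.prod μ) := by
    refine Integrable.of_bound (Continuous.aestronglyMeasurable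
      (Real.continuous_exp.comp (continuous_const.mul (zst_cont s))))
      (rexp (l * (R + |s| * R))) ?_
    have h1 : ∀ᵐ p : V × V ∂(μ.prod μ), ‖p.1‖ ^ 2 ≤ R := Measure.quasiMeasurePreserving_fst.ae hR
    have h2 : ∀ᵐ p : V × V ∂(μ.prod μ), ‖p.2‖ ^ 2 ≤ R := Measure.quasiMeasurePreserving_snd.ae hR
    filter_upwards [h1, h2] with p hp1 hp2
    rw [Real.norm_eq_abs, abs_of_nonneg (Real.exp_pos _).le]
    apply Real.exp_le_exp.2
    refine mul_le_mul_of_nonneg_left ?_ hl
    unfold zst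
    have h3 := real_inner_le_norm p.1 p.2
    have h4 : ‖p.1‖ * ‖p.2‖ ≤ R := by nlinarith [sq_nonneg (‖p.1‖ - ‖p.2‖)]
    have h5 : -(s * (‖p.1‖ ^ 2 + ‖p.2‖ ^ 2) / 2) ≤ |s| * R := by
      have h6 := neg_abs_le s
      have h7 : 0 ≤ ‖p.1‖ ^ 2 + ‖p.2‖ ^ 2 := by positivity
      have h8 := abs_nonneg s
      nlinarith
    linarith
  have hK := kernelW μ hl ha0 ha (s := s)
  have hmgf : ∫⁻ p, ex (l * zst s p) ∂(μ.prod μ) = ENNReal.ofReal (mgf (zst s) (μ.prod μ) l) := by
    unfold mgf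
    rw [ofReal_integral_eq_lintegral_ofReal hzint (ae_of_all _ fun _ => (Real.exp_pos _).le)]
    rfl
  rw [hmgf, hB] at hK
  have hI0 : 0 ≤ ∫ x, rexp (l * (a - s) * ‖x‖ ^ 2 / 2) ∂μ :=
    integral_nonneg fun _ => (Real.exp_pos _).le
  rw [← ENNReal.ofReal_pow hI0, ← ENNReal.ofReal_mul (by positivity),
    ENNReal.ofReal_le_ofReal_iff mgf_nonneg] at hK
  have h9 : rexp (l * (a - s) * ∫ x, ‖x‖ ^ 2 ∂μ) * (1 - a ^ 2) ^ ((Module.finrank ℝ V : ℝ) / 2) ≤
      mgf (zst s) (μ.prod μ) l := by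
    refine le_trans ?_ hK
    gcongr
    have : rexp (l * (a - s) * ∫ x, ‖x‖ ^ 2 ∂μ) =
        rexp (l * (a - s) * (∫ x, ‖x‖ ^ 2 ∂μ) / 2) ^ 2 := by
      rw [← Real.exp_nat_mul]
      congr 1
      push_cast
      ring
    rw [this]
    gcongr
  have h10 := Real.log_le_log (by positivity) h9
  rw [Real.log_mul (Real.exp_pos _).ne' (Real.rpow_pos_of_pos hs2 _).ne', Real.log_exp,
    Real.log_rpow hs2] at h10
  exact h10

end Pool.Agent.P8H92.KB
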