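import Pool.Agent.P8H92.KB.Fin

/-!
# The robust random coding barrier
-/

set_option autoImplicit false
set_option linter.unusedSectionVars false

open Real Finset

namespace Pool.Agent.P8H92.KB

variable {k : ℕ} {A : Type} [Fintype A]

theorem ip_self_nonneg (x : A → EuclideanSpace ℝ (Fin k)) {m : ℕ} (u : Fin m → A) :
    0 ≤ ip x u u := by
  rw [← inner_vec]
  exact real_inner_self_nonneg

/-- A sufficient condition for a small angle. -/
theorem close_of (x : A → EuclideanSpace ℝ (Fin k)) {θ : ℝ} (hθ : 0 ≤ Real.cos θ) {m : ℕ}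
    (u w : Fin m → A)
    (h : 0 < ∑ i, (inner ℝ (x (u i)) (x (w i)) -
      Real.cos θ * (‖x (u i)‖ ^ 2 + ‖x (w i)‖ ^ 2) / 2)) : Close x θ u w := by
  unfold Close
  have e1 : ∑ i, (inner ℝ (x (u i)) (x (w i)) -
      Real.cos θ * (‖x (u i)‖ ^ 2 + ‖x (w i)‖ ^ 2) / 2) =
      ip x u w - Real.cos θ * ((ip x u u + ip x w w) / 2) := by
    unfold ip
    rw [Finset.sum_sub_distrib, ← Finset.sum_add_distrib, Finset.sum_div, Finset.mul_sum]
    congr 1
    refine Finset.sum_congr rfl fun i _ => ?_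
    rw [real_inner_self_eq_norm_sq, real_inner_self_eq_norm_sq]
    ring
  rw [e1] at h
  have h2 : √(ip x u u) * √(ip x w w) ≤ (ip x u u + ip x w w) / 2 := by
    have a1 := Real.sq_sqrt (ip_self_nonneg x u)
    have a2 := Real.sq_sqrt (ip_self_nonneg x w)
    nlinarith [sq_nonneg (√(ip x u u) - √(ip x w w))]
  have h3 := mul_le_mul_of_nonneg_left h2 hθ
  linarith

set_option maxHeartbeats 1000000 in
open Classical in
theorem robust (hmin : S_MIN) (hche : S_CHE) (k : ℕ) (A : Type) [Fintype A]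
    (x : A → EuclideanSpace ℝ (Fin k)) (ν : A → ℝ) (hν : ∀ a, 0 < ν a) (h1 : ∑ a, ν a = 1)
    (hx : ∃ a, x a ≠ 0) (θ δ : ℝ) (hθ0 : 0 < θ) (hθ1 : θ < π / 2) (hδ : 0 < δ) :
    ∃ c : ℝ, 0 < c ∧ ∃ m0 : ℕ, ∀ m ≥ m0, ∀ D : Finset (Fin m → A),
      rexp (-(c * m)) ≤ ∑ u ∈ D, wt ν u →
      Real.sin θ ^ ((1 + δ) * (k * m)) ≤
        ∑ u ∈ D, ∑ w ∈ D, (if Close x θ u w then wt ν u * wt ν w else 0) := by
  set v := ∑ a, ν a * ‖x a‖ ^ 2 with hv
  have hv0 : 0 < v := by
    obtain ⟨a, ha⟩ := hx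
    refine Finset.sum_pos' (fun b _ => mul_nonneg (hν b).le (sq_nonneg _)) ⟨a, mem_univ a, ?_⟩
    exact mul_pos (hν a) (by positivity)
  have hk : 0 < (k : ℝ) := by
    rcases Nat.eq_zero_or_pos k with h | h
    · exfalso
      subst h
      obtain ⟨a, ha⟩ := hx
      exact ha (Subsingleton.elim _ _)
    · exact_mod_cast h
  set s := Real.cos θ with hs
  have hs0 : 0 < s := Real.cos_pos_of_mem_Ioo ⟨by linarith, hθ1⟩
  have hsin0 : 0 < Real.sin θ := Real.sin_pos_of_pos_of_lt_pi hθ0 (by linarith [Real.pi_pos])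
  have hsin1 : Real.sin θ < 1 := by
    nlinarith [Real.sin_sq_add_cos_sq θ, Real.sin_le_one θ]
  have hlog : Real.log (Real.sin θ) < 0 := Real.log_neg hsin0 hsin1
  set W := -((k : ℝ) * Real.log (Real.sin θ)) with hW
  have hW0 : 0 < W := by rw [hW]; nlinarith
  -- the level t
  set t := √(1 - Real.sin θ ^ (2 * (1 + δ / 3))) with ht
  have hpow1 : Real.sin θ ^ (2 * (1 + δ / 3)) < Real.sin θ ^ (2 : ℝ) :=
    Real.rpow_lt_rpow_of_exponent_gt hsin0 hsin1 (by linarith)
  have hpow0 : 0 < Real.sin θ ^ (2 * (1 + δ / 3)) := Real.rpow_pos_of_pos hsin0 _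
  have hsin2 : Real.sin θ ^ (2 : ℝ) = 1 - s ^ 2 := by
    rw [Real.rpow_two]
    have := Real.sin_sq_add_cos_sq θ
    rw [hs]
    linarith
  have ht2 : t ^ 2 = 1 - Real.sin θ ^ (2 * (1 + δ / 3)) := by
    rw [ht, Real.sq_sqrt]
    nlinarith
  have ht0 : 0 ≤ t := Real.sqrt_nonneg _
  have hst : s < t := by
    rw [ht]
    apply Real.lt_sqrt_of_sq_lt
    linarith
  have ht1 : t < 1 := by nlinarith
  obtain ⟨l, f, hl, hmarg, hE, hH⟩ := hmin k A x ν hν h1 hv0 t ht0 ht1
  have hH' : -((k : ℝ) / 2 * Real.log (1 - t ^ 2)) = (1 + δ / 3) * W := by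
    rw [ht2, sub_sub_cancel, Real.log_rpow hsin0, hW]
    ring
  rw [hH'] at hH
  have hcp : ∀ a b, 0 ≤ cpl x ν l f a b := fun a b =>
    mul_nonneg (mul_nonneg (hν a).le (hν b).le) (Real.exp_pos _).le
  have hsymm : ∀ b, ∑ a, cpl x ν l f a b = ν b := by
    intro b
    rw [← hmarg b]
    refine Finset.sum_congr rfl fun a _ => ?_
    unfold cpl
    rw [real_inner_comm, mul_comm (ν a) (ν b)]
    congr 2
    ring
  have htot : ∑ a, ∑ b, cpl x ν l f a b = 1 := by simp_rw [hmarg]; exact h1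
  -- the two events
  have hy1 : 0 < ∑ a, ∑ b, cpl x ν l f a b *
      (inner ℝ (x a) (x b) - s * (‖x a‖ ^ 2 + ‖x b‖ ^ 2) / 2) := by
    have e1 : ∑ a, ∑ b, cpl x ν l f a b *
        (inner ℝ (x a) (x b) - s * (‖x a‖ ^ 2 + ‖x b‖ ^ 2) / 2) =
        ∑ a, ∑ b, cpl x ν l f a b * inner ℝ (x a) (x b) -
          (s / 2 * ∑ a, ∑ b, cpl x ν l f a b * ‖x a‖ ^ 2 +
            s / 2 * ∑ a, ∑ b, cpl x ν l f a b * ‖x b‖ ^ 2) := by
      rw [Finset.mul_sum, Finset.mul_sum, ← Finset.sum_add_distrib, ← Finset.sum_sub_distrib]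
      refine Finset.sum_congr rfl fun a _ => ?_
      rw [Finset.mul_sum, Finset.mul_sum, ← Finset.sum_add_distrib, ← Finset.sum_sub_distrib]
      refine Finset.sum_congr rfl fun b _ => ?_
      ring
    have e2 : ∑ a, ∑ b, cpl x ν l f a b * ‖x a‖ ^ 2 = v := by
      rw [hv]
      refine Finset.sum_congr rfl fun a _ => ?_
      rw [← Finset.sum_mul, hmarg]
    have e3 : ∑ a, ∑ b, cpl x ν l f a b * ‖x b‖ ^ 2 = v := by
      rw [Finset.sum_comm, hv]
      refine Finset.sum_congr rfl fun b _ => ?_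
      rw [← Finset.sum_mul, hsymm]
    rw [e1, e2, e3]
    nlinarith
  set η := δ / 3 * W with hη
  have hη0 : 0 < η := by positivity
  have hy2 : 0 < ∑ a, ∑ b, cpl x ν l f a b *
      ((1 + δ / 3) * W + η - (l * inner ℝ (x a) (x b) + f a + f b)) := by
    have e1 : ∑ a, ∑ b, cpl x ν l f a b *
      ((1 + δ / 3) * W + η - (l * inner ℝ (x a) (x b) + f a + f b)) =
      ((1 + δ / 3) * W + η) * ∑ a, ∑ b, cpl x ν l f a b -
        ∑ a, ∑ b, cpl x ν l f a b * (l * inner ℝ (x a) (x b) + f a + f b) := by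
      rw [Finset.mul_sum, ← Finset.sum_sub_distrib]
      refine Finset.sum_congr rfl fun a _ => ?_
      rw [Finset.mul_sum, ← Finset.sum_sub_distrib]
      refine Finset.sum_congr rfl fun b _ => ?_
      ring
    rw [e1, htot]
    linarith
  obtain ⟨q1, hq10, hq11, hq1⟩ := Cp_che hche hν h1 hmarg _ hy1
  obtain ⟨q2, hq20, hq21, hq2⟩ := Cp_che hche hν h1 hmarg _ hy2
  -- the constant
  set q := max q1 q2 with hq
  have hq0 : 0 < q := lt_max_of_lt_left hq10
  have hqlt : q < 1 := max_lt hq11 hq21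
  have hlogq : Real.log q < 0 := Real.log_neg hq0 hqlt
  set c := min (-Real.log q / 4) (δ * W / 12) with hc
  have hc0 : 0 < c := lt_min (by linarith) (by positivity)
  have hc1 : 4 * c ≤ -Real.log q := by
    have := min_le_left (-Real.log q / 4) (δ * W / 12)
    linarith
  have hc2 : 4 * c ≤ δ * W / 3 := by
    have := min_le_right (-Real.log q / 4) (δ * W / 12)
    linarith
  obtain ⟨m0, hm0⟩ := exists_nat_gt (Real.log 4 / (2 * c))
  refine ⟨c, hc0, m0, fun m hm D hD => ?_⟩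
  have hmR : Real.log 4 ≤ 2 * c * m := by
    have h2 : (m0 : ℝ) ≤ m := by exact_mod_cast hm
    rw [div_lt_iff₀ (by positivity)] at hm0
    nlinarith
  -- the sum
  set L : (Fin m → A) → (Fin m → A) → ℝ := fun u w =>
    ∑ i, (l * inner ℝ (x (u i)) (x (w i)) + f (u i) + f (w i)) with hL
  set Y1 : (Fin m → A) → (Fin m → A) → ℝ := fun u w => ∑ i, (inner ℝ (x (u i)) (x (w i)) -
    s * (‖x (u i)‖ ^ 2 + ‖x (w i)‖ ^ 2) / 2) with hY1
  set Y2 : (Fin m → A) → (Fin m → A) → ℝ := fun u w => ∑ i, ((1 + δ / 3) * W + η -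
    (l * inner ℝ (x (u i)) (x (w i)) + f (u i) + f (w i))) with hY2
  have hY2' : ∀ u w, Y2 u w = m * ((1 + δ / 3) * W + η) - L u w := by
    intro u w
    rw [hY2, hL]
    simp only
    rw [Finset.sum_sub_distrib]
    simp only [Finset.sum_const, Finset.card_univ, Fintype.card_fin, nsmul_eq_mul]
  have hwt : ∀ u : Fin m → A, 0 ≤ wt ν u := fun u => Finset.prod_nonneg fun i _ => (hν _).le
  have hpt : ∀ u w : Fin m → A, rexp (-(m * ((1 + δ / 3) * W + η))) * (Cp x ν l f u w -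
      (if Y1 u w ≤ 0 then Cp x ν l f u w else 0) - (if Y2 u w ≤ 0 then Cp x ν l f u w else 0)) ≤
      (if Close x θ u w then wt ν u * wt ν w else 0) := by
    intro u w
    have hC0 : 0 ≤ Cp x ν l f u w := Finset.prod_nonneg fun i _ => hcp _ _
    have hE0 := Real.exp_pos (-(m * ((1 + δ / 3) * W + η)))
    have hR : 0 ≤ (if Close x θ u w then wt ν u * wt ν w else 0) := by
      split_ifs
      · exact mul_nonneg (hwt u) (hwt w)
      · exact le_rfl
    by_cases b1 : Y1 u w ≤ 0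
    · rw [if_pos b1]
      have : 0 ≤ (if Y2 u w ≤ 0 then Cp x ν l f u w else 0) := by
        split_ifs
        · exact hC0
        · exact le_rfl
      exact (mul_nonpos_of_nonneg_of_nonpos hE0.le (by linarith)).trans hR
    · by_cases b2 : Y2 u w ≤ 0
      · rw [if_neg b1, if_pos b2]
        exact (mul_nonpos_of_nonneg_of_nonpos hE0.le (by linarith)).trans hR
      · rw [if_neg b1, if_neg b2, sub_zero, sub_zero]
        have hcl : Close x θ u w := close_of x hs0.le u w (not_le.1 b1)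
        rw [if_pos hcl, Cp_eq']
        have hLle : L u w ≤ m * ((1 + δ / 3) * W + η) := by
          have := hY2' u w
          push Not at b2
          linarith
        have h3 : rexp (-(m * ((1 + δ / 3) * W + η))) * rexp (L u w) ≤ 1 := by
          rw [← Real.exp_add]
          apply Real.exp_le_one_iff.2
          linarith
        have h4 : 0 ≤ wt ν u * wt ν w := mul_nonneg (hwt u) (hwt w)
        calc rexp (-(m * ((1 + δ / 3) * W + η))) * (wt ν u * wt ν w * rexp (L u w))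
            = wt ν u * wt ν w * (rexp (-(m * ((1 + δ / 3) * W + η))) * rexp (L u w)) := by ring
          _ ≤ wt ν u * wt ν w * 1 := by gcongr
          _ = wt ν u * wt ν w := mul_one _
  have hsum : rexp (-(m * ((1 + δ / 3) * W + η))) * (∑ u ∈ D, ∑ w ∈ D, Cp x ν l f u w -
      ∑ u ∈ D, ∑ w ∈ D, (if Y1 u w ≤ 0 then Cp x ν l f u w else 0) -
      ∑ u ∈ D, ∑ w ∈ D, (if Y2 u w ≤ 0 then Cp x ν l f u w else 0)) ≤
      ∑ u ∈ D, ∑ w ∈ D, (if Close x θ u w then wt ν u * wt ν w else 0) := by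
    rw [← Finset.sum_sub_distrib, ← Finset.sum_sub_distrib, Finset.mul_sum]
    refine Finset.sum_le_sum fun u _ => ?_
    rw [← Finset.sum_sub_distrib, ← Finset.sum_sub_distrib, Finset.mul_sum]
    exact Finset.sum_le_sum fun w _ => hpt u w
  refine le_trans ?_ hsum
  have hset := Cp_set hν h1 hl hmarg D
  have hb1 := hq1 m D
  have hb2 := hq2 m D
  have hqm1 : q1 ^ m ≤ q ^ m := pow_le_pow_left₀ hq10.le (le_max_left _ _) m
  have hqm2 : q2 ^ m ≤ q ^ m := pow_le_pow_left₀ hq20.le (le_max_right _ _) m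
  have hmass : rexp (-(2 * c * m)) ≤ (∑ u ∈ D, wt ν u) ^ 2 := by
    have : rexp (-(2 * c * m)) = rexp (-(c * m)) ^ 2 := by
      rw [← Real.exp_nat_mul]
      congr 1
      push_cast
      ring
    rw [this]
    gcongr
  have hqm : q ^ m ≤ rexp (-(4 * c * m)) := by
    have : q ^ m = rexp (m * Real.log q) := by
      rw [Real.exp_nat_mul, Real.exp_log hq0]
    rw [this]
    apply Real.exp_le_exp.2
    have hm' : (0 : ℝ) ≤ m := Nat.cast_nonneg _
    nlinarith
  have hz : rexp (-(2 * c * m)) ≤ 1 / 4 := by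
    rw [← Real.exp_log (show (0 : ℝ) < 1 / 4 by norm_num)]
    apply Real.exp_le_exp.2
    rw [one_div, Real.log_inv]
    linarith
  have hz4 : rexp (-(4 * c * m)) = rexp (-(2 * c * m)) ^ 2 := by
    rw [← Real.exp_nat_mul]
    congr 1
    push_cast
    ring
  have hzp := Real.exp_pos (-(2 * c * m))
  have hfin : rexp (-(4 * c * m)) ≤ ∑ u ∈ D, ∑ w ∈ D, Cp x ν l f u w -
      ∑ u ∈ D, ∑ w ∈ D, (if Y1 u w ≤ 0 then Cp x ν l f u w else 0) -
      ∑ u ∈ D, ∑ w ∈ D, (if Y2 u w ≤ 0 then Cp x ν l f u w else 0) := by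
    have : rexp (-(2 * c * m)) - 2 * rexp (-(4 * c * m)) ≤
        ∑ u ∈ D, ∑ w ∈ D, Cp x ν l f u w -
      ∑ u ∈ D, ∑ w ∈ D, (if Y1 u w ≤ 0 then Cp x ν l f u w else 0) -
      ∑ u ∈ D, ∑ w ∈ D, (if Y2 u w ≤ 0 then Cp x ν l f u w else 0) := by
      linarith
    refine le_trans ?_ this
    rw [hz4]
    nlinarith
  calc Real.sin θ ^ ((1 + δ) * (k * m))
      = rexp (-(m * ((1 + δ) * W))) := by
        rw [Real.rpow_def_of_pos hsin0]
        congr 1
        rw [hW]
        ring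
    _ ≤ rexp (-(m * ((1 + δ / 3) * W + η))) * rexp (-(4 * c * m)) := by
        rw [← Real.exp_add]
        apply Real.exp_le_exp.2
        have hm' : (0 : ℝ) ≤ m := Nat.cast_nonneg _
        rw [hη]
        nlinarith
    _ ≤ _ := by gcongr

end Pool.Agent.P8H92.KB
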