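import Pool.Agent.P8H92.KB.Stm2

/-!
# Project KB, third part: laws of small relative entropy with respect to a product law
-/

set_option autoImplicit false

open Real MeasureTheory

namespace Pool.Agent.P8H92.KB

/-- **TRF** (deliver `theorem trf (hd : S_DIS) (hq : S_QUA) : S_FUN`; the version of `S_FIN` for a
measurable function `d` with values in `[0,1]` instead of a set `D`; adapt
`Pool/Agent/P8H65/KC/Trn.lean`: `P(D ∩ Q u)` becomes `∫ y in Q u, d y ∂P`). -/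
def S_FUN : Prop := ∀ θ δ : ℝ, 0 < θ → θ < π / 2 → 0 < δ → ∃ ρ : ℝ, 0 < ρ ∧
    ∀ (ι : Type) [Fintype ι] (k : ι → ℕ) (μ : ∀ i, Measure (EuclideanSpace ℝ (Fin (k i))))
      [∀ i, IsProbabilityMeasure (μ i)] (R : ι → ℝ), (∀ i, ∀ᵐ y ∂(μ i), ‖y‖ ^ 2 ≤ R i) →
      0 < ∑ i, ∫ y, ‖y‖ ^ 2 ∂(μ i) →
      ∑ i, R i ^ 2 ≤ ρ * (∑ i, ∫ y, ‖y‖ ^ 2 ∂(μ i)) ^ 2 →
      ∀ d : (∀ i, EuclideanSpace ℝ (Fin (k i))) → ℝ, Measurable d → (∀ y, 0 ≤ d y) →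
      (∀ y, d y ≤ 1) →
      rexp (-(ρ * ((∑ i, ∫ y, ‖y‖ ^ 2 ∂(μ i)) ^ 2 / ∑ i, R i ^ 2))) ≤ ∫ y, d y ∂(Measure.pi μ) →
      Real.sin θ ^ ((1 + δ) * ((∑ i, k i : ℕ) : ℝ)) ≤
        ∫ p, Set.indicator {p : (∀ i, EuclideanSpace ℝ (Fin (k i))) ×
          (∀ i, EuclideanSpace ℝ (Fin (k i))) | SmallAng θ p.1 p.2}
          (fun p => d p.1 * d p.2) p ∂((Measure.pi μ).prod (Measure.pi μ))

/-- **KLD** (70 lines; deliver `theorem kld : S_KLD`). From the relative entropy to a bounded function.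
Proof. `Q ≪ P` (the relative entropy is finite), `g = (Q.rnDeriv P).toReal`, `M = exp (2 K + 3)`,
`d = min (g / M) 1`. On `A = {g > M}`: `klFun g = g (log g - 1) + 1 ≥ g (2 K + 2)`, so
`K ≥ ∫ klFun g ∂P ≥ (2 K + 2) ∫_A g ∂P = (2 K + 2) Q(A)` (`klDiv` as an integral of `klFun`,
`klFun ≥ 0`), `Q(A) ≤ 1/2`, and `∫ d ∂P ≥ M⁻¹ ∫_{Aᶜ} g ∂P = M⁻¹ Q(Aᶜ) ≥ exp (-(2 K + 3)) / 2`.
And `d ≤ g / M ≤ g`, so `∫_B d(x) d(y) ≤ ∫_B g(x) g(y) ∂(P×P) = (Q×Q)(B)` for measurable `B`. -/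
def S_KLD : Prop := ∀ (Ω : Type) [MeasurableSpace Ω] (P Q : Measure Ω) [IsProbabilityMeasure P]
    [IsProbabilityMeasure Q] (K : ℝ), 0 ≤ K → InformationTheory.klDiv Q P ≤ ENNReal.ofReal K →
    ∃ d : Ω → ℝ, Measurable d ∧ (∀ y, 0 ≤ d y) ∧ (∀ y, d y ≤ 1) ∧
      rexp (-(2 * K + 4)) ≤ ∫ y, d y ∂P ∧
      ∀ B : Set (Ω × Ω), MeasurableSet B →
        ∫ p, B.indicator (fun p => d p.1 * d p.2) p ∂(P.prod P) ≤ (Q.prod Q).real B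

end Pool.Agent.P8H92.KB
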